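import Mathlib

/-!
Bernstein polynomials and subdivision at the midpoint, through the shift operator.
-/

namespace Pool.Agent.BPK

/-- The Bernstein polynomial. -/
noncomputable def bern (n i : ℕ) (x : ℝ) : ℝ := (n.choose i : ℝ) * (x ^ i * (1 - x) ^ (n - i))

theorem bern_nonneg (n i : ℕ) (x : ℝ) (h0 : 0 ≤ x) (h1 : x ≤ 1) : 0 ≤ bern n i x := by
  unfold bern
  have : 0 ≤ 1 - x := by linarith
  positivity

theorem bern_sum (n : ℕ) (x : ℝ) : ∑ i ∈ Finset.range (n + 1), bern n i x = 1 := by
  have h := add_pow x (1 - x) n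
  have e : x + (1 - x) = 1 := by ring
  rw [e, one_pow] at h
  rw [h]
  apply Finset.sum_congr rfl
  intro i _
  unfold bern
  ring

/-- The shift. -/
def S : Module.End ℝ (ℕ → ℝ) where
  toFun f := fun i => f (i + 1)
  map_add' _ _ := rfl
  map_smul' _ _ := rfl

theorem S_apply (f : ℕ → ℝ) (i : ℕ) : S f i = f (i + 1) := rfl

/-- The average. -/
noncomputable def H : Module.End ℝ (ℕ → ℝ) := (1 / 2 : ℝ) • (1 + S)

theorem H_apply (f : ℕ → ℝ) (i : ℕ) : H f i = (f i + f (i + 1)) / 2 := by
  unfold H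
  simp only [LinearMap.smul_apply, LinearMap.add_apply, Module.End.one_apply, Pi.smul_apply,
    Pi.add_apply, smul_eq_mul, S_apply]
  ring

theorem S_pow_apply (m : ℕ) (f : ℕ → ℝ) (i : ℕ) : (S ^ m) f i = f (i + m) := by
  induction m generalizing i with
  | zero => rfl
  | succ m ih =>
    rw [pow_succ', Module.End.mul_apply, S_apply, ih]
    congr 1
    omega

theorem comm_S_H : Commute S H := by
  unfold H
  exact (Commute.add_right (Commute.one_right S) (Commute.refl S)).smul_right _

/-- binomial formula for two commuting operators, evaluated at `0` -/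
theorem binom_ev (A B : Module.End ℝ (ℕ → ℝ)) (h : Commute A B) (n : ℕ) (x : ℝ) (f : ℕ → ℝ) :
    ((x • A + (1 - x) • B) ^ n) f 0
      = ∑ i ∈ Finset.range (n + 1), bern n i x * ((A ^ i) ((B ^ (n - i)) f)) 0 := by
  have hc : Commute (x • A) ((1 - x) • B) := (h.smul_left x).smul_right (1 - x)
  rw [hc.add_pow]
  rw [LinearMap.sum_apply, Finset.sum_apply]
  apply Finset.sum_congr rfl
  intro i _
  rw [smul_pow, smul_pow]
  have e : (x ^ i • A ^ i * (1 - x) ^ (n - i) • B ^ (n - i) * ((n.choose i : ℕ) :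
      Module.End ℝ (ℕ → ℝ)))
      = ((n.choose i : ℝ) * (x ^ i * (1 - x) ^ (n - i))) • (A ^ i * B ^ (n - i)) := by
    rw [smul_mul_smul_comm, ← nsmul_eq_mul', ← Nat.cast_smul_eq_nsmul ℝ, smul_smul]
  rw [e]
  rfl

theorem value_eq (n : ℕ) (x : ℝ) (f : ℕ → ℝ) :
    ∑ i ∈ Finset.range (n + 1), bern n i x * f i
      = ((x • S + (1 - x) • (1 : Module.End ℝ (ℕ → ℝ))) ^ n) f 0 := by
  rw [binom_ev S 1 (Commute.one_right S) n x f]
  apply Finset.sum_congr rfl
  intro i _
  rw [one_pow, Module.End.one_apply, S_pow_apply, zero_add]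

theorem left_eq (n : ℕ) (x : ℝ) (f : ℕ → ℝ) :
    ∑ i ∈ Finset.range (n + 1), bern n i x * ((H ^ i) f) 0
      = ∑ i ∈ Finset.range (n + 1), bern n i (x / 2) * f i := by
  rw [value_eq n (x / 2) f]
  have e : (x / 2) • S + (1 - x / 2) • (1 : Module.End ℝ (ℕ → ℝ)) = x • H + (1 - x) • 1 := by
    unfold H
    module
  rw [e, binom_ev H 1 (Commute.one_right H) n x f]
  apply Finset.sum_congr rfl
  intro i _
  rw [one_pow, Module.End.one_apply]

theorem right_eq (n : ℕ) (x : ℝ) (f : ℕ → ℝ) :
    ∑ i ∈ Finset.range (n + 1), bern n i x * ((H ^ (n - i)) f) i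
      = ∑ i ∈ Finset.range (n + 1), bern n i ((1 + x) / 2) * f i := by
  rw [value_eq n ((1 + x) / 2) f]
  have e : ((1 + x) / 2) • S + (1 - (1 + x) / 2) • (1 : Module.End ℝ (ℕ → ℝ))
      = x • S + (1 - x) • H := by
    unfold H
    module
  rw [e, binom_ev S H comm_S_H n x f]
  apply Finset.sum_congr rfl
  intro i _
  rw [S_pow_apply, zero_add]

/-- averages with stride on lanes -/
noncomputable def avR (s : ℕ) (b : ℕ → ℝ) : ℕ → ℝ := fun l => (b l + b (l + s)) / 2

theorem avR_line (s base : ℕ) (b : ℕ → ℝ) (r i : ℕ) :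
    ((avR s)^[r] b) (base + s * i) = ((H ^ r) (fun i => b (base + s * i))) i := by
  induction r generalizing i with
  | zero => rfl
  | succ r ih =>
    rw [Function.iterate_succ_apply', pow_succ', Module.End.mul_apply, H_apply, ← ih, ← ih]
    unfold avR
    have : base + s * i + s = base + s * (i + 1) := by ring
    rw [this]

/-- The coordinate. -/
def co (s n l : ℕ) : ℕ := (l / s) % (n + 1)

/-- left half on lanes -/
noncomputable def lfR (s n N : ℕ) (b : ℕ → ℝ) : ℕ → ℝ := fun l =>
  if l < N then ((avR s)^[co s n l] b) (l - s * co s n l) else 0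

/-- right half on lanes -/
noncomputable def rgR (s n N : ℕ) (b : ℕ → ℝ) : ℕ → ℝ := fun l =>
  if l < N then ((avR s)^[n - co s n l] b) l else 0

theorem lfR_line (s n N base i : ℕ) (b : ℕ → ℝ) (hl : base + s * i < N)
    (hc : co s n (base + s * i) = i) :
    lfR s n N b (base + s * i) = ((H ^ i) (fun i => b (base + s * i))) 0 := by
  unfold lfR
  rw [if_pos hl, hc]
  have e : base + s * i - s * i = base + s * 0 := by omega
  rw [e, avR_line]

theorem rgR_line (s n N base i : ℕ) (b : ℕ → ℝ) (hl : base + s * i < N)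
    (hc : co s n (base + s * i) = i) :
    rgR s n N b (base + s * i) = ((H ^ (n - i)) (fun i => b (base + s * i))) i := by
  unfold rgR
  rw [if_pos hl, hc, avR_line]

end Pool.Agent.BPK
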