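import Pool.Agent.BPK.Val

/-!
Closed formulas for the constants (ones, masks).
-/

namespace Pool.Agent.BPK

theorem pk_split (W N M : ℕ) (x : ℕ → ℕ) :
    pk W (N + M) x = pk W N x + (2 ^ W) ^ N * pk W M (fun l => x (N + l)) := by
  unfold pk
  rw [Finset.sum_range_add, Finset.mul_sum]
  congr 1
  apply Finset.sum_congr rfl
  intro l _
  rw [pow_add]
  ring

theorem pk_const (W N a : ℕ) (hW : 0 < W) :
    pk W N (fun _ => a) = a * (((2 ^ W) ^ N - 1) / (2 ^ W - 1)) := by
  unfold pk
  have h : 2 ≤ 2 ^ W := by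
    calc 2 = 2 ^ 1 := by norm_num
      _ ≤ 2 ^ W := Nat.pow_le_pow_right (by norm_num) hW
  rw [← Nat.geomSum_eq h, Finset.mul_sum]

theorem pk_full (W s : ℕ) : pk W s (fun _ => 2 ^ W - 1) = (2 ^ W) ^ s - 1 := by
  induction s with
  | zero => simp [pk]
  | succ s ih =>
    rw [pk_succ_last, ih]
    have h1 : 1 ≤ (2 ^ W) ^ s := Nat.one_le_pow _ _ (by positivity)
    have h2 : 1 ≤ 2 ^ W := Nat.one_le_two_pow
    obtain ⟨a, ha⟩ : ∃ a, (2 ^ W) ^ s = a + 1 := ⟨(2 ^ W) ^ s - 1, by omega⟩
    obtain ⟨b, hb⟩ : ∃ b, 2 ^ W = b + 1 := ⟨2 ^ W - 1, by omega⟩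
    rw [pow_succ, ha, hb]
    have : (a + 1) * (b + 1) = a + b * (a + 1) + 1 := by ring
    rw [this]
    simp

theorem co_period (s n l q : ℕ) (hs : 0 < s) : co s n (s * (n + 1) * q + l) = co s n l := by
  unfold co
  have : s * (n + 1) * q + l = l + s * ((n + 1) * q) := by ring
  rw [this, Nat.add_mul_div_left _ _ hs, Nat.add_mul_mod_self_left]

theorem msk_block (W s n : ℕ) (hs : 0 < s) :
    pk W (s * (n + 1)) (fun l => if co s n l = 0 then 2 ^ W - 1 else 0) = (2 ^ W) ^ s - 1 := by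
  have e : s * (n + 1) = s + s * n := by ring
  rw [e, pk_split]
  have e1 : pk W s (fun l => if co s n l = 0 then 2 ^ W - 1 else 0)
      = pk W s (fun _ => 2 ^ W - 1) := by
    apply pk_congr
    intro l hl
    have : co s n l = 0 := by
      unfold co
      rw [Nat.div_eq_of_lt hl]
      simp
    rw [if_pos this]
  have e2 : pk W (s * n) (fun l => if co s n (s + l) = 0 then 2 ^ W - 1 else 0) = 0 := by
    unfold pk
    apply Finset.sum_eq_zero
    intro l hl
    have hl' : l < s * n := Finset.mem_range.mp hl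
    have : co s n (s + l) ≠ 0 := by
      unfold co
      have h1 : (s + l) / s = l / s + 1 := by
        rw [add_comm, Nat.add_div_right _ hs]
      rw [h1]
      have h2 : l / s < n := by
        rw [Nat.div_lt_iff_lt_mul hs]
        rw [mul_comm]
        exact hl'
      have h3 : l / s + 1 < n + 1 := Nat.succ_lt_succ h2
      rw [Nat.mod_eq_of_lt h3]
      exact Nat.succ_ne_zero _
    simp only [if_neg this, zero_mul]
  rw [e1, e2, pk_full]
  ring

theorem msk_sum (W s n q : ℕ) (hs : 0 < s) :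
    pk W (s * (n + 1) * q) (fun l => if co s n l = 0 then 2 ^ W - 1 else 0)
      = ((2 ^ W) ^ s - 1) * ∑ k ∈ Finset.range q, ((2 ^ W) ^ (s * (n + 1))) ^ k := by
  induction q with
  | zero => simp [pk]
  | succ q ih =>
    have e : s * (n + 1) * (q + 1) = s * (n + 1) * q + s * (n + 1) := by ring
    rw [e, pk_split, ih, Finset.sum_range_succ]
    have e2 : pk W (s * (n + 1)) (fun l => if co s n (s * (n + 1) * q + l) = 0 then 2 ^ W - 1
        else 0) = (2 ^ W) ^ s - 1 := by
      rw [← msk_block W s n hs]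
      apply pk_congr
      intro l _
      rw [co_period s n l q hs]
    rw [e2, ← pow_mul (2 ^ W) (s * (n + 1)) q]
    ring

theorem msk_eq (W s n q : ℕ) (hs : 0 < s) (hW : 0 < W) :
    msk W (s * (n + 1) * q) (c0 s n (s * (n + 1) * q))
      = ((2 ^ W) ^ s - 1) * (((2 ^ W) ^ (s * (n + 1) * q) - 1)
        / ((2 ^ W) ^ (s * (n + 1)) - 1)) := by
  have e : msk W (s * (n + 1) * q) (c0 s n (s * (n + 1) * q))
      = pk W (s * (n + 1) * q) (fun l => if co s n l = 0 then 2 ^ W - 1 else 0) := by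
    unfold msk
    apply pk_congr
    intro l hl
    unfold c0
    simp [hl]
  rw [e, msk_sum W s n q hs]
  have h : 2 ≤ (2 ^ W) ^ (s * (n + 1)) := by
    rw [← pow_mul]
    calc 2 = 2 ^ 1 := by norm_num
      _ ≤ 2 ^ (W * (s * (n + 1))) := by
        apply Nat.pow_le_pow_right (by norm_num)
        have : 0 < W * (s * (n + 1)) := by positivity
        omega
  rw [Nat.geomSum_eq h, pow_mul (2 ^ W) (s * (n + 1)) q]

end Pool.Agent.BPK
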