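import Pool.Agent.BPK.Repack

/-!
Conversion of a packed array of monomial coefficients to the packed Bernstein array on a box, by
masked multiplications.
-/

namespace Pool.Agent.BPK

/-- The conversion in one direction. -/
noncomputable def conv (Ws E : ℕ) (k : ℕ → Bool) (Ps : List ℕ) : ℕ → ℕ → Bool :=
  List.rec (motive := fun _ => ℕ → ℕ → Bool) (fun _ acc => fcB acc k)
    (fun p _ ih X acc => fcB (Nat.add acc (Nat.mul (Nat.land X E) p)) (fun acc' =>
      fcB (Nat.shiftRight X Ws) (fun X' => ih X' acc'))) Ps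

/-- The lanes of the conversion. -/
def cvL (s n : ℕ) : List (List ℕ) → (ℕ → ℕ) → ℕ → ℕ
  | [], _, _ => 0
  | r :: R, x, l => tau r (co s n l) * x (l - s * co s n l) + cvL s n R (fun l => x (l + s)) l

theorem pk_sum (W N m : ℕ) (f : ℕ → ℕ → ℕ) : ∑ i ∈ Finset.range m, pk W N (f i)
    = pk W N (fun l => ∑ i ∈ Finset.range m, f i l) := by
  unfold pk
  rw [Finset.sum_comm]
  apply Finset.sum_congr rfl
  intro l _
  rw [Finset.sum_mul]

theorem pk_smul (W N a : ℕ) (x : ℕ → ℕ) : a * pk W N x = pk W N (fun l => a * x l) := by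
  unfold pk
  rw [Finset.mul_sum]
  apply Finset.sum_congr rfl
  intro l _
  ring

theorem conv_step (W s n N q : ℕ) (x : ℕ → ℕ) (r : List ℕ) (hN : N = s * (n + 1) * q)
    (hs : 0 < s) (hx : ∀ l, x l < 2 ^ W) (hr : r.length = n + 1) :
    Nat.mul (Nat.land (pk W N x) (msk W N (c0 s n N))) (pvw (2 ^ (W * s)) r 0)
      = pk W N (fun l => tau r (co s n l) * x (l - s * co s n l)) := by
  rw [pk_msk W N _ _ hx, pvw_eq, hr]
  have e1 : Nat.mul (pk W N (fun l => if c0 s n N l = true then x l else 0))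
      (∑ j ∈ Finset.range (n + 1), tau r j * (2 ^ (W * s)) ^ j)
      = ∑ j ∈ Finset.range (n + 1), pk W N (fun l => tau r j *
        (if s * j ≤ l then (if c0 s n N (l - s * j) = true then x (l - s * j) else 0) else 0)) := by
    change pk W N _ * _ = _
    rw [Finset.mul_sum]
    apply Finset.sum_congr rfl
    intro j hj
    have hj' : j ≤ n := by
      have := Finset.mem_range.mp hj
      omega
    rw [← pk_smul W N (tau r j) (fun l => if s * j ≤ l then
      (if c0 s n N (l - s * j) = true then x (l - s * j) else 0) else 0)]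
    rw [← pk_shl W N (s * j) (fun l => if c0 s n N l = true then x l else 0)]
    · have e : (2 ^ (W * s)) ^ j = (2 ^ W) ^ (s * j) := by
        rw [← pow_mul, ← pow_mul, mul_assoc]
      rw [e]
      ring
    · intro l hl
      by_cases h6 : c0 s n N l = true
      · have := c0_lt s n N q l j hN hs hj' h6
        omega
      · rw [if_neg h6]
  rw [e1, pk_sum]
  apply pk_congr
  intro l hl
  have hc := co_le s n l
  rw [Finset.sum_eq_single (co s n l)]
  · obtain ⟨h2, h3⟩ := (c0_shift s n N q l (co s n l) hN hs hc hl).mpr rfl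
    rw [if_pos h2, if_pos h3]
  · intro j hj hne
    have hj' : j ≤ n := by
      have := Finset.mem_range.mp hj
      omega
    by_cases h5 : s * j ≤ l
    · rw [if_pos h5]
      by_cases h6 : c0 s n N (l - s * j) = true
      · exact absurd ((c0_shift s n N q l j hN hs hj' hl).mp ⟨h5, h6⟩).symm hne
      · rw [if_neg h6, mul_zero]
    · rw [if_neg h5, mul_zero]
  · intro h
    exact absurd (Finset.mem_range.mpr (by omega)) h

theorem conv_spec (W s n N q : ℕ) (k : ℕ → Bool) (hN : N = s * (n + 1) * q) (hs : 0 < s)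
    (R : List (List ℕ)) : ∀ (x y : ℕ → ℕ), (∀ l, x l < 2 ^ W) → (∀ l, N ≤ l → x l = 0) →
    (∀ r ∈ R, r.length = n + 1) →
    conv (W * s) (msk W N (c0 s n N)) k (R.map (fun r => pvw (2 ^ (W * s)) r 0)) (pk W N x)
      (pk W N y) = k (pk W N (fun l => y l + cvL s n R x l)) := by
  induction R with
  | nil =>
    intro x y hx h0 hR
    change fcB (pk W N y) k = _
    rw [fcB_eq]
    rfl
  | cons r R ih =>
    intro x y hx h0 hR
    change fcB (Nat.add (pk W N y) (Nat.mul (Nat.land (pk W N x) (msk W N (c0 s n N)))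
      (pvw (2 ^ (W * s)) r 0))) (fun acc' => fcB (Nat.shiftRight (pk W N x) (W * s))
        (fun X' => conv (W * s) (msk W N (c0 s n N)) k (R.map (fun r => pvw (2 ^ (W * s)) r 0))
          X' acc')) = _
    rw [fcB_eq, fcB_eq, conv_step W s n N q x r hN hs hx (hR r List.mem_cons_self)]
    have e1 : Nat.shiftRight (pk W N x) (W * s) = pk W N (fun l => x (l + s)) := by
      change _ >>> (W * s) = _
      rw [Nat.shiftRight_eq_div_pow, pow_mul]
      exact pk_shr W N s _ hx h0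
    have e2 : Nat.add (pk W N y) (pk W N (fun l => tau r (co s n l) * x (l - s * co s n l)))
        = pk W N (fun l => y l + tau r (co s n l) * x (l - s * co s n l)) := pk_add W N _ _
    rw [e1, e2, ih (fun l => x (l + s)) _ (fun l => hx _) (fun l hl => h0 _ (by omega))
      (fun r' h => hR r' (List.mem_cons_of_mem _ h))]
    congr 1
    apply pk_congr
    intro l _
    simp only [cvL]
    ring

/-- General evaluation of a lane array with weights in the three directions. -/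
noncomputable def Vg (n1 n2 n3 : ℕ) (w1 w2 w3 : ℕ → ℝ) (b : ℕ → ℝ) : ℝ :=
  ∑ k ∈ Finset.range (n3 + 1), ∑ j ∈ Finset.range (n2 + 1), ∑ i ∈ Finset.range (n1 + 1),
    w3 k * (w2 j * (w1 i * b (i + (n1 + 1) * j + (n1 + 1) * (n2 + 1) * k)))

theorem V_eq_Vg (n1 n2 n3 : ℕ) (b : ℕ → ℝ) (x y z : ℝ) : V n1 n2 n3 b x y z
    = Vg n1 n2 n3 (fun i => bern n1 i x) (fun j => bern n2 j y) (fun k => bern n3 k z) b := rfl

/-- one line of the conversion -/
theorem cv_line (s n q l h : ℕ) (ξ U : ℝ) (hU : (l : ℝ) * (1 - ξ) + h * ξ = q * U)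
    (base : ℕ) (hc : ∀ i, i ≤ n → co s n (base + s * i) = i) :
    ∀ (m a : ℕ) (x : ℕ → ℕ), m + a = n + 1 →
    ∑ i ∈ Finset.range (n + 1), bern n i ξ * (cvL s n (rows q l h m a) x (base + s * i) : ℝ)
      = (n.factorial : ℝ) * (q : ℝ) ^ n * ∑ a' ∈ Finset.range m,
        U ^ (a + a') * (x (base + s * a') : ℝ) := by
  intro m
  induction m with
  | zero =>
    intro a x _
    simp [rows, cvL]
  | succ m ih =>
    intro a x hm
    have h1 := ih (a + 1) (fun l => x (l + s)) (by omega)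
    have h2 := tau_bern n (row q l h m a) (by rw [row_length]; omega) ξ
    rw [row_hom, hU] at h2
    have h3 : ∑ i ∈ Finset.range (n + 1), bern n i ξ
        * (cvL s n (rows q l h (m + 1) a) x (base + s * i) : ℝ)
        = (∑ i ∈ Finset.range (n + 1), bern n i ξ * (tau (row q l h m a) i : ℝ)) * (x base : ℝ)
        + ∑ i ∈ Finset.range (n + 1), bern n i ξ
          * (cvL s n (rows q l h m (a + 1)) (fun l => x (l + s)) (base + s * i) : ℝ) := by
      rw [Finset.sum_mul, ← Finset.sum_add_distrib]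
      apply Finset.sum_congr rfl
      intro i hi
      have hi' : i ≤ n := by
        have := Finset.mem_range.mp hi
        omega
      simp only [rows, cvL]
      rw [hc i hi']
      have e : base + s * i - s * i = base := by omega
      rw [e]
      push_cast
      ring
    rw [h3, h1, h2, Finset.sum_range_succ', mul_add, add_comm]
    congr 1
    · congr 1
      apply Finset.sum_congr rfl
      intro a' _
      have e1 : a + 1 + a' = a + (a' + 1) := by ring
      have e2 : base + s * a' + s = base + s * (a' + 1) := by ring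
      rw [e1, e2]
    · have e : n = m + a := by omega
      have e2 : (q : ℝ) ^ n = (q : ℝ) ^ a * (q : ℝ) ^ m := by
        rw [e, pow_add]
        ring
      rw [e2]
      simp only [mul_zero, add_zero]
      ring

/-- conversion in direction 1 -/
theorem Vg_cv1 (n1 n2 n3 q l h : ℕ) (ξ U : ℝ) (w2 w3 : ℕ → ℝ) (x : ℕ → ℕ)
    (hU : (l : ℝ) * (1 - ξ) + h * ξ = q * U) :
    Vg n1 n2 n3 (fun i => bern n1 i ξ) w2 w3
      (fun t => (cvL 1 n1 (rows q l h (n1 + 1) 0) x t : ℝ))
      = (n1.factorial : ℝ) * (q : ℝ) ^ n1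
        * Vg n1 n2 n3 (fun i => U ^ i) w2 w3 (fun t => (x t : ℝ)) := by
  unfold Vg
  rw [Finset.mul_sum]
  apply Finset.sum_congr rfl
  intro k _
  rw [Finset.mul_sum]
  apply Finset.sum_congr rfl
  intro j _
  rw [← Finset.mul_sum, ← Finset.mul_sum, ← Finset.mul_sum, ← Finset.mul_sum]
  have h1 := cv_line 1 n1 q l h ξ U hU ((n1 + 1) * j + (n1 + 1) * (n2 + 1) * k)
    (fun i hi => by
      have := co1 n1 n2 i j k (by omega)
      have e : i + (n1 + 1) * j + (n1 + 1) * (n2 + 1) * k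
        = (n1 + 1) * j + (n1 + 1) * (n2 + 1) * k + 1 * i := by ring
      rw [e] at this
      exact this) (n1 + 1) 0 x rfl
  have e1 : ∑ i ∈ Finset.range (n1 + 1), bern n1 i ξ * (cvL 1 n1 (rows q l h (n1 + 1) 0) x
      (i + (n1 + 1) * j + (n1 + 1) * (n2 + 1) * k) : ℝ)
      = ∑ i ∈ Finset.range (n1 + 1), bern n1 i ξ * (cvL 1 n1 (rows q l h (n1 + 1) 0) x
      ((n1 + 1) * j + (n1 + 1) * (n2 + 1) * k + 1 * i) : ℝ) := by
    apply Finset.sum_congr rfl
    intro i _
    have e : i + (n1 + 1) * j + (n1 + 1) * (n2 + 1) * k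
      = (n1 + 1) * j + (n1 + 1) * (n2 + 1) * k + 1 * i := by ring
    rw [e]
  rw [e1, h1]
  have e2 : ∑ a' ∈ Finset.range (n1 + 1), U ^ (0 + a')
      * (x ((n1 + 1) * j + (n1 + 1) * (n2 + 1) * k + 1 * a') : ℝ)
      = ∑ i ∈ Finset.range (n1 + 1), U ^ i
        * (x (i + (n1 + 1) * j + (n1 + 1) * (n2 + 1) * k) : ℝ) := by
    apply Finset.sum_congr rfl
    intro i _
    have e : i + (n1 + 1) * j + (n1 + 1) * (n2 + 1) * k
      = (n1 + 1) * j + (n1 + 1) * (n2 + 1) * k + 1 * i := by ring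
    rw [e, zero_add]
  rw [e2]
  ring

theorem Vg_comm2 (n1 n2 n3 : ℕ) (w1 w2 w3 : ℕ → ℝ) (b : ℕ → ℝ) : Vg n1 n2 n3 w1 w2 w3 b
    = ∑ k ∈ Finset.range (n3 + 1), ∑ i ∈ Finset.range (n1 + 1), w3 k * (w1 i
      * ∑ j ∈ Finset.range (n2 + 1), w2 j
        * b (i + (n1 + 1) * (n2 + 1) * k + (n1 + 1) * j)) := by
  unfold Vg
  apply Finset.sum_congr rfl
  intro k _
  rw [Finset.sum_comm]
  apply Finset.sum_congr rfl
  intro i _
  rw [Finset.mul_sum, Finset.mul_sum]
  apply Finset.sum_congr rfl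
  intro j _
  have e : i + (n1 + 1) * j + (n1 + 1) * (n2 + 1) * k
      = i + (n1 + 1) * (n2 + 1) * k + (n1 + 1) * j := by ring
  rw [e]
  ring

theorem Vg_comm3 (n1 n2 n3 : ℕ) (w1 w2 w3 : ℕ → ℝ) (b : ℕ → ℝ) : Vg n1 n2 n3 w1 w2 w3 b
    = ∑ j ∈ Finset.range (n2 + 1), ∑ i ∈ Finset.range (n1 + 1), w2 j * (w1 i
      * ∑ k ∈ Finset.range (n3 + 1), w3 k
        * b (i + (n1 + 1) * j + (n1 + 1) * (n2 + 1) * k)) := by
  unfold Vg
  rw [Finset.sum_comm]
  apply Finset.sum_congr rfl
  intro j _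
  rw [Finset.sum_comm]
  apply Finset.sum_congr rfl
  intro i _
  rw [Finset.mul_sum, Finset.mul_sum]
  apply Finset.sum_congr rfl
  intro k _
  ring

/-- conversion in direction 2 -/
theorem Vg_cv2 (n1 n2 n3 q l h : ℕ) (ξ U : ℝ) (w1 w3 : ℕ → ℝ) (x : ℕ → ℕ)
    (hU : (l : ℝ) * (1 - ξ) + h * ξ = q * U) :
    Vg n1 n2 n3 w1 (fun i => bern n2 i ξ) w3
      (fun t => (cvL (n1 + 1) n2 (rows q l h (n2 + 1) 0) x t : ℝ))
      = (n2.factorial : ℝ) * (q : ℝ) ^ n2
        * Vg n1 n2 n3 w1 (fun i => U ^ i) w3 (fun t => (x t : ℝ)) := by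
  rw [Vg_comm2, Vg_comm2, Finset.mul_sum]
  apply Finset.sum_congr rfl
  intro k _
  rw [Finset.mul_sum]
  apply Finset.sum_congr rfl
  intro i hi
  have hi' : i < n1 + 1 := Finset.mem_range.mp hi
  have h1 := cv_line (n1 + 1) n2 q l h ξ U hU (i + (n1 + 1) * (n2 + 1) * k)
    (fun j hj => by
      have := co2 n1 n2 i j k hi' (by omega)
      have e : i + (n1 + 1) * j + (n1 + 1) * (n2 + 1) * k
        = i + (n1 + 1) * (n2 + 1) * k + (n1 + 1) * j := by ring
      rw [e] at this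
      exact this) (n2 + 1) 0 x rfl
  rw [h1]
  simp only [zero_add]
  ring

/-- conversion in direction 3 -/
theorem Vg_cv3 (n1 n2 n3 q l h : ℕ) (ξ U : ℝ) (w1 w2 : ℕ → ℝ) (x : ℕ → ℕ)
    (hU : (l : ℝ) * (1 - ξ) + h * ξ = q * U) :
    Vg n1 n2 n3 w1 w2 (fun i => bern n3 i ξ)
      (fun t => (cvL ((n1 + 1) * (n2 + 1)) n3 (rows q l h (n3 + 1) 0) x t : ℝ))
      = (n3.factorial : ℝ) * (q : ℝ) ^ n3
        * Vg n1 n2 n3 w1 w2 (fun i => U ^ i) (fun t => (x t : ℝ)) := by
  rw [Vg_comm3, Vg_comm3, Finset.mul_sum]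
  apply Finset.sum_congr rfl
  intro j hj
  rw [Finset.mul_sum]
  apply Finset.sum_congr rfl
  intro i hi
  have hi' : i < n1 + 1 := Finset.mem_range.mp hi
  have hj' : j < n2 + 1 := Finset.mem_range.mp hj
  have h1 := cv_line ((n1 + 1) * (n2 + 1)) n3 q l h ξ U hU (i + (n1 + 1) * j)
    (fun k hk => co3 n1 n2 n3 i j k hi' hj' (by omega)) (n3 + 1) 0 x rfl
  rw [h1]
  simp only [zero_add]
  ring

end Pool.Agent.BPK
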