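import Pool.Agent.BPK.Conv

/-!
Expressions in three variables, their packed arrays of coefficients (Kronecker substitution).
-/

namespace Pool.Agent.BPK

open MvPolynomial

/-- Expressions in three variables. `c p n` is the constant `p - n`. -/
inductive Ex : Type
  | c (p n : ℕ) : Ex
  | u : Ex
  | v : Ex
  | t : Ex
  | add (a b : Ex) : Ex
  | mul (a b : Ex) : Ex
  | neg (a : Ex) : Ex

/-- The real value. -/
def Ex.evR (x y z : ℝ) : Ex → ℝ
  | .c p n => (p : ℝ) - n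
  | .u => x
  | .v => y
  | .t => z
  | .add a b => Ex.evR x y z a + Ex.evR x y z b
  | .mul a b => Ex.evR x y z a * Ex.evR x y z b
  | .neg a => -Ex.evR x y z a

/-- The positive and the negative part as polynomials. -/
noncomputable def Ex.pp : Ex → MvPolynomial (Fin 3) ℕ × MvPolynomial (Fin 3) ℕ
  | .c p n => (C p, C n)
  | .u => (X 0, 0)
  | .v => (X 1, 0)
  | .t => (X 2, 0)
  | .add a b => ((Ex.pp a).1 + (Ex.pp b).1, (Ex.pp a).2 + (Ex.pp b).2)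
  | .mul a b => ((Ex.pp a).1 * (Ex.pp b).1 + (Ex.pp a).2 * (Ex.pp b).2,
      (Ex.pp a).1 * (Ex.pp b).2 + (Ex.pp a).2 * (Ex.pp b).1)
  | .neg a => ((Ex.pp a).2, (Ex.pp a).1)

/-- Values of the two parts at natural numbers. -/
def Ex.pn (x y z : ℕ) : Ex → ℕ × ℕ
  | .c p n => (p, n)
  | .u => (x, 0)
  | .v => (y, 0)
  | .t => (z, 0)
  | .add a b => ((Ex.pn x y z a).1 + (Ex.pn x y z b).1, (Ex.pn x y z a).2 + (Ex.pn x y z b).2)
  | .mul a b => ((Ex.pn x y z a).1 * (Ex.pn x y z b).1 + (Ex.pn x y z a).2 * (Ex.pn x y z b).2,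
      (Ex.pn x y z a).1 * (Ex.pn x y z b).2 + (Ex.pn x y z a).2 * (Ex.pn x y z b).1)
  | .neg a => ((Ex.pn x y z a).2, (Ex.pn x y z a).1)

/-- Degrees. -/
def Ex.dg : Ex → ℕ × ℕ × ℕ
  | .c _ _ => (0, 0, 0)
  | .u => (1, 0, 0)
  | .v => (0, 1, 0)
  | .t => (0, 0, 1)
  | .add a b => (max (Ex.dg a).1 (Ex.dg b).1, max (Ex.dg a).2.1 (Ex.dg b).2.1,
      max (Ex.dg a).2.2 (Ex.dg b).2.2)
  | .mul a b => ((Ex.dg a).1 + (Ex.dg b).1, (Ex.dg a).2.1 + (Ex.dg b).2.1,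
      (Ex.dg a).2.2 + (Ex.dg b).2.2)
  | .neg a => Ex.dg a

theorem Ex.pn_eq (x y z : ℕ) (e : Ex) : Ex.pn x y z e
    = (eval ![x, y, z] (Ex.pp e).1, eval ![x, y, z] (Ex.pp e).2) := by
  induction e with
  | c p n => simp [Ex.pn, Ex.pp]
  | u => simp [Ex.pn, Ex.pp]
  | v => simp [Ex.pn, Ex.pp]
  | t => simp [Ex.pn, Ex.pp]
  | add a b iha ihb => simp only [Ex.pn, Ex.pp, iha, ihb, map_add]
  | mul a b iha ihb => simp only [Ex.pn, Ex.pp, iha, ihb, map_add, map_mul]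
  | neg a iha => simp only [Ex.pn, Ex.pp, iha]

theorem Ex.evR_eq (x y z : ℝ) (e : Ex) : Ex.evR x y z e
    = aeval ![x, y, z] (Ex.pp e).1 - aeval ![x, y, z] (Ex.pp e).2 := by
  induction e with
  | c p n => simp [Ex.evR, Ex.pp]
  | u => simp [Ex.evR, Ex.pp]
  | v => simp [Ex.evR, Ex.pp]
  | t => simp [Ex.evR, Ex.pp]
  | add a b iha ihb => simp only [Ex.evR, Ex.pp, iha, ihb, map_add]; ring
  | mul a b iha ihb => simp only [Ex.evR, Ex.pp, iha, ihb, map_add, map_mul]; ring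
  | neg a iha => simp only [Ex.evR, Ex.pp, iha]; ring

/-- component of the degrees -/
def dgi (d : ℕ × ℕ × ℕ) : Fin 3 → ℕ := ![d.1, d.2.1, d.2.2]

theorem Ex.degreeOf_le (e : Ex) (i : Fin 3) :
    degreeOf i (Ex.pp e).1 ≤ dgi (Ex.dg e) i ∧ degreeOf i (Ex.pp e).2 ≤ dgi (Ex.dg e) i := by
  induction e with
  | c p n =>
    constructor
    · change degreeOf i (C p) ≤ _
      rw [degreeOf_C]
      exact Nat.zero_le _
    · change degreeOf i (C n) ≤ _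
      rw [degreeOf_C]
      exact Nat.zero_le _
  | u => fin_cases i <;> simp [Ex.pp, Ex.dg, dgi, degreeOf_X]
  | v => fin_cases i <;> simp [Ex.pp, Ex.dg, dgi, degreeOf_X]
  | t => fin_cases i <;> simp [Ex.pp, Ex.dg, dgi, degreeOf_X]
  | add a b iha ihb =>
    have h : dgi (Ex.dg (Ex.add a b)) i = max (dgi (Ex.dg a) i) (dgi (Ex.dg b) i) := by
      fin_cases i <;> rfl
    rw [h]
    constructor
    · exact (degreeOf_add_le _ _ _).trans (max_le_max iha.1 ihb.1)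
    · exact (degreeOf_add_le _ _ _).trans (max_le_max iha.2 ihb.2)
  | mul a b iha ihb =>
    have h : dgi (Ex.dg (Ex.mul a b)) i = dgi (Ex.dg a) i + dgi (Ex.dg b) i := by
      fin_cases i <;> rfl
    rw [h]
    constructor
    · refine (degreeOf_add_le _ _ _).trans (max_le ?_ ?_)
      · exact (degreeOf_mul_le _ _ _).trans (Nat.add_le_add iha.1 ihb.1)
      · exact (degreeOf_mul_le _ _ _).trans (Nat.add_le_add iha.2 ihb.2)
    · refine (degreeOf_add_le _ _ _).trans (max_le ?_ ?_)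
      · exact (degreeOf_mul_le _ _ _).trans (Nat.add_le_add iha.1 ihb.2)
      · exact (degreeOf_mul_le _ _ _).trans (Nat.add_le_add iha.2 ihb.1)
  | neg a iha => exact ⟨iha.2, iha.1⟩

/-- the exponent with three components -/
noncomputable def e3 (i j k : ℕ) : Fin 3 →₀ ℕ := Finsupp.equivFunOnFinite.symm ![i, j, k]

theorem e3_apply (i j k : ℕ) : (e3 i j k 0 = i) ∧ (e3 i j k 1 = j) ∧ (e3 i j k 2 = k) := by
  refine ⟨rfl, rfl, rfl⟩

theorem e3_eta (d : Fin 3 →₀ ℕ) : e3 (d 0) (d 1) (d 2) = d := by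
  ext i
  fin_cases i <;> rfl

/-- A polynomial with bounded degrees as a triple sum. -/
theorem aeval_triple {R : Type*} [CommSemiring R] (p : MvPolynomial (Fin 3) ℕ) (n1 n2 n3 : ℕ)
    (h0 : degreeOf 0 p ≤ n1) (h1 : degreeOf 1 p ≤ n2) (h2 : degreeOf 2 p ≤ n3) (x y z : R) :
    aeval ![x, y, z] p = ∑ k ∈ Finset.range (n3 + 1), ∑ j ∈ Finset.range (n2 + 1),
      ∑ i ∈ Finset.range (n1 + 1), ((coeff (e3 i j k) p : ℕ) : R) * (x ^ i * y ^ j * z ^ k) := by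
  rw [aeval_def, eval₂_eq']
  have e1 : ∑ k ∈ Finset.range (n3 + 1), ∑ j ∈ Finset.range (n2 + 1),
      ∑ i ∈ Finset.range (n1 + 1), ((coeff (e3 i j k) p : ℕ) : R) * (x ^ i * y ^ j * z ^ k)
      = ∑ q ∈ (Finset.range (n3 + 1)) ×ˢ ((Finset.range (n2 + 1)) ×ˢ (Finset.range (n1 + 1))),
        ((coeff (e3 q.2.2 q.2.1 q.1) p : ℕ) : R) * (x ^ q.2.2 * y ^ q.2.1 * z ^ q.1) := by
    rw [Finset.sum_product]
    apply Finset.sum_congr rfl
    intro k _
    rw [Finset.sum_product]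
  rw [e1]
  symm
  apply Finset.sum_bij_ne_zero (fun q _ _ => e3 q.2.2 q.2.1 q.1)
  · intro q hq hne
    rw [mem_support_iff]
    intro h
    rw [h] at hne
    simp at hne
  · intro q1 _ _ q2 _ _ h
    have a0 := DFunLike.congr_fun h 0
    have a1 := DFunLike.congr_fun h 1
    have a2 := DFunLike.congr_fun h 2
    rw [(e3_apply _ _ _).1, (e3_apply _ _ _).1] at a0
    rw [(e3_apply _ _ _).2.1, (e3_apply _ _ _).2.1] at a1
    rw [(e3_apply _ _ _).2.2, (e3_apply _ _ _).2.2] at a2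
    exact Prod.ext a2 (Prod.ext a1 a0)
  · intro d hd hne
    refine ⟨(d 2, d 1, d 0), ?_, ?_, e3_eta d⟩
    · have b0 := (monomial_le_degreeOf 0 hd).trans h0
      have b1 := (monomial_le_degreeOf 1 hd).trans h1
      have b2 := (monomial_le_degreeOf 2 hd).trans h2
      simp only [Finset.mem_product, Finset.mem_range]
      omega
    · simp only
      rw [e3_eta]
      rw [Fin.prod_univ_three] at hne
      exact hne
  · intro q _ _
    rw [Fin.prod_univ_three]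
    rfl

/-- The lanes of a polynomial. -/
noncomputable def lx (n1 n2 n3 : ℕ) (p : MvPolynomial (Fin 3) ℕ) (l : ℕ) : ℕ :=
  if l < NN n1 n2 n3 then
    coeff (e3 (co 1 n1 l) (co (n1 + 1) n2 l) (co ((n1 + 1) * (n2 + 1)) n3 l)) p
  else 0

theorem lx_at (n1 n2 n3 i j k : ℕ) (p : MvPolynomial (Fin 3) ℕ) (h1 : i < n1 + 1)
    (h2 : j < n2 + 1) (h3 : k < n3 + 1) :
    lx n1 n2 n3 p (i + (n1 + 1) * j + (n1 + 1) * (n2 + 1) * k) = coeff (e3 i j k) p := by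
  unfold lx
  rw [if_pos (idx_lt n1 n2 n3 i j k h1 h2 h3), co1 n1 n2 i j k h1, co2 n1 n2 i j k h1 h2,
    co3 n1 n2 n3 i j k h1 h2 h3]

theorem lx_pk (W n1 n2 n3 : ℕ) (p : MvPolynomial (Fin 3) ℕ)
    (h0 : degreeOf 0 p ≤ n1) (h1 : degreeOf 1 p ≤ n2) (h2 : degreeOf 2 p ≤ n3) :
    eval ![2 ^ W, 2 ^ (W * (n1 + 1)), 2 ^ (W * ((n1 + 1) * (n2 + 1)))] p
      = pk W (NN n1 n2 n3) (lx n1 n2 n3 p) := by
  have h := aeval_triple p n1 n2 n3 h0 h1 h2 (2 ^ W : ℕ) (2 ^ (W * (n1 + 1)))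
    (2 ^ (W * ((n1 + 1) * (n2 + 1))))
  rw [← coe_aeval_eq_eval]
  change aeval ![2 ^ W, 2 ^ (W * (n1 + 1)), 2 ^ (W * ((n1 + 1) * (n2 + 1)))] p = _
  rw [h]
  unfold pk
  rw [sum_NN]
  apply Finset.sum_congr rfl
  intro k hk
  apply Finset.sum_congr rfl
  intro j hj
  apply Finset.sum_congr rfl
  intro i hi
  rw [lx_at n1 n2 n3 i j k p (Finset.mem_range.mp hi) (Finset.mem_range.mp hj)
    (Finset.mem_range.mp hk)]
  have e3 : (2 ^ W) ^ (i + (n1 + 1) * j + (n1 + 1) * (n2 + 1) * k)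
      = (2 ^ W) ^ i * ((2 ^ W) ^ (n1 + 1)) ^ j * ((2 ^ W) ^ ((n1 + 1) * (n2 + 1))) ^ k := by
    rw [← pow_mul (2 ^ W) (n1 + 1) j, ← pow_mul (2 ^ W) ((n1 + 1) * (n2 + 1)) k, ← pow_add,
      ← pow_add]
  rw [pow_mul 2 W (n1 + 1), pow_mul 2 W ((n1 + 1) * (n2 + 1)), e3]
  simp

theorem lx_real (n1 n2 n3 : ℕ) (p : MvPolynomial (Fin 3) ℕ)
    (h0 : degreeOf 0 p ≤ n1) (h1 : degreeOf 1 p ≤ n2) (h2 : degreeOf 2 p ≤ n3) (x y z : ℝ) :
    aeval ![x, y, z] p = Vg n1 n2 n3 (fun i => x ^ i) (fun j => y ^ j) (fun k => z ^ k)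
      (fun l => (lx n1 n2 n3 p l : ℝ)) := by
  rw [aeval_triple p n1 n2 n3 h0 h1 h2 x y z]
  unfold Vg
  apply Finset.sum_congr rfl
  intro k hk
  apply Finset.sum_congr rfl
  intro j hj
  apply Finset.sum_congr rfl
  intro i hi
  beta_reduce
  rw [lx_at n1 n2 n3 i j k p (Finset.mem_range.mp hi) (Finset.mem_range.mp hj)
    (Finset.mem_range.mp hk)]
  ring

/-- each coefficient is at most the value at one -/
theorem coeff_le_one (p : MvPolynomial (Fin 3) ℕ) (d : Fin 3 →₀ ℕ) :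
    coeff d p ≤ eval ![1, 1, 1] p := by
  by_cases h : d ∈ p.support
  · rw [eval_eq']
    have e : ∀ d : Fin 3 →₀ ℕ, ∏ i : Fin 3, (![1, 1, 1] : Fin 3 → ℕ) i ^ d i = 1 := by
      intro d
      rw [Fin.prod_univ_three]
      simp
    have := Finset.single_le_sum (f := fun d => coeff d p * ∏ i : Fin 3,
      (![1, 1, 1] : Fin 3 → ℕ) i ^ d i) (fun i _ => Nat.zero_le _) h
    simp only [e, mul_one] at this ⊢
    exact this
  · rw [notMem_support_iff.mp h]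
    exact Nat.zero_le _

theorem lx_le (n1 n2 n3 : ℕ) (p : MvPolynomial (Fin 3) ℕ) (l : ℕ) :
    lx n1 n2 n3 p l ≤ eval ![1, 1, 1] p := by
  unfold lx
  split_ifs
  · exact coeff_le_one _ _
  · exact Nat.zero_le _

theorem lx_zero (n1 n2 n3 : ℕ) (p : MvPolynomial (Fin 3) ℕ) (l : ℕ) (hl : NN n1 n2 n3 ≤ l) :
    lx n1 n2 n3 p l = 0 := by
  unfold lx
  rw [if_neg (by omega)]

end Pool.Agent.BPK
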