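import Pool.Agent.BPK.Ex

/-!
The check for polynomials given by expressions.
-/

namespace Pool.Agent.BPK

open MvPolynomial

/-- Repacking with narrow lanes. -/
noncomputable def tailR (W0 W1 e n1 n2 n3 s X : ℕ) (k : KC → ℕ → Bool) : Bool :=
  kcF W1 n1 n2 n3 (fun K1 =>
    fcB (Nat.sub (Nat.pow 2 W0) 1) (fun M0 =>
    fcB (Nat.sub (Nat.pow 2 (Nat.sub (Nat.add (Nat.sub W0 2) e) s)) (Nat.pow 2 (Nat.sub W1 2)))
    (fun δ =>
    fcB (Nat.pow 2 (Nat.sub W1 1)) (fun H =>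
    fcB (Nat.mul (Nat.mul (Nat.succ n1) (Nat.succ n2)) (Nat.succ n3)) (fun N =>
      andb (Nat.ble (Nat.add s W1) (Nat.add W0 e))
        (rpk M0 W0 e s δ W1 H (fun Y => k K1 Y) N X 0 0))))))

theorem tailR_spec (W0 W1 e : ℕ) (hW0 : 2 ≤ W0) (hW1 : 2 ≤ W1) (n1 n2 n3 s : ℕ) (x : ℕ → ℕ)
    (hx : ∀ l, x l < 2 ^ (W0 - 1)) (k : KC → ℕ → Bool)
    (h : tailR W0 W1 e n1 n2 n3 s (pk W0 (NN n1 n2 n3) x) k = true) :
    ∃ y : ℕ → ℕ, k (kc W1 n1 n2 n3) (pk W1 (NN n1 n2 n3) y) = true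
      ∧ (∀ l, y l < 2 ^ (W1 - 1)) ∧ (∀ l, NN n1 n2 n3 ≤ l → y l = 0)
      ∧ (∀ q : ℝ × ℝ × ℝ, Cube q → ((2 ^ (W1 - 2) + 1 : ℕ) : ℝ) ≤ VN n1 n2 n3 y q →
        ((2 ^ (W0 - 2) : ℕ) : ℝ) < VN n1 n2 n3 x q) := by
  have h1 := h
  unfold tailR at h1
  simp only [fcB_eq, kcF_eq] at h1
  obtain ⟨h5, h6⟩ := andb_true h1
  have h5' : s + W1 ≤ W0 + e := Nat.le_of_ble_eq_true h5
  have hxx : ∀ l, x l < 2 ^ W0 := by
    intro l
    have h7 := hx l
    have h8 : 2 ^ (W0 - 1) ≤ 2 ^ W0 := Nat.pow_le_pow_right (by norm_num) (by omega)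
    omega
  set N := NN n1 n2 n3 with hN
  set δ := 2 ^ (W0 - 2 + e - s) - 2 ^ (W1 - 2) with hδ
  have h6' : rpk (2 ^ W0 - 1) W0 e s δ W1 (2 ^ (W1 - 1)) (fun Y => k (kc W1 n1 n2 n3) Y) N
      (pk W0 N x) 0 0 = true := h6
  have e0 : pk W0 N x = pk W0 N (fun l => x (0 + l)) := by
    apply pk_congr
    intro l _
    rw [zero_add]
  have e1 : pk W1 0 (fun l => x l * 2 ^ e / 2 ^ s - δ) = 0 := pk_zero _ _
  have h7 := rpk_spec W0 e s δ W1 (2 ^ (W1 - 1)) (fun Y => k (kc W1 n1 n2 n3) Y) x hxx N 0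
  rw [← e0, e1, mul_zero] at h7
  obtain ⟨h8, h9⟩ := h7 h6'
  rw [zero_add] at h9
  have hH : 0 < 2 ^ (W1 - 1) := by positivity
  refine ⟨fun l => if l < N then x l * 2 ^ e / 2 ^ s - δ else 0, ?_, ?_, ?_, ?_⟩
  · have e2 : pk W1 N (fun l => if l < N then x l * 2 ^ e / 2 ^ s - δ else 0)
        = pk W1 N (fun l => x l * 2 ^ e / 2 ^ s - δ) := by
      apply pk_congr
      intro l hl
      rw [if_pos hl]
    rw [e2]
    exact h9
  · intro l
    by_cases hl : l < N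
    · simp only [if_pos hl]
      exact (h8 l (Nat.zero_le _) (by omega)).2
    · simp only [if_neg hl]
      exact hH
  · intro l hl
    have : ¬ l < N := by omega
    simp only [if_neg this]
  · intro q hq h10
    have h11 : VN n1 n2 n3 (fun l => if l < N then x l * 2 ^ e / 2 ^ s - δ else 0) q
        ≤ VN n1 n2 n3 x q * (2 ^ e / 2 ^ s) - δ := by
      unfold VN
      rw [← V_scale]
      apply V_mono _ _ _ _ _ _ _ _ hq.1 hq.2.1 hq.2.2
      intro l hl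
      have hl' : l < N := hl
      simp only [if_pos hl']
      have h12 := (h8 l (Nat.zero_le _) (by omega)).1
      rw [Nat.cast_sub h12]
      have h13 : ((x l * 2 ^ e / 2 ^ s : ℕ) : ℝ) ≤ ((x l * 2 ^ e : ℕ) : ℝ) / ((2 ^ s : ℕ) : ℝ) :=
        Nat.cast_div_le
      push_cast at h13
      have h14 : (x l : ℝ) * (2 ^ e / 2 ^ s) = (x l : ℝ) * 2 ^ e / 2 ^ s := by ring
      linarith
    have hδ' : (δ : ℝ) = 2 ^ (W0 - 2 + e - s) - 2 ^ (W1 - 2) := by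
      have h15 : 2 ^ (W1 - 2) ≤ 2 ^ (W0 - 2 + e - s) :=
        Nat.pow_le_pow_right (by norm_num) (by omega)
      rw [hδ, Nat.cast_sub h15]
      push_cast
      ring
    have h16 : (2 : ℝ) ^ (W0 - 2) * 2 ^ e = 2 ^ (W0 - 2 + e - s) * 2 ^ s := by
      rw [← pow_add, ← pow_add]
      congr 1
      omega
    have h17 : (0 : ℝ) < 2 ^ s := by positivity
    have h18 : (2 : ℝ) ^ (W0 - 2 + e - s) + 1 ≤ VN n1 n2 n3 x q * (2 ^ e / 2 ^ s) := by
      push_cast at h10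
      linarith
    have h19 : ((2 : ℝ) ^ (W0 - 2 + e - s) + 1) * 2 ^ s ≤ VN n1 n2 n3 x q * 2 ^ e := by
      have h20 := mul_le_mul_of_nonneg_right h18 (show (0 : ℝ) ≤ 2 ^ s by positivity)
      have h21 : VN n1 n2 n3 x q * (2 ^ e / 2 ^ s) * 2 ^ s
          = VN n1 n2 n3 x q * 2 ^ e := by
        field_simp
      linarith
    push_cast
    have h22 : (2 : ℝ) ^ (W0 - 2) * 2 ^ e < VN n1 n2 n3 x q * 2 ^ e := by
      rw [h16]
      linarith
    exact lt_of_mul_lt_mul_right h22 (by positivity)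

/-- Evaluation in the kernel. -/
noncomputable def pnF (x y z : ℕ) (e : Ex) : (ℕ → ℕ → Bool) → Bool :=
  Ex.rec (motive := fun _ => (ℕ → ℕ → Bool) → Bool)
    (fun p n k => fcB p (fun p' => fcB n (fun n' => k p' n')))
    (fun k => k x 0) (fun k => k y 0) (fun k => k z 0)
    (fun _ _ iha ihb k => iha (fun a1 a2 => ihb (fun b1 b2 =>
      fcB (Nat.add a1 b1) (fun c1 => fcB (Nat.add a2 b2) (fun c2 => k c1 c2)))))
    (fun _ _ iha ihb k => iha (fun a1 a2 => ihb (fun b1 b2 =>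
      fcB (Nat.add (Nat.mul a1 b1) (Nat.mul a2 b2)) (fun c1 =>
        fcB (Nat.add (Nat.mul a1 b2) (Nat.mul a2 b1)) (fun c2 => k c1 c2)))))
    (fun _ iha k => iha (fun a1 a2 => k a2 a1)) e

theorem pnF_eq (x y z : ℕ) (e : Ex) : ∀ k : ℕ → ℕ → Bool,
    pnF x y z e k = k (Ex.pn x y z e).1 (Ex.pn x y z e).2 := by
  induction e with
  | c p n =>
    intro k
    change fcB p (fun p' => fcB n (fun n' => k p' n')) = _
    rw [fcB_eq, fcB_eq]
    rfl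
  | u => intro k; rfl
  | v => intro k; rfl
  | t => intro k; rfl
  | add a b iha ihb =>
    intro k
    change pnF x y z a (fun a1 a2 => pnF x y z b (fun b1 b2 =>
      fcB (Nat.add a1 b1) (fun c1 => fcB (Nat.add a2 b2) (fun c2 => k c1 c2)))) = _
    rw [iha, ihb, fcB_eq, fcB_eq]
    rfl
  | mul a b iha ihb =>
    intro k
    change pnF x y z a (fun a1 a2 => pnF x y z b (fun b1 b2 =>
      fcB (Nat.add (Nat.mul a1 b1) (Nat.mul a2 b2)) (fun c1 =>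
        fcB (Nat.add (Nat.mul a1 b2) (Nat.mul a2 b1)) (fun c2 => k c1 c2)))) = _
    rw [iha, ihb, fcB_eq, fcB_eq]
    rfl
  | neg a iha =>
    intro k
    change pnF x y z a (fun a1 a2 => k a2 a1) = _
    rw [iha]
    rfl

/-- maximum -/
noncomputable def mxN (a b : ℕ) : ℕ := Bool.rec (motive := fun _ => ℕ) b a (Nat.ble b a)

theorem mxN_eq (a b : ℕ) : mxN a b = max a b := by
  unfold mxN
  cases h : Nat.ble b a with
  | true =>
    have : b ≤ a := Nat.le_of_ble_eq_true h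
    exact (max_eq_left this).symm
  | false =>
    have : ¬ b ≤ a := by
      intro h1
      rw [Nat.ble_eq_true_of_le h1] at h
      exact absurd h (by simp)
    have h2 : a ≤ b := by omega
    exact (max_eq_right h2).symm

/-- Degrees in the kernel. -/
noncomputable def dgF (e : Ex) : (ℕ → ℕ → ℕ → Bool) → Bool :=
  Ex.rec (motive := fun _ => (ℕ → ℕ → ℕ → Bool) → Bool)
    (fun _ _ k => k 0 0 0) (fun k => k 1 0 0) (fun k => k 0 1 0) (fun k => k 0 0 1)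
    (fun _ _ iha ihb k => iha (fun a1 a2 a3 => ihb (fun b1 b2 b3 =>
      fcB (mxN a1 b1) (fun c1 => fcB (mxN a2 b2) (fun c2 => fcB (mxN a3 b3) (fun c3 =>
        k c1 c2 c3))))))
    (fun _ _ iha ihb k => iha (fun a1 a2 a3 => ihb (fun b1 b2 b3 =>
      fcB (Nat.add a1 b1) (fun c1 => fcB (Nat.add a2 b2) (fun c2 => fcB (Nat.add a3 b3)
        (fun c3 => k c1 c2 c3))))))
    (fun _ iha k => iha (fun a1 a2 a3 => k a1 a2 a3)) e

theorem dgF_eq (e : Ex) : ∀ k : ℕ → ℕ → ℕ → Bool,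
    dgF e k = k (Ex.dg e).1 (Ex.dg e).2.1 (Ex.dg e).2.2 := by
  induction e with
  | c p n => intro k; rfl
  | u => intro k; rfl
  | v => intro k; rfl
  | t => intro k; rfl
  | add a b iha ihb =>
    intro k
    change dgF a (fun a1 a2 a3 => dgF b (fun b1 b2 b3 =>
      fcB (mxN a1 b1) (fun c1 => fcB (mxN a2 b2) (fun c2 => fcB (mxN a3 b3) (fun c3 =>
        k c1 c2 c3))))) = _
    rw [iha, ihb, fcB_eq, fcB_eq, fcB_eq, mxN_eq, mxN_eq, mxN_eq]
    rfl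
  | mul a b iha ihb =>
    intro k
    change dgF a (fun a1 a2 a3 => dgF b (fun b1 b2 b3 =>
      fcB (Nat.add a1 b1) (fun c1 => fcB (Nat.add a2 b2) (fun c2 => fcB (Nat.add a3 b3)
        (fun c3 => k c1 c2 c3))))) = _
    rw [iha, ihb, fcB_eq, fcB_eq, fcB_eq]
    rfl
  | neg a iha =>
    intro k
    change dgF a (fun a1 a2 a3 => k a1 a2 a3) = _
    rw [iha]
    rfl

/-- sum of a list -/
noncomputable def sumL (L : List ℕ) : ℕ :=
  List.rec (motive := fun _ => ℕ) 0 (fun a _ ih => Nat.add a ih) L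

theorem sumL_rows (R : List (List ℕ)) : sumL (R.map (fun r => pvw 1 r 0))
    = (R.map (fun r => ∑ j ∈ Finset.range r.length, tau r j)).sum := by
  induction R with
  | nil => rfl
  | cons r R ih =>
    change pvw 1 r 0 + sumL (R.map (fun r => pvw 1 r 0)) = _
    rw [ih, pvw_eq, List.map_cons, List.sum_cons]
    simp

/-- An expression with degree bounds. -/
structure EIt where
  n1 : ℕ
  n2 : ℕ
  n3 : ℕ
  e : Ex

/-- The transformation of one part to the Bernstein form. -/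
noncomputable def conv3 (K : KC) (P1 P2 P3 : List ℕ) (P : ℕ) (k : ℕ → Bool) : Bool :=
  conv K.s1 K.E1 (fun X1 => conv K.s2 K.E2 (fun X2 => conv K.s3 K.E3 k P3 X2 0) P2 X1 0) P1 P 0

/-- The initial data of one expression. -/
noncomputable def initE (W0 W1 e : ℕ) (b : Box) (p : EIt) (s : ℕ) (k : KC → ℕ → Bool) : Bool :=
  dgF p.e (fun d1 d2 d3 => andb (Nat.ble d1 p.n1) (andb (Nat.ble d2 p.n2)
    (andb (Nat.ble d3 p.n3) (pnF 1 1 1 p.e (fun o1 o2 =>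
      fcB (Nat.pow 2 (Nat.sub W0 2)) (fun OFF =>
      mkP b.q1 b.l1 b.h1 1 (Nat.succ p.n1) 0 (fun S1 =>
      mkP b.q2 b.l2 b.h2 1 (Nat.succ p.n2) 0 (fun S2 =>
      mkP b.q3 b.l3 b.h3 1 (Nat.succ p.n3) 0 (fun S3 =>
      fcB (Nat.mul (Nat.mul (sumL S1) (sumL S2)) (sumL S3)) (fun T =>
      andb (Nat.ble 1 T) (andb (Nat.ble (Nat.succ (Nat.mul o1 T)) OFF)
        (andb (Nat.ble (Nat.mul o2 T) OFF)
        (kcF W0 p.n1 p.n2 p.n3 (fun K =>
          fcB (Nat.pow 2 W0) (fun B1 => fcB (Nat.pow 2 K.s2) (fun B2 =>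
          fcB (Nat.pow 2 K.s3) (fun B3 =>
          mkP b.q1 b.l1 b.h1 B1 (Nat.succ p.n1) 0 (fun P1 =>
          mkP b.q2 b.l2 b.h2 B2 (Nat.succ p.n2) 0 (fun P2 =>
          mkP b.q3 b.l3 b.h3 B3 (Nat.succ p.n3) 0 (fun P3 =>
          pnF B1 B2 B3 p.e (fun P N =>
          conv3 K P1 P2 P3 P (fun XP => conv3 K P1 P2 P3 N (fun XN =>
          fcB (Nat.sub (Nat.add (Nat.mul OFF K.O) XP) XN) (fun X =>
            tailR W0 W1 e p.n1 p.n2 p.n3 s X k))))))))))))))))))))))))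

theorem tau_le (r : List ℕ) (i : ℕ) : tau r i ≤ ∑ j ∈ Finset.range r.length, tau r j := by
  by_cases h : i < r.length
  · exact Finset.single_le_sum (f := fun j => tau r j) (fun _ _ => Nat.zero_le _)
      (Finset.mem_range.mpr h)
  · have : tau r i = 0 := by
      unfold tau
      rw [List.getD_eq_default _ _ (by omega), mul_zero]
    rw [this]
    exact Nat.zero_le _

theorem cvL_le (s n B : ℕ) (R : List (List ℕ)) : ∀ (x : ℕ → ℕ), (∀ l, x l ≤ B) → ∀ l,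
    cvL s n R x l ≤ B * (R.map (fun r => ∑ j ∈ Finset.range r.length, tau r j)).sum := by
  induction R with
  | nil =>
    intro x _ l
    simp [cvL]
  | cons r R ih =>
    intro x hx l
    simp only [cvL, List.map_cons, List.sum_cons]
    have h1 := ih (fun l => x (l + s)) (fun l => hx _) l
    have h2 := Nat.mul_le_mul (tau_le r (co s n l)) (hx (l - s * co s n l))
    calc tau r (co s n l) * x (l - s * co s n l) + cvL s n R (fun l => x (l + s)) l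
        ≤ (∑ j ∈ Finset.range r.length, tau r j) * B
          + B * (R.map (fun r => ∑ j ∈ Finset.range r.length, tau r j)).sum :=
          Nat.add_le_add h2 h1
      _ = _ := by ring

/-- the sum of all entries -/
def TS (R : List (List ℕ)) : ℕ := (R.map (fun r => ∑ j ∈ Finset.range r.length, tau r j)).sum

/-- truncated conversion -/
def cvT (s n N : ℕ) (R : List (List ℕ)) (x : ℕ → ℕ) : ℕ → ℕ := fun l =>
  if l < N then cvL s n R x l else 0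

theorem cvT_le (s n N B : ℕ) (R : List (List ℕ)) (x : ℕ → ℕ) (hx : ∀ l, x l ≤ B) (l : ℕ) :
    cvT s n N R x l ≤ B * TS R := by
  unfold cvT
  split_ifs
  · exact cvL_le s n B R x hx l
  · exact Nat.zero_le _

theorem cvT_zero (s n N : ℕ) (R : List (List ℕ)) (x : ℕ → ℕ) (l : ℕ) (hl : N ≤ l) :
    cvT s n N R x l = 0 := by
  unfold cvT
  rw [if_neg (by omega)]

theorem conv_specT (W s n N q : ℕ) (k : ℕ → Bool) (hN : N = s * (n + 1) * q) (hs : 0 < s)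
    (R : List (List ℕ)) (x : ℕ → ℕ) (hx : ∀ l, x l < 2 ^ W) (h0 : ∀ l, N ≤ l → x l = 0)
    (hR : ∀ r ∈ R, r.length = n + 1) :
    conv (W * s) (msk W N (c0 s n N)) k (R.map (fun r => pvw (2 ^ (W * s)) r 0)) (pk W N x) 0
      = k (pk W N (cvT s n N R x)) := by
  have h := conv_spec W s n N q k hN hs R x (fun _ => 0) hx h0 hR
  have e : pk W N (fun _ => 0) = 0 := by
    unfold pk
    simp
  rw [e] at h
  rw [h]
  congr 1
  apply pk_congr
  intro l hl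
  unfold cvT
  rw [if_pos hl]
  ring

theorem conv3_spec (W n1 n2 n3 : ℕ) (hW : 0 < W) (x : ℕ → ℕ) (B : ℕ) (R1 R2 R3 : List (List ℕ))
    (hR1 : ∀ r ∈ R1, r.length = n1 + 1) (hR2 : ∀ r ∈ R2, r.length = n2 + 1)
    (hR3 : ∀ r ∈ R3, r.length = n3 + 1) (hT : 1 ≤ TS R1 * TS R2 * TS R3)
    (hx : ∀ l, x l ≤ B) (h0 : ∀ l, NN n1 n2 n3 ≤ l → x l = 0)
    (hB : B * (TS R1 * TS R2 * TS R3) < 2 ^ W) (k : ℕ → Bool) :
    conv3 (kc W n1 n2 n3) (R1.map (fun r => pvw (2 ^ W) r 0))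
      (R2.map (fun r => pvw (2 ^ (W * (n1 + 1))) r 0))
      (R3.map (fun r => pvw (2 ^ (W * ((n1 + 1) * (n2 + 1)))) r 0)) (pk W (NN n1 n2 n3) x) k
      = k (pk W (NN n1 n2 n3) (cvT ((n1 + 1) * (n2 + 1)) n3 (NN n1 n2 n3) R3
        (cvT (n1 + 1) n2 (NN n1 n2 n3) R2 (cvT 1 n1 (NN n1 n2 n3) R1 x)))) := by
  have hK := kc_ok W n1 n2 n3 hW
  have t1 : 1 ≤ TS R1 := by
    rcases Nat.eq_zero_or_pos (TS R1) with h | h
    · rw [h] at hT
      simp at hT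
    · exact h
  have t2 : 1 ≤ TS R2 := by
    rcases Nat.eq_zero_or_pos (TS R2) with h | h
    · rw [h] at hT
      simp at hT
    · exact h
  have t3 : 1 ≤ TS R3 := by
    rcases Nat.eq_zero_or_pos (TS R3) with h | h
    · rw [h] at hT
      simp at hT
    · exact h
  have b0 : B ≤ B * (TS R1 * TS R2 * TS R3) := Nat.le_mul_of_pos_right _ hT
  have b1 : B * TS R1 ≤ B * (TS R1 * TS R2 * TS R3) := by
    have : B * (TS R1 * TS R2 * TS R3) = B * TS R1 * (TS R2 * TS R3) := by ring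
    rw [this]
    exact Nat.le_mul_of_pos_right _ (Nat.mul_pos t2 t3)
  have b2 : B * TS R1 * TS R2 ≤ B * (TS R1 * TS R2 * TS R3) := by
    have : B * (TS R1 * TS R2 * TS R3) = B * TS R1 * TS R2 * TS R3 := by ring
    rw [this]
    exact Nat.le_mul_of_pos_right _ t3
  set N := NN n1 n2 n3 with hN
  have x1 : ∀ l, cvT 1 n1 N R1 x l ≤ B * TS R1 := cvT_le _ _ _ _ _ _ hx
  have x2 : ∀ l, cvT (n1 + 1) n2 N R2 (cvT 1 n1 N R1 x) l ≤ B * TS R1 * TS R2 :=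
    cvT_le _ _ _ _ _ _ x1
  unfold conv3
  rw [hK.s1, hK.E1, hK.s2, hK.E2, hK.s3, hK.E3]
  have e1 : (R1.map (fun r => pvw (2 ^ W) r 0)) = R1.map (fun r => pvw (2 ^ (W * 1)) r 0) := by
    rw [mul_one]
  rw [e1]
  rw [conv_specT W 1 n1 N ((n2 + 1) * (n3 + 1)) _ (by rw [hN]; unfold NN; ring) (by norm_num) R1 x
    (fun l => by have := hx l; omega) h0 hR1]
  rw [conv_specT W (n1 + 1) n2 N (n3 + 1) _ (by rw [hN]; unfold NN; ring) (by positivity) R2 _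
    (fun l => by have := x1 l; omega) (cvT_zero _ _ _ _ _) hR2]
  rw [conv_specT W ((n1 + 1) * (n2 + 1)) n3 N 1 _ (by rw [hN]; unfold NN; ring) (by positivity) R3
    _ (fun l => by have := x2 l; omega) (cvT_zero _ _ _ _ _) hR3]

theorem Vg_congr (n1 n2 n3 : ℕ) (w1 w2 w3 : ℕ → ℝ) (b c : ℕ → ℝ)
    (h : ∀ l, l < NN n1 n2 n3 → b l = c l) :
    Vg n1 n2 n3 w1 w2 w3 b = Vg n1 n2 n3 w1 w2 w3 c := by
  unfold Vg
  apply Finset.sum_congr rfl
  intro k hk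
  apply Finset.sum_congr rfl
  intro j hj
  apply Finset.sum_congr rfl
  intro i hi
  rw [h _ (idx_lt n1 n2 n3 i j k (Finset.mem_range.mp hi) (Finset.mem_range.mp hj)
    (Finset.mem_range.mp hk))]

/-- The value of the converted array. -/
theorem V_conv3 (n1 n2 n3 : ℕ) (q1 l1 h1 q2 l2 h2 q3 l3 h3 : ℕ) (x : ℕ → ℕ)
    (a b c U V' T : ℝ)
    (e1 : (l1 : ℝ) * (1 - a) + h1 * a = q1 * U) (e2 : (l2 : ℝ) * (1 - b) + h2 * b = q2 * V')
    (e3 : (l3 : ℝ) * (1 - c) + h3 * c = q3 * T) :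
    V n1 n2 n3 (fun l => (cvT ((n1 + 1) * (n2 + 1)) n3 (NN n1 n2 n3) (rows q3 l3 h3 (n3 + 1) 0)
        (cvT (n1 + 1) n2 (NN n1 n2 n3) (rows q2 l2 h2 (n2 + 1) 0)
          (cvT 1 n1 (NN n1 n2 n3) (rows q1 l1 h1 (n1 + 1) 0) x)) l : ℝ)) a b c
      = ((n3.factorial : ℝ) * (q3 : ℝ) ^ n3) * (((n2.factorial : ℝ) * (q2 : ℝ) ^ n2)
        * (((n1.factorial : ℝ) * (q1 : ℝ) ^ n1)
        * Vg n1 n2 n3 (fun i => U ^ i) (fun j => V' ^ j) (fun k => T ^ k)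
          (fun l => (x l : ℝ)))) := by
  rw [V_eq_Vg]
  have c3 : ∀ (w1 w2 w3 : ℕ → ℝ) (y : ℕ → ℕ), Vg n1 n2 n3 w1 w2 w3
      (fun l => (cvT ((n1 + 1) * (n2 + 1)) n3 (NN n1 n2 n3) (rows q3 l3 h3 (n3 + 1) 0) y l : ℝ))
      = Vg n1 n2 n3 w1 w2 w3
        (fun l => (cvL ((n1 + 1) * (n2 + 1)) n3 (rows q3 l3 h3 (n3 + 1) 0) y l : ℝ)) := by
    intro w1 w2 w3 y
    apply Vg_congr
    intro l hl
    unfold cvT
    rw [if_pos hl]
  have c2 : ∀ (w1 w2 w3 : ℕ → ℝ) (y : ℕ → ℕ), Vg n1 n2 n3 w1 w2 w3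
      (fun l => (cvT (n1 + 1) n2 (NN n1 n2 n3) (rows q2 l2 h2 (n2 + 1) 0) y l : ℝ))
      = Vg n1 n2 n3 w1 w2 w3
        (fun l => (cvL (n1 + 1) n2 (rows q2 l2 h2 (n2 + 1) 0) y l : ℝ)) := by
    intro w1 w2 w3 y
    apply Vg_congr
    intro l hl
    unfold cvT
    rw [if_pos hl]
  have c1 : ∀ (w1 w2 w3 : ℕ → ℝ) (y : ℕ → ℕ), Vg n1 n2 n3 w1 w2 w3
      (fun l => (cvT 1 n1 (NN n1 n2 n3) (rows q1 l1 h1 (n1 + 1) 0) y l : ℝ))
      = Vg n1 n2 n3 w1 w2 w3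
        (fun l => (cvL 1 n1 (rows q1 l1 h1 (n1 + 1) 0) y l : ℝ)) := by
    intro w1 w2 w3 y
    apply Vg_congr
    intro l hl
    unfold cvT
    rw [if_pos hl]
  rw [c3, Vg_cv3 n1 n2 n3 q3 l3 h3 c T _ _ _ e3, c2, Vg_cv2 n1 n2 n3 q2 l2 h2 b V' _ _ _ e2, c1,
    Vg_cv1 n1 n2 n3 q1 l1 h1 a U _ _ _ e1]

end Pool.Agent.BPK
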