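import Pool.Agent.BPK.ExCheck

/-!
The main theorem for polynomials given by expressions.
-/

namespace Pool.Agent.BPK

open MvPolynomial

theorem initE_spec (W0 W1 e : ℕ) (hW0 : 2 ≤ W0) (hW1 : 2 ≤ W1) (b : Box) (p : EIt) (s : ℕ)
    (k : KC → ℕ → Bool) (h : initE W0 W1 e b p s k = true) :
    ∃ y : ℕ → ℕ, k (kc W1 p.n1 p.n2 p.n3) (pk W1 (NN p.n1 p.n2 p.n3) y) = true
      ∧ (∀ l, y l < 2 ^ (W1 - 1)) ∧ (∀ l, NN p.n1 p.n2 p.n3 ≤ l → y l = 0)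
      ∧ (∀ (ξ η ζ U V' T : ℝ), Cube (ξ, η, ζ) →
        (b.l1 : ℝ) * (1 - ξ) + b.h1 * ξ = b.q1 * U →
        (b.l2 : ℝ) * (1 - η) + b.h2 * η = b.q2 * V' →
        (b.l3 : ℝ) * (1 - ζ) + b.h3 * ζ = b.q3 * T →
        ((2 ^ (W1 - 2) + 1 : ℕ) : ℝ) ≤ VN p.n1 p.n2 p.n3 y (ξ, η, ζ) →
        0 < ((p.n3.factorial : ℝ) * (b.q3 : ℝ) ^ p.n3) * (((p.n2.factorial : ℝ)
          * (b.q2 : ℝ) ^ p.n2) * (((p.n1.factorial : ℝ) * (b.q1 : ℝ) ^ p.n1)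
            * Ex.evR U V' T p.e))) := by
  unfold initE at h
  simp only [fcB_eq, mkP_eq, kcF_eq, pnF_eq, dgF_eq] at h
  obtain ⟨d1, h⟩ := andb_true h
  obtain ⟨d2, h⟩ := andb_true h
  obtain ⟨d3, h⟩ := andb_true h
  obtain ⟨c1, h⟩ := andb_true h
  obtain ⟨c2, h⟩ := andb_true h
  obtain ⟨c3, h⟩ := andb_true h
  have d1' : (Ex.dg p.e).1 ≤ p.n1 := Nat.le_of_ble_eq_true d1
  have d2' : (Ex.dg p.e).2.1 ≤ p.n2 := Nat.le_of_ble_eq_true d2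
  have d3' : (Ex.dg p.e).2.2 ≤ p.n3 := Nat.le_of_ble_eq_true d3
  clear d1 d2 d3
  set R1 := rows b.q1 b.l1 b.h1 (p.n1 + 1) 0 with hR1
  set R2 := rows b.q2 b.l2 b.h2 (p.n2 + 1) 0 with hR2
  set R3 := rows b.q3 b.l3 b.h3 (p.n3 + 1) 0 with hR3
  have r1 : ∀ r ∈ R1, r.length = p.n1 + 1 := rows_length _ _ _ _ _ _ rfl
  have r2 : ∀ r ∈ R2, r.length = p.n2 + 1 := rows_length _ _ _ _ _ _ rfl
  have r3 : ∀ r ∈ R3, r.length = p.n3 + 1 := rows_length _ _ _ _ _ _ rfl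
  have sT : Nat.mul (Nat.mul (sumL (R1.map (fun r => pvw 1 r 0)))
      (sumL (R2.map (fun r => pvw 1 r 0)))) (sumL (R3.map (fun r => pvw 1 r 0)))
      = TS R1 * TS R2 * TS R3 := by
    rw [sumL_rows, sumL_rows, sumL_rows]
    rfl
  have c1' : 1 ≤ TS R1 * TS R2 * TS R3 := by
    have := Nat.le_of_ble_eq_true c1
    rw [sT] at this
    exact this
  have c2' : (Ex.pn 1 1 1 p.e).1 * (TS R1 * TS R2 * TS R3) + 1 ≤ 2 ^ (W0 - 2) := by
    have := Nat.le_of_ble_eq_true c2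
    rw [sT] at this
    exact this
  have c3' : (Ex.pn 1 1 1 p.e).2 * (TS R1 * TS R2 * TS R3) ≤ 2 ^ (W0 - 2) := by
    have := Nat.le_of_ble_eq_true c3
    rw [sT] at this
    exact this
  clear c1 c2 c3
  rw [Ex.pn_eq] at c2' c3'
  simp only at c2' c3'
  have g0 := Ex.degreeOf_le p.e 0
  have g1 := Ex.degreeOf_le p.e 1
  have g2 := Ex.degreeOf_le p.e 2
  have a0 : degreeOf 0 (Ex.pp p.e).1 ≤ p.n1 := g0.1.trans d1'
  have a0' : degreeOf 0 (Ex.pp p.e).2 ≤ p.n1 := g0.2.trans d1'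
  have a1 : degreeOf 1 (Ex.pp p.e).1 ≤ p.n2 := g1.1.trans d2'
  have a1' : degreeOf 1 (Ex.pp p.e).2 ≤ p.n2 := g1.2.trans d2'
  have a2 : degreeOf 2 (Ex.pp p.e).1 ≤ p.n3 := g2.1.trans d3'
  have a2' : degreeOf 2 (Ex.pp p.e).2 ≤ p.n3 := g2.2.trans d3'
  have hK := kc_ok W0 p.n1 p.n2 p.n3 (by omega)
  have h40 : 2 ^ (W0 - 2) < 2 ^ W0 := Nat.pow_lt_pow_right (by norm_num) (by omega)
  set xP := lx p.n1 p.n2 p.n3 (Ex.pp p.e).1 with hxP
  set xN := lx p.n1 p.n2 p.n3 (Ex.pp p.e).2 with hxN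
  set N := NN p.n1 p.n2 p.n3 with hN
  -- the packed evaluation
  have k1 : (Ex.pn (Nat.pow 2 W0) (Nat.pow 2 (kc W0 p.n1 p.n2 p.n3).s2)
      (Nat.pow 2 (kc W0 p.n1 p.n2 p.n3).s3) p.e) = (pk W0 N xP, pk W0 N xN) := by
    rw [hK.s2, hK.s3, Ex.pn_eq]
    have u1 := lx_pk W0 p.n1 p.n2 p.n3 (Ex.pp p.e).1 a0 a1 a2
    have u2 := lx_pk W0 p.n1 p.n2 p.n3 (Ex.pp p.e).2 a0' a1' a2'
    rw [← u1, ← u2]
    rfl
  rw [k1] at h
  simp only at h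
  have m1 : (R1.map (fun r => pvw (Nat.pow 2 W0) r 0)) = R1.map (fun r => pvw (2 ^ W0) r 0) := rfl
  have m2 : (R2.map (fun r => pvw (Nat.pow 2 (kc W0 p.n1 p.n2 p.n3).s2) r 0))
      = R2.map (fun r => pvw (2 ^ (W0 * (p.n1 + 1))) r 0) := by
    rw [hK.s2]
    rfl
  have m3 : (R3.map (fun r => pvw (Nat.pow 2 (kc W0 p.n1 p.n2 p.n3).s3) r 0))
      = R3.map (fun r => pvw (2 ^ (W0 * ((p.n1 + 1) * (p.n2 + 1)))) r 0) := by
    rw [hK.s3]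
    rfl
  rw [m1, m2, m3] at h
  have bP : ∀ l, xP l ≤ eval ![1, 1, 1] (Ex.pp p.e).1 := fun l => lx_le _ _ _ _ _
  have bN : ∀ l, xN l ≤ eval ![1, 1, 1] (Ex.pp p.e).2 := fun l => lx_le _ _ _ _ _
  rw [conv3_spec W0 p.n1 p.n2 p.n3 (by omega) xP _ R1 R2 R3 r1 r2 r3 c1' bP
    (lx_zero _ _ _ _) (by omega)] at h
  rw [conv3_spec W0 p.n1 p.n2 p.n3 (by omega) xN _ R1 R2 R3 r1 r2 r3 c1' bN
    (lx_zero _ _ _ _) (by omega)] at h
  set zP := cvT ((p.n1 + 1) * (p.n2 + 1)) p.n3 N R3 (cvT (p.n1 + 1) p.n2 N R2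
    (cvT 1 p.n1 N R1 xP)) with hzP
  set zN := cvT ((p.n1 + 1) * (p.n2 + 1)) p.n3 N R3 (cvT (p.n1 + 1) p.n2 N R2
    (cvT 1 p.n1 N R1 xN)) with hzN
  have bzP : ∀ l, zP l < 2 ^ (W0 - 2) := by
    intro l
    have := cvT_le ((p.n1 + 1) * (p.n2 + 1)) p.n3 N _ R3 _ (cvT_le (p.n1 + 1) p.n2 N _ R2 _
      (cvT_le 1 p.n1 N _ R1 xP bP)) l
    have e : eval ![1, 1, 1] (Ex.pp p.e).1 * TS R1 * TS R2 * TS R3
        = eval ![1, 1, 1] (Ex.pp p.e).1 * (TS R1 * TS R2 * TS R3) := by ring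
    rw [e] at this
    exact lt_of_le_of_lt this (by omega)
  have bzN : ∀ l, zN l ≤ 2 ^ (W0 - 2) := by
    intro l
    have := cvT_le ((p.n1 + 1) * (p.n2 + 1)) p.n3 N _ R3 _ (cvT_le (p.n1 + 1) p.n2 N _ R2 _
      (cvT_le 1 p.n1 N _ R1 xN bN)) l
    have e : eval ![1, 1, 1] (Ex.pp p.e).2 * TS R1 * TS R2 * TS R3
        = eval ![1, 1, 1] (Ex.pp p.e).2 * (TS R1 * TS R2 * TS R3) := by ring
    rw [e] at this
    exact le_trans this c3'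
  have e3 : Nat.mul (Nat.pow 2 (Nat.sub W0 2)) (kc W0 p.n1 p.n2 p.n3).O
      = pk W0 N (fun _ => 2 ^ (W0 - 2)) := by
    rw [hK.O]
    change 2 ^ (W0 - 2) * pk W0 N (fun _ => 1) = _
    rw [pk_smul]
    apply pk_congr
    intro l _
    ring
  have e4 : Nat.sub (Nat.add (Nat.mul (Nat.pow 2 (Nat.sub W0 2)) (kc W0 p.n1 p.n2 p.n3).O)
      (pk W0 N zP)) (pk W0 N zN)
      = pk W0 N (fun l => if l < N then 2 ^ (W0 - 2) + zP l - zN l else 0) := by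
    rw [e3]
    change pk W0 N (fun _ => 2 ^ (W0 - 2)) + pk W0 N zP - pk W0 N zN = _
    rw [pk_add]
    have e5 : pk W0 N (fun l => 2 ^ (W0 - 2) + zP l)
        = pk W0 N (fun l => if l < N then 2 ^ (W0 - 2) + zP l - zN l else 0) + pk W0 N zN := by
      rw [pk_add]
      apply pk_congr
      intro l hl
      rw [if_pos hl]
      have := bzN l
      omega
    rw [e5, Nat.add_sub_cancel]
  rw [e4] at h
  have hx : ∀ l, (if l < N then 2 ^ (W0 - 2) + zP l - zN l else 0) < 2 ^ (W0 - 1) := by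
    intro l
    have e : 2 ^ (W0 - 1) = 2 ^ (W0 - 2) + 2 ^ (W0 - 2) := by
      obtain ⟨V, rfl⟩ : ∃ V, W0 = V + 2 := ⟨W0 - 2, by omega⟩
      have e1 : V + 2 - 1 = V + 1 := by omega
      have e2 : V + 2 - 2 = V := by omega
      rw [e1, e2]
      ring
    have hp : 0 < 2 ^ (W0 - 2) := by positivity
    split_ifs with hl
    · have := bzP l
      omega
    · omega
  obtain ⟨y, y1, y2, y3, y4⟩ := tailR_spec W0 W1 e hW0 hW1 p.n1 p.n2 p.n3 s _ hx k h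
  refine ⟨y, y1, y2, y3, ?_⟩
  intro ξ η ζ U V' T hc q1 q2 q3 hy
  have h9 := y4 (ξ, η, ζ) hc hy
  have e6 : VN p.n1 p.n2 p.n3 (fun l => if l < N then 2 ^ (W0 - 2) + zP l - zN l else 0)
      (ξ, η, ζ) = ((2 ^ (W0 - 2) : ℕ) : ℝ)
        + V p.n1 p.n2 p.n3 (fun l => (zP l : ℝ)) ξ η ζ
        - V p.n1 p.n2 p.n3 (fun l => (zN l : ℝ)) ξ η ζ := by
    rw [← V_lin]
    unfold VN V
    apply Finset.sum_congr rfl
    intro k hk
    apply Finset.sum_congr rfl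
    intro j hj
    apply Finset.sum_congr rfl
    intro i hi
    have hl := idx_lt p.n1 p.n2 p.n3 i j k (Finset.mem_range.mp hi) (Finset.mem_range.mp hj)
      (Finset.mem_range.mp hk)
    have h7 := bzN (i + (p.n1 + 1) * j + (p.n1 + 1) * (p.n2 + 1) * k)
    beta_reduce
    rw [if_pos hl, Nat.cast_sub (by omega)]
    push_cast
    ring
  rw [e6, V_conv3 p.n1 p.n2 p.n3 b.q1 b.l1 b.h1 b.q2 b.l2 b.h2 b.q3 b.l3 b.h3 xP ξ η ζ U V' T
    q1 q2 q3, V_conv3 p.n1 p.n2 p.n3 b.q1 b.l1 b.h1 b.q2 b.l2 b.h2 b.q3 b.l3 b.h3 xN ξ η ζ U V' T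
    q1 q2 q3] at h9
  rw [Ex.evR_eq, lx_real p.n1 p.n2 p.n3 _ a0 a1 a2, lx_real p.n1 p.n2 p.n3 _ a0' a1' a2']
  linarith

/-- initial data of all expressions -/
noncomputable def initAllE (W0 W1 e : ℕ) (b : Box) (ps : List EIt) :
    List ℕ → (List KC → List ℕ → Bool) → Bool :=
  List.rec (motive := fun _ => List ℕ → (List KC → List ℕ → Bool) → Bool) (fun _ k => k [] [])
    (fun p _ ih ss k => List.rec (motive := fun _ => Bool) false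
      (fun s ss' _ => initE W0 W1 e b p s (fun K X => ih ss' (fun Ks L => k (K :: Ks) (X :: L))))
      ss) ps

/-- The check for a list of expressions. -/
noncomputable def checkE (W0 W1 e fuel : ℕ) (b : Box) (ps : List EIt) (ss : List ℕ)
    (cert : ℕ) : Bool :=
  initAllE W0 W1 e b ps ss (fun Ks L => go Ks fuel L cert (fun _ => true))

/-- The meaning of the items. -/
def SemE (W1 : ℕ) (b : Box) : List EIt → List (ℕ → ℕ) → Prop
  | [], [] => True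
  | p :: ps, y :: ys => (∀ (ξ η ζ U V' T : ℝ), Cube (ξ, η, ζ) →
        (b.l1 : ℝ) * (1 - ξ) + b.h1 * ξ = b.q1 * U →
        (b.l2 : ℝ) * (1 - η) + b.h2 * η = b.q2 * V' →
        (b.l3 : ℝ) * (1 - ζ) + b.h3 * ζ = b.q3 * T →
        ((2 ^ (W1 - 2) + 1 : ℕ) : ℝ) ≤ VN p.n1 p.n2 p.n3 y (ξ, η, ζ) →
        0 < ((p.n3.factorial : ℝ) * (b.q3 : ℝ) ^ p.n3) * (((p.n2.factorial : ℝ)
          * (b.q2 : ℝ) ^ p.n2) * (((p.n1.factorial : ℝ) * (b.q1 : ℝ) ^ p.n1)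
            * Ex.evR U V' T p.e))) ∧ SemE W1 b ps ys
  | _, _ => False

theorem initAllE_spec (W0 W1 e : ℕ) (hW0 : 2 ≤ W0) (hW1 : 2 ≤ W1) (b : Box) (ps : List EIt) :
    ∀ (ss : List ℕ) (k : List KC → List ℕ → Bool), initAllE W0 W1 e b ps ss k = true →
    ∃ Ks L ys, k Ks L = true ∧ Rel W1 (ps.map (fun p => (p.n1, p.n2, p.n3))) Ks L ys
      ∧ SemE W1 b ps ys := by
  induction ps with
  | nil =>
    intro ss k h
    exact ⟨[], [], [], h, trivial, trivial⟩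
  | cons p ps ih =>
    intro ss k h
    match ss, h with
    | [], h =>
      have h0 : false = true := h
      exact absurd h0 (by simp)
    | s :: ss, h =>
      have h1 : initE W0 W1 e b p s (fun K X => initAllE W0 W1 e b ps ss
          (fun Ks L => k (K :: Ks) (X :: L))) = true := h
      obtain ⟨y, h2, h3, h4, h5⟩ := initE_spec W0 W1 e hW0 hW1 b p s _ h1
      obtain ⟨Ks, L, ys, h6, h7, h8⟩ := ih ss _ h2
      exact ⟨_ :: Ks, _ :: L, y :: ys, h6, ⟨kc_ok W1 _ _ _ (by omega), rfl, h3, h4, h7⟩,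
        ⟨h5, h8⟩⟩

theorem hitE_pos (W1 : ℕ) (b : Box) (hq : 0 < b.q1 ∧ 0 < b.q2 ∧ 0 < b.q3)
    (ps : List EIt) (u v t x y z : ℝ) (hc : Cube (x, y, z))
    (e1 : (b.l1 : ℝ) * (1 - x) + b.h1 * x = b.q1 * u)
    (e2 : (b.l2 : ℝ) * (1 - y) + b.h2 * y = b.q2 * v)
    (e3 : (b.l3 : ℝ) * (1 - z) + b.h3 * z = b.q3 * t) :
    ∀ ys, SemE W1 b ps ys → Hit ((2 ^ (W1 - 2) + 1 : ℕ) : ℝ)
      (ps.map (fun p => (p.n1, p.n2, p.n3))) ys (x, y, z) →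
      ∃ p ∈ ps, 0 < Ex.evR u v t p.e := by
  induction ps with
  | nil =>
    intro xs _ h
    cases xs with
    | nil => exact absurd h (by simp [Hit])
    | cons a xs => exact absurd h (by simp [Hit])
  | cons p ps ih =>
    intro ys hS hH
    match ys, hS with
    | w :: ys, hS =>
      obtain ⟨h1, h2⟩ := hS
      rcases hH with hH | hH
      · refine ⟨p, List.mem_cons_self, ?_⟩
        have h4 := h1 x y z u v t hc e1 e2 e3 hH
        obtain ⟨q1, q2, q3⟩ := hq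
        have q1' : (0 : ℝ) < b.q1 := by exact_mod_cast q1
        have q2' : (0 : ℝ) < b.q2 := by exact_mod_cast q2
        have q3' : (0 : ℝ) < b.q3 := by exact_mod_cast q3
        have f1 : (0 : ℝ) < (p.n1.factorial : ℝ) := by exact_mod_cast Nat.factorial_pos _
        have f2 : (0 : ℝ) < (p.n2.factorial : ℝ) := by exact_mod_cast Nat.factorial_pos _
        have f3 : (0 : ℝ) < (p.n3.factorial : ℝ) := by exact_mod_cast Nat.factorial_pos _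
        have h5 := (pos_iff_pos_of_mul_pos h4).mp (by positivity)
        have h6 := (pos_iff_pos_of_mul_pos h5).mp (by positivity)
        exact (pos_iff_pos_of_mul_pos h6).mp (by positivity)
      · obtain ⟨p', hp', h3⟩ := ih ys h2 hH
        exact ⟨p', List.mem_cons_of_mem _ hp', h3⟩

/-- Main theorem for expressions: a successful check shows that at every point of the box one of
the expressions is positive. -/
theorem checkE_spec (W0 W1 e fuel : ℕ) (b : Box) (ps : List EIt) (ss : List ℕ) (cert : ℕ)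
    (hW0 : 2 ≤ W0) (hW1 : 2 ≤ W1) (hq : 0 < b.q1 ∧ 0 < b.q2 ∧ 0 < b.q3)
    (h : checkE W0 W1 e fuel b ps ss cert = true)
    (u v t : ℝ) (hb : b.In u v t) : ∃ p ∈ ps, 0 < Ex.evR u v t p.e := by
  obtain ⟨Ks, L, ys, h1, h2, h3⟩ := initAllE_spec W0 W1 e hW0 hW1 b ps ss _ h
  obtain ⟨h4, _⟩ := go_spec W1 hW1 _ Ks fuel L ys cert _ h2 h1
  obtain ⟨⟨a1, a2⟩, ⟨b1, b2⟩, ⟨c1, c2⟩⟩ := hb
  obtain ⟨x, hx, e1⟩ := exists_par b.l1 b.h1 _ a1 a2
  obtain ⟨y, hy, e2⟩ := exists_par b.l2 b.h2 _ b1 b2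
  obtain ⟨z, hz, e3⟩ := exists_par b.l3 b.h3 _ c1 c2
  exact hitE_pos W1 b hq ps u v t x y z ⟨hx, hy, hz⟩ e1 e2 e3 ys h3 (h4 (x, y, z) ⟨hx, hy, hz⟩)

end Pool.Agent.BPK
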