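import Pool.Agent.BPK.Repack

/-!
Example: for cosines `u, v, t ≤ 1 / 2` of the angles of three unit vectors (nonnegative Gram
determinant) one has `-8 / 5 < u + v + t`. The variables of the check are `1 + u` etc.
-/

namespace Pool.Agent.BPK.Ex

open Pool.Agent.BPK

/-- The box. -/
def bx : Box := ⟨2, 0, 3, 2, 0, 3, 2, 0, 3⟩

/-- A polynomial. -/
def p0 : Poly := ⟨1, 1, 1, [
  [[-14, 10],
    [10, 0]],
  [[10, 0],
    [0, 0]]]⟩

/-- A polynomial. -/
def p1 : Poly := ⟨2, 2, 2, [
  [[4, -4, 1],
    [-4, 2, 0],
    [1, 0, 0]],
  [[-4, 2, 0],
    [2, -2, 0],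
    [0, 0, 0]],
  [[1, 0, 0],
    [0, 0, 0],
    [0, 0, 0]]]⟩

/-- The certificate. -/
def cert : List ℕ := [
  0x33342134241400233421341414004213342142414004213341402341424040401424140042410210,
  0x40234241404004241401421333334214021033341234241400133412341414004123341242414002,
  0x34240103340234240140233402424140123334203424012334203424014203342042414014203341,
  0x34140213341034140241033410424140241033414013414140400424140223333342041210333402,
  0x21334213424104241021033333410422103334013414020334013414024013340142414021333410,
  0x33333420342401221103333334213424102210333334213424102103334103414022334203424014,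
  0x13414040400234241401341424140400234242414140123334120334104213424241414040201033,
  0x40241402012133333334140221103333421203334210334140241402102333342110333421033342,
  0x42414140213334110334104123424241414040102023333333341402210033334221033342013341,
  0x21033341203341401424012013333422103334120333412341404040013414140234142414040013,
  0x40012121333333333424021100333341210333410233414014240102213333333424022110333341,
  0x21003334210333402342401034140402342414040103424140402033340013340140234242414140,
  0x12033340123341400424101220333333342412210033334021033340213341400424102103333342,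
  0x3333333333424121100333340]

/-- The check. -/
theorem ok : checkR 32 32 22 18 bx [p0, p1] [0, 4] (joinC cert)
    = true := by
  decide +kernel

theorem example_gram (u v t : ℝ) (hu : -1 ≤ u ∧ u ≤ 1 / 2) (hv : -1 ≤ v ∧ v ≤ 1 / 2)
    (ht : -1 ≤ t ∧ t ≤ 1 / 2) (hg : 0 ≤ 1 + 2 * u * v * t - u ^ 2 - v ^ 2 - t ^ 2) :
    -8 / 5 < u + v + t := by
  have hb : bx.In (1 + u) (1 + v) (1 + t) := by
    unfold Box.In bx
    push_cast
    refine ⟨⟨?_, ?_⟩, ⟨?_, ?_⟩, ⟨?_, ?_⟩⟩ <;> linarith [hu.1, hu.2, hv.1, hv.2, ht.1, ht.2]
  obtain ⟨p, hp, hpos⟩ := checkR_spec 32 32 22 18 bx [p0, p1] [0, 4] (joinC cert) (by norm_num)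
    (by norm_num) (by decide) ok (1 + u) (1 + v) (1 + t) hb
  simp only [List.mem_cons, List.not_mem_nil, or_false] at hp
  rcases hp with hp | hp
  · rw [hp] at hpos
    have e : p0.ev (1 + u) (1 + v) (1 + t) = 10 * (u + v + t) + 16 := by
      simp only [Poly.ev, p0, ev3, ev2, ev1]
      push_cast
      ring
    rw [e] at hpos
    linarith
  · rw [hp] at hpos
    have e : p1.ev (1 + u) (1 + v) (1 + t)
        = -(1 + 2 * u * v * t - u ^ 2 - v ^ 2 - t ^ 2) := by
      simp only [Poly.ev, p1, ev3, ev2, ev1]
      push_cast
      ring
    rw [e] at hpos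
    linarith

end Pool.Agent.BPK.Ex
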