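import Pool.Agent.BPK.ExMain

/-!
Identities of expressions, checked by one evaluation (Kronecker substitution).
-/

namespace Pool.Agent.BPK

open MvPolynomial

theorem pk_inj (W : ℕ) (N : ℕ) : ∀ (x y : ℕ → ℕ), (∀ l, x l < 2 ^ W) → (∀ l, y l < 2 ^ W) →
    pk W N x = pk W N y → ∀ l, l < N → x l = y l := by
  induction N with
  | zero =>
    intro x y _ _ _ l hl
    omega
  | succ N ih =>
    intro x y hx hy h l hl
    rw [pk_succ, pk_succ] at h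
    have hm : x 0 = y 0 := by
      have h1 := congrArg (fun z => z % 2 ^ W) h
      beta_reduce at h1
      rw [Nat.mul_add_mod, Nat.mul_add_mod, Nat.mod_eq_of_lt (hx 0),
        Nat.mod_eq_of_lt (hy 0)] at h1
      exact h1
    cases l with
    | zero => exact hm
    | succ l =>
      rw [hm] at h
      have h2 := Nat.add_right_cancel h
      have h3 := Nat.eq_of_mul_eq_mul_left (by positivity) h2
      exact ih (fun l => x (l + 1)) (fun l => y (l + 1)) (fun l => hx _) (fun l => hy _) h3 l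
        (by omega)

/-- The check of an identity. -/
noncomputable def eqE (W n1 n2 n3 : ℕ) (a b : Ex) : Bool :=
  dgF a (fun a1 a2 a3 => dgF b (fun b1 b2 b3 =>
    andb (Nat.ble a1 n1) (andb (Nat.ble a2 n2) (andb (Nat.ble a3 n3)
    (andb (Nat.ble b1 n1) (andb (Nat.ble b2 n2) (andb (Nat.ble b3 n3)
    (pnF 1 1 1 a (fun p1 p2 => pnF 1 1 1 b (fun r1 r2 =>
      fcB (Nat.pow 2 W) (fun x =>
      andb (Nat.ble (Nat.succ (Nat.add p1 r2)) x) (andb (Nat.ble (Nat.succ (Nat.add p2 r1)) x)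
      (fcB (Nat.pow 2 (Nat.mul W (Nat.succ n1))) (fun y =>
      fcB (Nat.pow 2 (Nat.mul W (Nat.mul (Nat.succ n1) (Nat.succ n2)))) (fun z =>
      pnF x y z a (fun P1 P2 => pnF x y z b (fun R1 R2 =>
        fcB (Nat.add P1 R2) (fun s1 => fcB (Nat.add P2 R1) (fun s2 =>
          Nat.beq s1 s2)))))))))))))))))))

theorem eqE_spec (W n1 n2 n3 : ℕ) (a b : Ex) (h : eqE W n1 n2 n3 a b = true) (x y z : ℝ) :
    Ex.evR x y z a = Ex.evR x y z b := by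
  unfold eqE at h
  simp only [fcB_eq, pnF_eq, dgF_eq] at h
  obtain ⟨d1, h⟩ := andb_true h
  obtain ⟨d2, h⟩ := andb_true h
  obtain ⟨d3, h⟩ := andb_true h
  obtain ⟨d4, h⟩ := andb_true h
  obtain ⟨d5, h⟩ := andb_true h
  obtain ⟨d6, h⟩ := andb_true h
  obtain ⟨c1, h⟩ := andb_true h
  obtain ⟨c2, h⟩ := andb_true h
  have d1' : (Ex.dg a).1 ≤ n1 := Nat.le_of_ble_eq_true d1
  have d2' : (Ex.dg a).2.1 ≤ n2 := Nat.le_of_ble_eq_true d2
  have d3' : (Ex.dg a).2.2 ≤ n3 := Nat.le_of_ble_eq_true d3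
  have d4' : (Ex.dg b).1 ≤ n1 := Nat.le_of_ble_eq_true d4
  have d5' : (Ex.dg b).2.1 ≤ n2 := Nat.le_of_ble_eq_true d5
  have d6' : (Ex.dg b).2.2 ≤ n3 := Nat.le_of_ble_eq_true d6
  clear d1 d2 d3 d4 d5 d6
  have c1' : (Ex.pn 1 1 1 a).1 + (Ex.pn 1 1 1 b).2 < 2 ^ W := Nat.le_of_ble_eq_true c1
  have c2' : (Ex.pn 1 1 1 a).2 + (Ex.pn 1 1 1 b).1 < 2 ^ W := Nat.le_of_ble_eq_true c2
  clear c1 c2
  have h' : (Ex.pn (2 ^ W) (2 ^ (W * (n1 + 1))) (2 ^ (W * ((n1 + 1) * (n2 + 1)))) a).1 +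
      (Ex.pn (2 ^ W) (2 ^ (W * (n1 + 1))) (2 ^ (W * ((n1 + 1) * (n2 + 1)))) b).2 =
      (Ex.pn (2 ^ W) (2 ^ (W * (n1 + 1))) (2 ^ (W * ((n1 + 1) * (n2 + 1)))) a).2 +
      (Ex.pn (2 ^ W) (2 ^ (W * (n1 + 1))) (2 ^ (W * ((n1 + 1) * (n2 + 1)))) b).1 :=
    Nat.eq_of_beq_eq_true h
  rw [Ex.pn_eq, Ex.pn_eq] at c1' c2' h'
  simp only at c1' c2' h'
  set p := (Ex.pp a).1 + (Ex.pp b).2 with hp
  set q := (Ex.pp a).2 + (Ex.pp b).1 with hq
  have gp : ∀ i : Fin 3, degreeOf i p ≤ max (dgi (Ex.dg a) i) (dgi (Ex.dg b) i) := fun i =>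
    (degreeOf_add_le _ _ _).trans (max_le_max (Ex.degreeOf_le a i).1 (Ex.degreeOf_le b i).2)
  have gq : ∀ i : Fin 3, degreeOf i q ≤ max (dgi (Ex.dg a) i) (dgi (Ex.dg b) i) := fun i =>
    (degreeOf_add_le _ _ _).trans (max_le_max (Ex.degreeOf_le a i).2 (Ex.degreeOf_le b i).1)
  have m0 : max (dgi (Ex.dg a) 0) (dgi (Ex.dg b) 0) ≤ n1 := max_le d1' d4'
  have m1 : max (dgi (Ex.dg a) 1) (dgi (Ex.dg b) 1) ≤ n2 := max_le d2' d5'
  have m2 : max (dgi (Ex.dg a) 2) (dgi (Ex.dg b) 2) ≤ n3 := max_le d3' d6'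
  have p0 := (gp 0).trans m0
  have p1 := (gp 1).trans m1
  have p2 := (gp 2).trans m2
  have q0 := (gq 0).trans m0
  have q1 := (gq 1).trans m1
  have q2 := (gq 2).trans m2
  rw [← map_add, ← map_add] at h'
  rw [← map_add] at c1' c2'
  have e1 : pk W (NN n1 n2 n3) (lx n1 n2 n3 p) = pk W (NN n1 n2 n3) (lx n1 n2 n3 q) := by
    rw [← lx_pk W n1 n2 n3 p p0 p1 p2, ← lx_pk W n1 n2 n3 q q0 q1 q2]
    exact h'
  have b1 : ∀ l, lx n1 n2 n3 p l < 2 ^ W := fun l => lt_of_le_of_lt (lx_le _ _ _ _ _) c1'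
  have b2 : ∀ l, lx n1 n2 n3 q l < 2 ^ W := fun l => lt_of_le_of_lt (lx_le _ _ _ _ _) c2'
  have e2 : ∀ l, lx n1 n2 n3 p l = lx n1 n2 n3 q l := by
    intro l
    by_cases hl : l < NN n1 n2 n3
    · exact pk_inj W _ _ _ b1 b2 e1 l hl
    · rw [lx_zero n1 n2 n3 p l (by omega), lx_zero n1 n2 n3 q l (by omega)]
  have e3 : aeval ![x, y, z] p = aeval ![x, y, z] q := by
    rw [lx_real n1 n2 n3 p p0 p1 p2, lx_real n1 n2 n3 q q0 q1 q2]
    congr 1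
    funext l
    rw [e2 l]
  rw [hp, hq, map_add, map_add] at e3
  rw [Ex.evR_eq, Ex.evR_eq]
  linarith

end Pool.Agent.BPK
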