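import Pool.Agent.BPK.Rows

/-!
The initial packed Bernstein array of a polynomial with integer coefficients on a box.
-/

namespace Pool.Agent.BPK

/-- positive part -/
noncomputable def ipos (z : ℤ) : ℕ :=
  Int.rec (motive := fun _ => ℕ) (fun n => n) (fun _ => 0) z

/-- negative part -/
noncomputable def ineg (z : ℤ) : ℕ :=
  Int.rec (motive := fun _ => ℕ) (fun _ => 0) (fun n => Nat.succ n) z

theorem ipos_sub_ineg (z : ℤ) : (z : ℝ) = (ipos z : ℝ) - (ineg z : ℝ) := by
  cases z with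
  | ofNat n =>
    change ((Int.ofNat n : ℤ) : ℝ) = ((n : ℕ) : ℝ) - ((0 : ℕ) : ℝ)
    simp
  | negSucc n =>
    change ((Int.negSucc n : ℤ) : ℝ) = ((0 : ℕ) : ℝ) - ((n + 1 : ℕ) : ℝ)
    rw [Int.cast_negSucc]
    simp

/-- inner level -/
noncomputable def dot1 (f : ℤ → ℕ) (cs : List ℤ) : List ℕ → ℕ :=
  List.rec (motive := fun _ => List ℕ → ℕ) (fun _ => 0)
    (fun c _ ih P => List.rec (motive := fun _ => ℕ) 0
      (fun p P' _ => Nat.add (Nat.mul (f c) p) (ih P')) P) cs

/-- middle level -/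
noncomputable def dot2 (f : ℤ → ℕ) (P1 : List ℕ) (css : List (List ℤ)) : List ℕ → ℕ :=
  List.rec (motive := fun _ => List ℕ → ℕ) (fun _ => 0)
    (fun c _ ih P => List.rec (motive := fun _ => ℕ) 0
      (fun p P' _ => Nat.add (Nat.mul (dot1 f c P1) p) (ih P')) P) css

/-- outer level -/
noncomputable def dot3 (f : ℤ → ℕ) (P1 P2 : List ℕ) (C : List (List (List ℤ))) :
    List ℕ → ℕ :=
  List.rec (motive := fun _ => List ℕ → ℕ) (fun _ => 0)
    (fun c _ ih P => List.rec (motive := fun _ => ℕ) 0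
      (fun p P' _ => Nat.add (Nat.mul (dot2 f P1 c P2) p) (ih P')) P) C

/-- lanes of the inner level -/
def lane1 (f : ℤ → ℕ) : List ℤ → List (List ℕ) → ℕ → ℕ
  | c :: cs, r :: R, i => f c * tau r i + lane1 f cs R i
  | _, _, _ => 0

/-- lanes of the middle level -/
def lane2 (f : ℤ → ℕ) (R1 : List (List ℕ)) : List (List ℤ) → List (List ℕ) → ℕ → ℕ → ℕ
  | c :: cs, r :: R, i, j => lane1 f c R1 i * tau r j + lane2 f R1 cs R i j
  | _, _, _, _ => 0

/-- lanes of the outer level -/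
def lane3 (f : ℤ → ℕ) (R1 R2 : List (List ℕ)) : List (List (List ℤ)) → List (List ℕ) →
    ℕ → ℕ → ℕ → ℕ
  | c :: cs, r :: R, i, j, k => lane2 f R1 c R2 i j * tau r k + lane3 f R1 R2 cs R i j k
  | _, _, _, _, _ => 0

theorem dot1_eq (f : ℤ → ℕ) (s n : ℕ) (cs : List ℤ) : ∀ R : List (List ℕ),
    (∀ r ∈ R, r.length = n + 1) → dot1 f cs (R.map (fun r => pvw s r 0))
      = ∑ i ∈ Finset.range (n + 1), lane1 f cs R i * s ^ i := by
  induction cs with
  | nil =>
    intro R _
    simp only [lane1, zero_mul, Finset.sum_const_zero]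
    rfl
  | cons c cs ih =>
    intro R hR
    cases R with
    | nil =>
      simp only [lane1, zero_mul, Finset.sum_const_zero]
      rfl
    | cons r R =>
      change f c * pvw s r 0 + dot1 f cs (R.map (fun r => pvw s r 0)) = _
      rw [ih R (fun r' h => hR r' (List.mem_cons_of_mem _ h)), pvw_eq,
        hR r List.mem_cons_self, Finset.mul_sum, ← Finset.sum_add_distrib]
      apply Finset.sum_congr rfl
      intro i _
      simp only [lane1]
      ring

theorem dot2_eq (f : ℤ → ℕ) (s1 s n1 n : ℕ) (R1 : List (List ℕ))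
    (hR1 : ∀ r ∈ R1, r.length = n1 + 1) (cs : List (List ℤ)) : ∀ R : List (List ℕ),
    (∀ r ∈ R, r.length = n + 1) →
    dot2 f (R1.map (fun r => pvw s1 r 0)) cs (R.map (fun r => pvw s r 0))
      = ∑ j ∈ Finset.range (n + 1), ∑ i ∈ Finset.range (n1 + 1),
        lane2 f R1 cs R i j * s1 ^ i * s ^ j := by
  induction cs with
  | nil =>
    intro R _
    simp only [lane2, zero_mul, Finset.sum_const_zero]
    rfl
  | cons c cs ih =>
    intro R hR
    cases R with
    | nil =>
      simp only [lane2, zero_mul, Finset.sum_const_zero]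
      rfl
    | cons r R =>
      change dot1 f c (R1.map (fun r => pvw s1 r 0)) * pvw s r 0
        + dot2 f (R1.map (fun r => pvw s1 r 0)) cs (R.map (fun r => pvw s r 0)) = _
      rw [ih R (fun r' h => hR r' (List.mem_cons_of_mem _ h)), pvw_eq,
        hR r List.mem_cons_self, dot1_eq f s1 n1 c R1 hR1, Finset.mul_sum,
        ← Finset.sum_add_distrib]
      apply Finset.sum_congr rfl
      intro j _
      rw [Finset.sum_mul, ← Finset.sum_add_distrib]
      apply Finset.sum_congr rfl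
      intro i _
      simp only [lane2]
      ring

theorem dot3_eq (f : ℤ → ℕ) (s1 s2 s n1 n2 n : ℕ) (R1 R2 : List (List ℕ))
    (hR1 : ∀ r ∈ R1, r.length = n1 + 1) (hR2 : ∀ r ∈ R2, r.length = n2 + 1)
    (cs : List (List (List ℤ))) : ∀ R : List (List ℕ),
    (∀ r ∈ R, r.length = n + 1) →
    dot3 f (R1.map (fun r => pvw s1 r 0)) (R2.map (fun r => pvw s2 r 0)) cs
      (R.map (fun r => pvw s r 0))
      = ∑ k ∈ Finset.range (n + 1), ∑ j ∈ Finset.range (n2 + 1), ∑ i ∈ Finset.range (n1 + 1),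
        lane3 f R1 R2 cs R i j k * s1 ^ i * s2 ^ j * s ^ k := by
  induction cs with
  | nil =>
    intro R _
    simp only [lane3, zero_mul, Finset.sum_const_zero]
    rfl
  | cons c cs ih =>
    intro R hR
    cases R with
    | nil =>
      simp only [lane3, zero_mul, Finset.sum_const_zero]
      rfl
    | cons r R =>
      change dot2 f (R1.map (fun r => pvw s1 r 0)) c (R2.map (fun r => pvw s2 r 0)) * pvw s r 0
        + dot3 f (R1.map (fun r => pvw s1 r 0)) (R2.map (fun r => pvw s2 r 0)) cs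
          (R.map (fun r => pvw s r 0)) = _
      rw [ih R (fun r' h => hR r' (List.mem_cons_of_mem _ h)), pvw_eq,
        hR r List.mem_cons_self, dot2_eq f s1 s2 n1 n2 R1 hR1 c R2 hR2, Finset.mul_sum,
        ← Finset.sum_add_distrib]
      apply Finset.sum_congr rfl
      intro k _
      rw [Finset.sum_mul, ← Finset.sum_add_distrib]
      apply Finset.sum_congr rfl
      intro j _
      rw [Finset.sum_mul, ← Finset.sum_add_distrib]
      apply Finset.sum_congr rfl
      intro i _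
      simp only [lane3]
      ring

/-- reindexing -/
theorem sum_block (a b : ℕ) (f : ℕ → ℕ) : ∑ l ∈ Finset.range (a * b), f l
    = ∑ j ∈ Finset.range b, ∑ i ∈ Finset.range a, f (i + a * j) := by
  induction b with
  | zero => simp
  | succ b ih =>
    rw [mul_add, mul_one, Finset.sum_range_add, ih, Finset.sum_range_succ]
    congr 1
    apply Finset.sum_congr rfl
    intro i _
    rw [add_comm]

theorem sum_NN (n1 n2 n3 : ℕ) (f : ℕ → ℕ) : ∑ l ∈ Finset.range (NN n1 n2 n3), f l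
    = ∑ k ∈ Finset.range (n3 + 1), ∑ j ∈ Finset.range (n2 + 1), ∑ i ∈ Finset.range (n1 + 1),
      f (i + (n1 + 1) * j + (n1 + 1) * (n2 + 1) * k) := by
  unfold NN
  rw [sum_block ((n1 + 1) * (n2 + 1)) (n3 + 1) f]
  apply Finset.sum_congr rfl
  intro k _
  rw [sum_block (n1 + 1) (n2 + 1) (fun l => f (l + (n1 + 1) * (n2 + 1) * k))]

/-- all lanes -/
def lanes (n1 n2 n3 : ℕ) (f : ℤ → ℕ) (C : List (List (List ℤ))) (R1 R2 R3 : List (List ℕ))
    (l : ℕ) : ℕ :=
  lane3 f R1 R2 C R3 (co 1 n1 l) (co (n1 + 1) n2 l) (co ((n1 + 1) * (n2 + 1)) n3 l)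

theorem dot3_pk (W n1 n2 n3 : ℕ) (f : ℤ → ℕ) (C : List (List (List ℤ)))
    (R1 R2 R3 : List (List ℕ)) (hR1 : ∀ r ∈ R1, r.length = n1 + 1)
    (hR2 : ∀ r ∈ R2, r.length = n2 + 1) (hR3 : ∀ r ∈ R3, r.length = n3 + 1) :
    dot3 f (R1.map (fun r => pvw (2 ^ W) r 0))
      (R2.map (fun r => pvw (2 ^ (W * (n1 + 1))) r 0)) C
      (R3.map (fun r => pvw (2 ^ (W * ((n1 + 1) * (n2 + 1)))) r 0))
      = pk W (NN n1 n2 n3) (lanes n1 n2 n3 f C R1 R2 R3) := by
  rw [dot3_eq f _ _ _ n1 n2 n3 R1 R2 hR1 hR2 C R3 hR3]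
  unfold pk
  rw [sum_NN]
  apply Finset.sum_congr rfl
  intro k hk
  apply Finset.sum_congr rfl
  intro j hj
  apply Finset.sum_congr rfl
  intro i hi
  have h1 : i < n1 + 1 := Finset.mem_range.mp hi
  have h2 : j < n2 + 1 := Finset.mem_range.mp hj
  have h3 : k < n3 + 1 := Finset.mem_range.mp hk
  unfold lanes
  rw [co1 n1 n2 i j k h1, co2 n1 n2 i j k h1 h2, co3 n1 n2 n3 i j k h1 h2 h3]
  have e3 : (2 ^ W) ^ (i + (n1 + 1) * j + (n1 + 1) * (n2 + 1) * k)
      = (2 ^ W) ^ i * ((2 ^ W) ^ (n1 + 1)) ^ j * ((2 ^ W) ^ ((n1 + 1) * (n2 + 1))) ^ k := by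
    rw [← pow_mul (2 ^ W) (n1 + 1) j, ← pow_mul (2 ^ W) ((n1 + 1) * (n2 + 1)) k, ← pow_add,
      ← pow_add]
  rw [pow_mul 2 W (n1 + 1), pow_mul 2 W ((n1 + 1) * (n2 + 1)), e3]
  simp only [mul_assoc]

theorem dot3_one (n1 n2 n3 : ℕ) (f : ℤ → ℕ) (C : List (List (List ℤ)))
    (R1 R2 R3 : List (List ℕ)) (hR1 : ∀ r ∈ R1, r.length = n1 + 1)
    (hR2 : ∀ r ∈ R2, r.length = n2 + 1) (hR3 : ∀ r ∈ R3, r.length = n3 + 1) :
    dot3 f (R1.map (fun r => pvw 1 r 0)) (R2.map (fun r => pvw 1 r 0)) C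
      (R3.map (fun r => pvw 1 r 0))
      = ∑ l ∈ Finset.range (NN n1 n2 n3), lanes n1 n2 n3 f C R1 R2 R3 l := by
  have h := dot3_pk 0 n1 n2 n3 f C R1 R2 R3 hR1 hR2 hR3
  simp only [zero_mul, pow_zero] at h
  rw [h]
  unfold pk
  simp

/-- value of a list of coefficients -/
noncomputable def ev1 (g : ℤ → ℝ) (u : ℝ) : List ℤ → ℝ
  | [] => 0
  | c :: cs => g c + u * ev1 g u cs

/-- value of a list of lists of coefficients -/
noncomputable def ev2 (g : ℤ → ℝ) (u v : ℝ) : List (List ℤ) → ℝ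
  | [] => 0
  | c :: cs => ev1 g u c + v * ev2 g u v cs

/-- value of a nested list of coefficients -/
noncomputable def ev3 (g : ℤ → ℝ) (u v t : ℝ) : List (List (List ℤ)) → ℝ
  | [] => 0
  | c :: cs => ev2 g u v c + t * ev3 g u v t cs

theorem ev1_sub (g g1 g2 : ℤ → ℝ) (h : ∀ z, g z = g1 z - g2 z) (u : ℝ) (cs : List ℤ) :
    ev1 g u cs = ev1 g1 u cs - ev1 g2 u cs := by
  induction cs with
  | nil => simp [ev1]
  | cons c cs ih =>
    simp only [ev1]
    rw [ih, h]
    ring

theorem ev2_sub (g g1 g2 : ℤ → ℝ) (h : ∀ z, g z = g1 z - g2 z) (u v : ℝ)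
    (cs : List (List ℤ)) : ev2 g u v cs = ev2 g1 u v cs - ev2 g2 u v cs := by
  induction cs with
  | nil => simp [ev2]
  | cons c cs ih =>
    simp only [ev2]
    rw [ih, ev1_sub g g1 g2 h]
    ring

theorem ev3_sub (g g1 g2 : ℤ → ℝ) (h : ∀ z, g z = g1 z - g2 z) (u v t : ℝ)
    (cs : List (List (List ℤ))) : ev3 g u v t cs = ev3 g1 u v t cs - ev3 g2 u v t cs := by
  induction cs with
  | nil => simp [ev3]
  | cons c cs ih =>
    simp only [ev3]
    rw [ih, ev2_sub g g1 g2 h]
    ring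

/-- the shape -/
def Shape1 (m : ℕ) (cs : List ℤ) : Prop := cs.length ≤ m

/-- the shape -/
def Shape2 (m1 m2 : ℕ) (cs : List (List ℤ)) : Prop := cs.length ≤ m2 ∧ ∀ c ∈ cs, Shape1 m1 c

/-- the shape -/
def Shape3 (m1 m2 m3 : ℕ) (cs : List (List (List ℤ))) : Prop :=
  cs.length ≤ m3 ∧ ∀ c ∈ cs, Shape2 m1 m2 c

theorem rows_length (q l h n : ℕ) : ∀ m a, m + a = n + 1 → ∀ r ∈ rows q l h m a,
    r.length = n + 1 := by
  intro m
  induction m with
  | zero =>
    intro a _ r hr
    simp [rows] at hr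
  | succ m ih =>
    intro a ha r hr
    simp only [rows, List.mem_cons] at hr
    rcases hr with hr | hr
    · rw [hr, row_length]
      omega
    · exact ih (a + 1) (by omega) r hr

theorem val1 (f : ℤ → ℕ) (q l h n : ℕ) (x U : ℝ) (hU : (l : ℝ) * (1 - x) + h * x = q * U)
    (cs : List ℤ) : ∀ m a, m + a = n + 1 → Shape1 m cs →
    (∑ i ∈ Finset.range (n + 1), bern n i x * (lane1 f cs (rows q l h m a) i : ℝ)) * q
      = (n.factorial : ℝ) * (q : ℝ) ^ (n + 1) * (U ^ a * ev1 (fun z => (f z : ℝ)) U cs) := by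
  induction cs with
  | nil =>
    intro m a _ _
    simp [lane1, ev1]
  | cons c cs ih =>
    intro m a hm hs
    match m, hs with
    | m + 1, hs =>
      have hs' : Shape1 m cs := by
        unfold Shape1 at hs ⊢
        simp only [List.length_cons] at hs
        omega
      have h1 := ih m (a + 1) (by omega) hs'
      simp only [rows, lane1, ev1]
      have h2 := tau_bern n (row q l h m a) (by rw [row_length]; omega) x
      rw [row_hom, hU] at h2
      have h3 : ∑ i ∈ Finset.range (n + 1), bern n i x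
          * ((f c * tau (row q l h m a) i + lane1 f cs (rows q l h m (a + 1)) i : ℕ) : ℝ)
          = (f c : ℝ) * (∑ i ∈ Finset.range (n + 1), bern n i x * (tau (row q l h m a) i : ℝ))
            + ∑ i ∈ Finset.range (n + 1), bern n i x
              * (lane1 f cs (rows q l h m (a + 1)) i : ℝ) := by
        rw [Finset.mul_sum, ← Finset.sum_add_distrib]
        apply Finset.sum_congr rfl
        intro i _
        push_cast
        ring
      rw [h3, h2, add_mul, h1]
      have e : n + 1 = m + (a + 1) := by omega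
      rw [e]
      ring

theorem val2 (f : ℤ → ℕ) (R1 : List (List ℕ)) (q l h n n1 : ℕ) (x y U1 U κ : ℝ)
    (hU : (l : ℝ) * (1 - y) + h * y = q * U) (q1 l1 h1 : ℕ) (hR1 : R1 = rows q1 l1 h1 (n1 + 1) 0)
    (hκ : κ = (n1.factorial : ℝ) * (q1 : ℝ) ^ (n1 + 1))
    (hU1 : (l1 : ℝ) * (1 - x) + h1 * x = q1 * U1)
    (cs : List (List ℤ)) : ∀ m a, m + a = n + 1 → Shape2 (n1 + 1) m cs →
    (∑ j ∈ Finset.range (n + 1), ∑ i ∈ Finset.range (n1 + 1), bern n j y * (bern n1 i x
      * (lane2 f R1 cs (rows q l h m a) i j : ℝ))) * q1 * q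
      = κ * ((n.factorial : ℝ) * (q : ℝ) ^ (n + 1))
        * (U ^ a * ev2 (fun z => (f z : ℝ)) U1 U cs) := by
  induction cs with
  | nil =>
    intro m a _ _
    simp [lane2, ev2]
  | cons c cs ih =>
    intro m a hm hs
    match m, hs with
    | m + 1, hs =>
      obtain ⟨hs1, hs2⟩ := hs
      have hs' : Shape2 (n1 + 1) m cs := by
        refine ⟨?_, fun c' hc' => hs2 c' (List.mem_cons_of_mem _ hc')⟩
        simp only [List.length_cons] at hs1
        omega
      have g1 := ih m (a + 1) (by omega) hs'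
      have g0 := val1 f q1 l1 h1 n1 x U1 hU1 c (n1 + 1) 0 rfl (hs2 c List.mem_cons_self)
      rw [← hR1] at g0
      simp only [rows, lane2, ev2]
      have h2 := tau_bern n (row q l h m a) (by rw [row_length]; omega) y
      rw [row_hom, hU] at h2
      have h3 : ∑ j ∈ Finset.range (n + 1), ∑ i ∈ Finset.range (n1 + 1), bern n j y
          * (bern n1 i x * ((lane1 f c R1 i * tau (row q l h m a) j
            + lane2 f R1 cs (rows q l h m (a + 1)) i j : ℕ) : ℝ))
          = (∑ j ∈ Finset.range (n + 1), bern n j y * (tau (row q l h m a) j : ℝ))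
            * (∑ i ∈ Finset.range (n1 + 1), bern n1 i x * (lane1 f c R1 i : ℝ))
            + ∑ j ∈ Finset.range (n + 1), ∑ i ∈ Finset.range (n1 + 1), bern n j y * (bern n1 i x
              * (lane2 f R1 cs (rows q l h m (a + 1)) i j : ℝ)) := by
        rw [Finset.sum_mul, ← Finset.sum_add_distrib]
        apply Finset.sum_congr rfl
        intro j _
        rw [Finset.mul_sum, ← Finset.sum_add_distrib]
        apply Finset.sum_congr rfl
        intro i _
        push_cast
        ring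
      have e0 : ((n.factorial : ℝ) * ((q * U) ^ a * (q : ℝ) ^ m)
          * (∑ i ∈ Finset.range (n1 + 1), bern n1 i x * (lane1 f c R1 i : ℝ))
          + ∑ j ∈ Finset.range (n + 1), ∑ i ∈ Finset.range (n1 + 1), bern n j y * (bern n1 i x
              * (lane2 f R1 cs (rows q l h m (a + 1)) i j : ℝ))) * q1 * q
          = (n.factorial : ℝ) * ((q * U) ^ a * (q : ℝ) ^ m) * q
          * ((∑ i ∈ Finset.range (n1 + 1), bern n1 i x * (lane1 f c R1 i : ℝ)) * q1)
          + (∑ j ∈ Finset.range (n + 1), ∑ i ∈ Finset.range (n1 + 1), bern n j y * (bern n1 i x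
              * (lane2 f R1 cs (rows q l h m (a + 1)) i j : ℝ))) * q1 * q := by ring
      rw [h3, h2, e0, g1, g0, hκ]
      have e : n + 1 = m + (a + 1) := by omega
      rw [e]
      ring

theorem val3 (f : ℤ → ℕ) (R1 R2 : List (List ℕ)) (q l h n n1 n2 : ℕ) (x y z U1 U2 U κ κ2 : ℝ)
    (hU : (l : ℝ) * (1 - z) + h * z = q * U) (q1 l1 h1 q2 l2 h2 : ℕ)
    (hR1 : R1 = rows q1 l1 h1 (n1 + 1) 0) (hR2 : R2 = rows q2 l2 h2 (n2 + 1) 0)
    (hκ : κ = (n1.factorial : ℝ) * (q1 : ℝ) ^ (n1 + 1))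
    (hκ2 : κ2 = (n2.factorial : ℝ) * (q2 : ℝ) ^ (n2 + 1))
    (hU1 : (l1 : ℝ) * (1 - x) + h1 * x = q1 * U1)
    (hU2 : (l2 : ℝ) * (1 - y) + h2 * y = q2 * U2)
    (cs : List (List (List ℤ))) : ∀ m a, m + a = n + 1 → Shape3 (n1 + 1) (n2 + 1) m cs →
    (∑ k ∈ Finset.range (n + 1), ∑ j ∈ Finset.range (n2 + 1), ∑ i ∈ Finset.range (n1 + 1),
      bern n k z * (bern n2 j y * (bern n1 i x
      * (lane3 f R1 R2 cs (rows q l h m a) i j k : ℝ)))) * q1 * q2 * q
      = κ * κ2 * ((n.factorial : ℝ) * (q : ℝ) ^ (n + 1))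
        * (U ^ a * ev3 (fun z => (f z : ℝ)) U1 U2 U cs) := by
  induction cs with
  | nil =>
    intro m a _ _
    simp [lane3, ev3]
  | cons c cs ih =>
    intro m a hm hs
    match m, hs with
    | m + 1, hs =>
      obtain ⟨hs1, hs2⟩ := hs
      have hs' : Shape3 (n1 + 1) (n2 + 1) m cs := by
        refine ⟨?_, fun c' hc' => hs2 c' (List.mem_cons_of_mem _ hc')⟩
        simp only [List.length_cons] at hs1
        omega
      have g1 := ih m (a + 1) (by omega) hs'
      have g0 := val2 f R1 q2 l2 h2 n2 n1 x y U1 U2 κ hU2 q1 l1 h1 hR1 hκ hU1 c (n2 + 1) 0 rfl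
        (hs2 c List.mem_cons_self)
      rw [← hR2] at g0
      simp only [rows, lane3, ev3]
      have h2 := tau_bern n (row q l h m a) (by rw [row_length]; omega) z
      rw [row_hom, hU] at h2
      set S2 := ∑ j ∈ Finset.range (n2 + 1), ∑ i ∈ Finset.range (n1 + 1), bern n2 j y
        * (bern n1 i x * (lane2 f R1 c R2 i j : ℝ)) with hS2
      set S3 := ∑ k ∈ Finset.range (n + 1), ∑ j ∈ Finset.range (n2 + 1),
        ∑ i ∈ Finset.range (n1 + 1), bern n k z * (bern n2 j y * (bern n1 i x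
          * (lane3 f R1 R2 cs (rows q l h m (a + 1)) i j k : ℝ))) with hS3
      have h3 : ∑ k ∈ Finset.range (n + 1), ∑ j ∈ Finset.range (n2 + 1),
          ∑ i ∈ Finset.range (n1 + 1), bern n k z
          * (bern n2 j y * (bern n1 i x * ((lane2 f R1 c R2 i j * tau (row q l h m a) k
            + lane3 f R1 R2 cs (rows q l h m (a + 1)) i j k : ℕ) : ℝ)))
          = (∑ k ∈ Finset.range (n + 1), bern n k z * (tau (row q l h m a) k : ℝ)) * S2
            + S3 := by
        rw [hS2, hS3, Finset.sum_mul, ← Finset.sum_add_distrib]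
        apply Finset.sum_congr rfl
        intro k _
        rw [Finset.mul_sum, ← Finset.sum_add_distrib]
        apply Finset.sum_congr rfl
        intro j _
        rw [Finset.mul_sum, ← Finset.sum_add_distrib]
        apply Finset.sum_congr rfl
        intro i _
        push_cast
        ring
      have e0 : ((n.factorial : ℝ) * ((q * U) ^ a * (q : ℝ) ^ m) * S2 + S3) * q1 * q2 * q
          = (n.factorial : ℝ) * ((q * U) ^ a * (q : ℝ) ^ m) * q * (S2 * q1 * q2)
          + S3 * q1 * q2 * q := by ring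
      rw [h3, h2, e0, g1, g0, hκ2]
      have e : n + 1 = m + (a + 1) := by omega
      rw [e]
      ring

end Pool.Agent.BPK
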