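import Pool.Agent.BPK.ExMain
import Pool.Agent.SDL.ZBuild

/-!
The expressions of the checker as a type of expressions for the three point function.
-/

namespace Pool.Agent.BPK

/-- Operations on expressions. -/
def exOps : Pool.Agent.SDL.EOps Ex where
  cst z := Ex.c z.toNat (-z).toNat
  ad := Ex.add
  mu := Ex.mul

theorem exOps_isEv (x y z : ℝ) : exOps.IsEv (Ex.evR x y z) where
  cst n := by
    change ((n.toNat : ℕ) : ℝ) - (((-n).toNat : ℕ) : ℝ) = (n : ℝ)
    have h : ((n.toNat : ℤ)) - (((-n).toNat : ℤ)) = n := by omega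
    exact_mod_cast h
  ad _ _ := rfl
  mu _ _ := rfl

end Pool.Agent.BPK
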