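import Pool.Agent.BPK.Init

/-!
The checker of a disjunction of polynomial inequalities on a box in three variables.
-/

namespace Pool.Agent.BPK

/-- A polynomial with integer coefficients. `C` lists the coefficients: the outer index is the
exponent of the third variable, the innermost index the exponent of the first variable. -/
structure Poly where
  n1 : ℕ
  n2 : ℕ
  n3 : ℕ
  C : List (List (List ℤ))

/-- A box `[l1 / q1, h1 / q1] × [l2 / q2, h2 / q2] × [l3 / q3, h3 / q3]`. -/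
structure Box where
  q1 : ℕ
  l1 : ℕ
  h1 : ℕ
  q2 : ℕ
  l2 : ℕ
  h2 : ℕ
  q3 : ℕ
  l3 : ℕ
  h3 : ℕ

/-- Points of the box. -/
def Box.In (b : Box) (u v t : ℝ) : Prop :=
  ((b.l1 : ℝ) ≤ b.q1 * u ∧ (b.q1 : ℝ) * u ≤ b.h1) ∧ ((b.l2 : ℝ) ≤ b.q2 * v ∧ (b.q2 : ℝ) * v ≤ b.h2)
    ∧ ((b.l3 : ℝ) ≤ b.q3 * t ∧ (b.q3 : ℝ) * t ≤ b.h3)

/-- The value of the polynomial. -/
noncomputable def Poly.ev (p : Poly) (u v t : ℝ) : ℝ := ev3 (fun z => (z : ℝ)) u v t p.C

/-- length of a list -/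
noncomputable def lenA {α : Type} (L : List α) : ℕ :=
  List.rec (motive := fun _ => ℕ) 0 (fun _ _ ih => Nat.succ ih) L

theorem lenA_eq {α : Type} (L : List α) : lenA L = L.length := by
  induction L with
  | nil => rfl
  | cons a L ih =>
    change lenA L + 1 = _
    rw [ih]
    rfl

/-- conjunction -/
noncomputable def andb (a b : Bool) : Bool :=
  Bool.rec (motive := fun _ => Bool) false b a

theorem andb_true {a b : Bool} (h : andb a b = true) : a = true ∧ b = true := by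
  cases a with
  | false => exact absurd h (by simp [andb])
  | true => exact ⟨rfl, h⟩

/-- universal quantifier over a list -/
noncomputable def allb {α : Type} (f : α → Bool) (L : List α) : Bool :=
  List.rec (motive := fun _ => Bool) true (fun a _ ih => andb (f a) ih) L

theorem allb_true {α : Type} (f : α → Bool) (L : List α) (h : allb f L = true) :
    ∀ a ∈ L, f a = true := by
  induction L with
  | nil => intro a ha; simp at ha
  | cons b L ih =>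
    intro a ha
    have h1 : andb (f b) (allb f L) = true := h
    obtain ⟨h2, h3⟩ := andb_true h1
    rcases List.mem_cons.mp ha with h4 | h4
    · rw [h4]; exact h2
    · exact ih h3 a h4

/-- shape check -/
noncomputable def shp (m1 m2 m3 : ℕ) (C : List (List (List ℤ))) : Bool :=
  andb (Nat.ble (lenA C) m3) (allb (fun c => andb (Nat.ble (lenA c) m2)
    (allb (fun d => Nat.ble (lenA d) m1) c)) C)

theorem shp_spec (m1 m2 m3 : ℕ) (C : List (List (List ℤ))) (h : shp m1 m2 m3 C = true) :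
    Shape3 m1 m2 m3 C := by
  obtain ⟨h1, h2⟩ := andb_true h
  rw [lenA_eq] at h1
  refine ⟨Nat.le_of_ble_eq_true h1, ?_⟩
  intro c hc
  obtain ⟨h3, h4⟩ := andb_true (allb_true _ _ h2 c hc)
  rw [lenA_eq] at h3
  refine ⟨Nat.le_of_ble_eq_true h3, ?_⟩
  intro d hd
  have h5 := allb_true _ _ h4 d hd
  rw [lenA_eq] at h5
  exact Nat.le_of_ble_eq_true h5

/-- The bounds of the positive and of the negative part. -/
noncomputable def bnds (OFF : ℕ) (C : List (List (List ℤ))) (S1 S2 S3 : List ℕ) : Bool :=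
  andb (Nat.ble (Nat.succ (dot3 ipos S1 S2 C S3)) OFF) (Nat.ble (dot3 ineg S1 S2 C S3) OFF)

/-- The initial data of one polynomial. -/
noncomputable def initP (W : ℕ) (b : Box) (p : Poly) (k : KC → ℕ → Bool) : Bool :=
  andb (shp (Nat.succ p.n1) (Nat.succ p.n2) (Nat.succ p.n3) p.C)
    (fcB (Nat.pow 2 (Nat.sub W 2)) (fun OFF =>
      mkP b.q1 b.l1 b.h1 1 (Nat.succ p.n1) 0 (fun S1 =>
      mkP b.q2 b.l2 b.h2 1 (Nat.succ p.n2) 0 (fun S2 =>
      mkP b.q3 b.l3 b.h3 1 (Nat.succ p.n3) 0 (fun S3 =>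
      andb (bnds OFF p.C S1 S2 S3)
        (kcF W p.n1 p.n2 p.n3 (fun K =>
          fcB (Nat.pow 2 W) (fun B1 => fcB (Nat.pow 2 K.s2) (fun B2 =>
          fcB (Nat.pow 2 K.s3) (fun B3 =>
          mkP b.q1 b.l1 b.h1 B1 (Nat.succ p.n1) 0 (fun P1 =>
          mkP b.q2 b.l2 b.h2 B2 (Nat.succ p.n2) 0 (fun P2 =>
          mkP b.q3 b.l3 b.h3 B3 (Nat.succ p.n3) 0 (fun P3 =>
          fcB (Nat.sub (Nat.add (Nat.mul OFF K.O) (dot3 ipos P1 P2 p.C P3))
            (dot3 ineg P1 P2 p.C P3)) (fun X => k K X))))))))))))))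

/-- initial data of all polynomials -/
noncomputable def initAll (W : ℕ) (b : Box) (ps : List Poly) (k : List KC → List ℕ → Bool) :
    Bool :=
  List.rec (motive := fun _ => (List KC → List ℕ → Bool) → Bool) (fun k => k [] [])
    (fun p _ ih k => initP W b p (fun K X => ih (fun Ks L => k (K :: Ks) (X :: L)))) ps k

/-- The check: on the box one of the polynomials is positive at every point. -/
noncomputable def check (W fuel : ℕ) (b : Box) (ps : List Poly) (cert : ℕ) : Bool :=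
  initAll W b ps (fun Ks L => go Ks fuel L cert (fun _ => true))

/-- the lanes of the initial array -/
noncomputable def x0 (W : ℕ) (p : Poly) (R1 R2 R3 : List (List ℕ)) (l : ℕ) : ℕ :=
  if l < NN p.n1 p.n2 p.n3 then
    2 ^ (W - 2) + lanes p.n1 p.n2 p.n3 ipos p.C R1 R2 R3 l
      - lanes p.n1 p.n2 p.n3 ineg p.C R1 R2 R3 l
  else 0

theorem V_lin (n1 n2 n3 : ℕ) (a : ℝ) (b c : ℕ → ℝ) (x y z : ℝ) :
    V n1 n2 n3 (fun l => a + b l - c l) x y z
      = a + V n1 n2 n3 b x y z - V n1 n2 n3 c x y z := by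
  have h : V n1 n2 n3 (fun l => a + b l - c l) x y z
      = V n1 n2 n3 (fun _ => a) x y z + V n1 n2 n3 b x y z - V n1 n2 n3 c x y z := by
    unfold V
    rw [← Finset.sum_add_distrib, ← Finset.sum_sub_distrib]
    apply Finset.sum_congr rfl
    intro k _
    rw [← Finset.sum_add_distrib, ← Finset.sum_sub_distrib]
    apply Finset.sum_congr rfl
    intro j _
    rw [← Finset.sum_add_distrib, ← Finset.sum_sub_distrib]
    apply Finset.sum_congr rfl
    intro i _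
    ring
  rw [h, V_const]

/-- value of the lanes -/
theorem V_lanes (n1 n2 n3 : ℕ) (f : ℤ → ℕ) (C : List (List (List ℤ)))
    (R1 R2 R3 : List (List ℕ)) (x y z : ℝ) :
    V n1 n2 n3 (fun l => (lanes n1 n2 n3 f C R1 R2 R3 l : ℝ)) x y z
      = ∑ k ∈ Finset.range (n3 + 1), ∑ j ∈ Finset.range (n2 + 1), ∑ i ∈ Finset.range (n1 + 1),
      bern n3 k z * (bern n2 j y * (bern n1 i x * (lane3 f R1 R2 C R3 i j k : ℝ))) := by
  unfold V
  apply Finset.sum_congr rfl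
  intro k hk
  apply Finset.sum_congr rfl
  intro j hj
  apply Finset.sum_congr rfl
  intro i hi
  have h1 : i < n1 + 1 := Finset.mem_range.mp hi
  have h2 : j < n2 + 1 := Finset.mem_range.mp hj
  have h3 : k < n3 + 1 := Finset.mem_range.mp hk
  simp only [lanes]
  rw [co1 n1 n2 i j k h1, co2 n1 n2 i j k h1 h2, co3 n1 n2 n3 i j k h1 h2 h3]

theorem initP_spec (W : ℕ) (hW : 2 ≤ W) (b : Box) (p : Poly) (k : KC → ℕ → Bool)
    (h : initP W b p k = true) :
    Shape3 (p.n1 + 1) (p.n2 + 1) (p.n3 + 1) p.C ∧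
    ∃ x : ℕ → ℕ, k (kc W p.n1 p.n2 p.n3) (pk W (NN p.n1 p.n2 p.n3) x) = true
      ∧ (∀ l, x l < 2 ^ (W - 1)) ∧ (∀ l, NN p.n1 p.n2 p.n3 ≤ l → x l = 0)
      ∧ (∀ q : ℝ × ℝ × ℝ, VN p.n1 p.n2 p.n3 x q = ((2 ^ (W - 2) : ℕ) : ℝ)
        + V p.n1 p.n2 p.n3 (fun l => (lanes p.n1 p.n2 p.n3 ipos p.C
            (rows b.q1 b.l1 b.h1 (p.n1 + 1) 0) (rows b.q2 b.l2 b.h2 (p.n2 + 1) 0)
            (rows b.q3 b.l3 b.h3 (p.n3 + 1) 0) l : ℝ)) q.1 q.2.1 q.2.2
        - V p.n1 p.n2 p.n3 (fun l => (lanes p.n1 p.n2 p.n3 ineg p.C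
            (rows b.q1 b.l1 b.h1 (p.n1 + 1) 0) (rows b.q2 b.l2 b.h2 (p.n2 + 1) 0)
            (rows b.q3 b.l3 b.h3 (p.n3 + 1) 0) l : ℝ)) q.1 q.2.1 q.2.2) := by
  obtain ⟨h1, h2⟩ := andb_true h
  refine ⟨shp_spec _ _ _ _ h1, ?_⟩
  simp only [fcB_eq, mkP_eq, kcF_eq] at h2
  obtain ⟨h3, h4⟩ := andb_true h2
  clear h2 h1 h
  set R1 := rows b.q1 b.l1 b.h1 (p.n1 + 1) 0 with hR1
  set R2 := rows b.q2 b.l2 b.h2 (p.n2 + 1) 0 with hR2
  set R3 := rows b.q3 b.l3 b.h3 (p.n3 + 1) 0 with hR3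
  have r1 : ∀ r ∈ R1, r.length = p.n1 + 1 := rows_length _ _ _ _ _ _ rfl
  have r2 : ∀ r ∈ R2, r.length = p.n2 + 1 := rows_length _ _ _ _ _ _ rfl
  have r3 : ∀ r ∈ R3, r.length = p.n3 + 1 := rows_length _ _ _ _ _ _ rfl
  obtain ⟨h5, h6⟩ := andb_true h3
  have h5' : dot3 ipos (R1.map (fun r => pvw 1 r 0)) (R2.map (fun r => pvw 1 r 0)) p.C
      (R3.map (fun r => pvw 1 r 0)) + 1 ≤ 2 ^ (W - 2) := Nat.le_of_ble_eq_true h5
  have h6' : dot3 ineg (R1.map (fun r => pvw 1 r 0)) (R2.map (fun r => pvw 1 r 0)) p.C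
      (R3.map (fun r => pvw 1 r 0)) ≤ 2 ^ (W - 2) := Nat.le_of_ble_eq_true h6
  rw [dot3_one p.n1 p.n2 p.n3 _ _ R1 R2 R3 r1 r2 r3] at h5' h6'
  have b1 : ∀ l, l < NN p.n1 p.n2 p.n3 → lanes p.n1 p.n2 p.n3 ipos p.C R1 R2 R3 l
      < 2 ^ (W - 2) := by
    intro l hl
    have := Finset.single_le_sum (f := fun l => lanes p.n1 p.n2 p.n3 ipos p.C R1 R2 R3 l)
      (fun i _ => Nat.zero_le _) (Finset.mem_range.mpr hl)
    omega
  have b2 : ∀ l, l < NN p.n1 p.n2 p.n3 → lanes p.n1 p.n2 p.n3 ineg p.C R1 R2 R3 l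
      ≤ 2 ^ (W - 2) := by
    intro l hl
    have := Finset.single_le_sum (f := fun l => lanes p.n1 p.n2 p.n3 ineg p.C R1 R2 R3 l)
      (fun i _ => Nat.zero_le _) (Finset.mem_range.mpr hl)
    omega
  have hK := kc_ok W p.n1 p.n2 p.n3 (by omega)
  refine ⟨x0 W p R1 R2 R3, ?_, ?_, ?_, ?_⟩
  · have e1 : dot3 ipos (R1.map (fun r => pvw (2 ^ W) r 0))
        (R2.map (fun r => pvw (2 ^ (kc W p.n1 p.n2 p.n3).s2) r 0)) p.C
        (R3.map (fun r => pvw (2 ^ (kc W p.n1 p.n2 p.n3).s3) r 0))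
        = pk W (NN p.n1 p.n2 p.n3) (lanes p.n1 p.n2 p.n3 ipos p.C R1 R2 R3) := by
      rw [hK.s2, hK.s3]
      exact dot3_pk W p.n1 p.n2 p.n3 ipos p.C R1 R2 R3 r1 r2 r3
    have e2 : dot3 ineg (R1.map (fun r => pvw (2 ^ W) r 0))
        (R2.map (fun r => pvw (2 ^ (kc W p.n1 p.n2 p.n3).s2) r 0)) p.C
        (R3.map (fun r => pvw (2 ^ (kc W p.n1 p.n2 p.n3).s3) r 0))
        = pk W (NN p.n1 p.n2 p.n3) (lanes p.n1 p.n2 p.n3 ineg p.C R1 R2 R3) := by
      rw [hK.s2, hK.s3]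
      exact dot3_pk W p.n1 p.n2 p.n3 ineg p.C R1 R2 R3 r1 r2 r3
    have e3 : 2 ^ (W - 2) * (kc W p.n1 p.n2 p.n3).O
        = pk W (NN p.n1 p.n2 p.n3) (fun _ => 2 ^ (W - 2)) := by
      rw [hK.O]
      unfold pk
      rw [Finset.mul_sum]
      apply Finset.sum_congr rfl
      intro l _
      ring
    have h4' : k (kc W p.n1 p.n2 p.n3) (2 ^ (W - 2) * (kc W p.n1 p.n2 p.n3).O
        + dot3 ipos (R1.map (fun r => pvw (2 ^ W) r 0))
        (R2.map (fun r => pvw (2 ^ (kc W p.n1 p.n2 p.n3).s2) r 0)) p.C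
        (R3.map (fun r => pvw (2 ^ (kc W p.n1 p.n2 p.n3).s3) r 0))
        - dot3 ineg (R1.map (fun r => pvw (2 ^ W) r 0))
        (R2.map (fun r => pvw (2 ^ (kc W p.n1 p.n2 p.n3).s2) r 0)) p.C
        (R3.map (fun r => pvw (2 ^ (kc W p.n1 p.n2 p.n3).s3) r 0))) = true := h4
    rw [e1, e2, e3, pk_add] at h4'
    have e4 : pk W (NN p.n1 p.n2 p.n3) (fun l => 2 ^ (W - 2)
        + lanes p.n1 p.n2 p.n3 ipos p.C R1 R2 R3 l)
        = pk W (NN p.n1 p.n2 p.n3) (x0 W p R1 R2 R3)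
          + pk W (NN p.n1 p.n2 p.n3) (lanes p.n1 p.n2 p.n3 ineg p.C R1 R2 R3) := by
      rw [pk_add]
      apply pk_congr
      intro l hl
      unfold x0
      rw [if_pos hl]
      have := b2 l hl
      omega
    rw [e4, Nat.add_sub_cancel] at h4'
    exact h4'
  · intro l
    have e : 2 ^ (W - 1) = 2 ^ (W - 2) + 2 ^ (W - 2) := by
      obtain ⟨V, rfl⟩ : ∃ V, W = V + 2 := ⟨W - 2, by omega⟩
      have e1 : V + 2 - 1 = V + 1 := by omega
      have e2 : V + 2 - 2 = V := by omega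
      rw [e1, e2]
      ring
    have hp : 0 < 2 ^ (W - 2) := by positivity
    unfold x0
    split_ifs with hl
    · have := b1 l hl
      omega
    · omega
  · intro l hl
    unfold x0
    rw [if_neg (by omega)]
  · intro q
    unfold VN
    rw [← V_lin]
    unfold V
    apply Finset.sum_congr rfl
    intro k hk
    apply Finset.sum_congr rfl
    intro j hj
    apply Finset.sum_congr rfl
    intro i hi
    have h1 : i < p.n1 + 1 := Finset.mem_range.mp hi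
    have h2 : j < p.n2 + 1 := Finset.mem_range.mp hj
    have h3 : k < p.n3 + 1 := Finset.mem_range.mp hk
    have hl := idx_lt p.n1 p.n2 p.n3 i j k h1 h2 h3
    have h7 := b2 _ hl
    simp only [x0]
    rw [if_pos hl, Nat.cast_sub (by omega)]
    push_cast
    ring

/-- The meaning of the items. -/
def Sem (W : ℕ) (b : Box) : List Poly → List (ℕ → ℕ) → Prop
  | [], [] => True
  | p :: ps, x :: xs => (Shape3 (p.n1 + 1) (p.n2 + 1) (p.n3 + 1) p.C ∧
      ∀ q : ℝ × ℝ × ℝ, VN p.n1 p.n2 p.n3 x q = ((2 ^ (W - 2) : ℕ) : ℝ)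
        + V p.n1 p.n2 p.n3 (fun l => (lanes p.n1 p.n2 p.n3 ipos p.C
            (rows b.q1 b.l1 b.h1 (p.n1 + 1) 0) (rows b.q2 b.l2 b.h2 (p.n2 + 1) 0)
            (rows b.q3 b.l3 b.h3 (p.n3 + 1) 0) l : ℝ)) q.1 q.2.1 q.2.2
        - V p.n1 p.n2 p.n3 (fun l => (lanes p.n1 p.n2 p.n3 ineg p.C
            (rows b.q1 b.l1 b.h1 (p.n1 + 1) 0) (rows b.q2 b.l2 b.h2 (p.n2 + 1) 0)
            (rows b.q3 b.l3 b.h3 (p.n3 + 1) 0) l : ℝ)) q.1 q.2.1 q.2.2) ∧ Sem W b ps xs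
  | _, _ => False

theorem initAll_spec (W : ℕ) (hW : 2 ≤ W) (b : Box) (ps : List Poly) :
    ∀ k : List KC → List ℕ → Bool, initAll W b ps k = true →
    ∃ Ks L xs, k Ks L = true ∧ Rel W (ps.map (fun p => (p.n1, p.n2, p.n3))) Ks L xs
      ∧ Sem W b ps xs := by
  induction ps with
  | nil =>
    intro k h
    exact ⟨[], [], [], h, trivial, trivial⟩
  | cons p ps ih =>
    intro k h
    have h1 : initP W b p (fun K X => initAll W b ps (fun Ks L => k (K :: Ks) (X :: L)))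
        = true := h
    obtain ⟨hs, x, h2, h3, h4, h5⟩ := initP_spec W hW b p _ h1
    obtain ⟨Ks, L, xs, h6, h7, h8⟩ := ih _ h2
    exact ⟨_ :: Ks, _ :: L, x :: xs, h6, ⟨kc_ok W _ _ _ (by omega), rfl, h3, h4, h7⟩,
      ⟨hs, h5⟩, h8⟩

theorem exists_par (l h : ℕ) (X : ℝ) (h1 : (l : ℝ) ≤ X) (h2 : X ≤ h) :
    ∃ x : ℝ, (0 ≤ x ∧ x ≤ 1) ∧ (l : ℝ) * (1 - x) + h * x = X := by
  by_cases hlh : (l : ℝ) = h
  · refine ⟨0, ⟨le_refl _, by norm_num⟩, ?_⟩
    rw [← hlh] at h2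
    have : X = l := le_antisymm h2 h1
    rw [this]
    ring
  · have hpos : (0 : ℝ) < h - l := by
      have h3 : (l : ℝ) ≤ h := le_trans h1 h2
      have h4 := lt_of_le_of_ne h3 hlh
      linarith
    refine ⟨(X - l) / (h - l), ⟨by apply div_nonneg <;> linarith, ?_⟩, ?_⟩
    · rw [div_le_one hpos]
      linarith
    · field_simp
      ring

theorem hit_pos (W : ℕ) (b : Box) (hq : 0 < b.q1 ∧ 0 < b.q2 ∧ 0 < b.q3) (ps : List Poly)
    (u v t x y z : ℝ)
    (e1 : (b.l1 : ℝ) * (1 - x) + b.h1 * x = b.q1 * u)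
    (e2 : (b.l2 : ℝ) * (1 - y) + b.h2 * y = b.q2 * v)
    (e3 : (b.l3 : ℝ) * (1 - z) + b.h3 * z = b.q3 * t) :
    ∀ xs, Sem W b ps xs → Hit ((2 ^ (W - 2) + 1 : ℕ) : ℝ)
      (ps.map (fun p => (p.n1, p.n2, p.n3))) xs (x, y, z) → ∃ p ∈ ps, 0 < p.ev u v t := by
  induction ps with
  | nil =>
    intro xs _ h
    cases xs with
    | nil => exact absurd h (by simp [Hit])
    | cons a xs => exact absurd h (by simp [Hit])
  | cons p ps ih =>
    intro xs hS hH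
    match xs, hS with
    | w :: xs, hS =>
      obtain ⟨⟨hsh, h1⟩, h2⟩ := hS
      rcases hH with hH | hH
      · refine ⟨p, List.mem_cons_self, ?_⟩
        rw [h1, V_lanes, V_lanes] at hH
        have vp := val3 ipos _ _ b.q3 b.l3 b.h3 p.n3 p.n1 p.n2 x y z u v t _ _ e3 b.q1 b.l1 b.h1
          b.q2 b.l2 b.h2 rfl rfl rfl rfl e1 e2 p.C (p.n3 + 1) 0 rfl hsh
        have vn := val3 ineg _ _ b.q3 b.l3 b.h3 p.n3 p.n1 p.n2 x y z u v t _ _ e3 b.q1 b.l1 b.h1
          b.q2 b.l2 b.h2 rfl rfl rfl rfl e1 e2 p.C (p.n3 + 1) 0 rfl hsh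
        unfold Poly.ev
        rw [ev3_sub (fun z => (z : ℝ)) (fun z => (ipos z : ℝ)) (fun z => (ineg z : ℝ))
          ipos_sub_ineg]
        simp only at hH
        set A := ∑ k ∈ Finset.range (p.n3 + 1), ∑ j ∈ Finset.range (p.n2 + 1),
          ∑ i ∈ Finset.range (p.n1 + 1), bern p.n3 k z * (bern p.n2 j y * (bern p.n1 i x
            * (lane3 ipos (rows b.q1 b.l1 b.h1 (p.n1 + 1) 0) (rows b.q2 b.l2 b.h2 (p.n2 + 1) 0)
              p.C (rows b.q3 b.l3 b.h3 (p.n3 + 1) 0) i j k : ℝ))) with hA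
        set A' := ∑ k ∈ Finset.range (p.n3 + 1), ∑ j ∈ Finset.range (p.n2 + 1),
          ∑ i ∈ Finset.range (p.n1 + 1), bern p.n3 k z * (bern p.n2 j y * (bern p.n1 i x
            * (lane3 ineg (rows b.q1 b.l1 b.h1 (p.n1 + 1) 0) (rows b.q2 b.l2 b.h2 (p.n2 + 1) 0)
              p.C (rows b.q3 b.l3 b.h3 (p.n3 + 1) 0) i j k : ℝ))) with hA'
        have hAA : (1 : ℝ) ≤ A - A' := by
          push_cast at hH
          linarith
        obtain ⟨q1, q2, q3⟩ := hq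
        have q1' : (0 : ℝ) < b.q1 := by exact_mod_cast q1
        have q2' : (0 : ℝ) < b.q2 := by exact_mod_cast q2
        have q3' : (0 : ℝ) < b.q3 := by exact_mod_cast q3
        have f1 : (0 : ℝ) < (p.n1.factorial : ℝ) := by exact_mod_cast Nat.factorial_pos _
        have f2 : (0 : ℝ) < (p.n2.factorial : ℝ) := by exact_mod_cast Nat.factorial_pos _
        have f3 : (0 : ℝ) < (p.n3.factorial : ℝ) := by exact_mod_cast Nat.factorial_pos _
        have hL : 0 < (A - A') * b.q1 * b.q2 * b.q3 := by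
          have : (0 : ℝ) < A - A' := by linarith
          positivity
        have hR : (A - A') * b.q1 * b.q2 * b.q3
            = (p.n1.factorial : ℝ) * (b.q1 : ℝ) ^ (p.n1 + 1)
              * ((p.n2.factorial : ℝ) * (b.q2 : ℝ) ^ (p.n2 + 1))
              * ((p.n3.factorial : ℝ) * (b.q3 : ℝ) ^ (p.n3 + 1))
              * (ev3 (fun z => (ipos z : ℝ)) u v t p.C
                - ev3 (fun z => (ineg z : ℝ)) u v t p.C) := by
          have : (A - A') * b.q1 * b.q2 * b.q3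
              = A * b.q1 * b.q2 * b.q3 - A' * b.q1 * b.q2 * b.q3 := by ring
          rw [this, vp, vn]
          ring
        rw [hR] at hL
        exact (pos_iff_pos_of_mul_pos hL).mp (by positivity)
      · obtain ⟨p', hp', h3⟩ := ih xs h2 hH
        exact ⟨p', List.mem_cons_of_mem _ hp', h3⟩

/-- Main theorem: a successful check shows that at every point of the box one of the
polynomials is positive. -/
theorem check_spec (W fuel : ℕ) (b : Box) (ps : List Poly) (cert : ℕ) (hW : 2 ≤ W)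
    (hq : 0 < b.q1 ∧ 0 < b.q2 ∧ 0 < b.q3) (h : check W fuel b ps cert = true)
    (u v t : ℝ) (hb : b.In u v t) : ∃ p ∈ ps, 0 < p.ev u v t := by
  obtain ⟨Ks, L, xs, h1, h2, h3⟩ := initAll_spec W hW b ps _ h
  obtain ⟨h4, _⟩ := go_spec W hW _ Ks fuel L xs cert _ h2 h1
  obtain ⟨⟨a1, a2⟩, ⟨b1, b2⟩, ⟨c1, c2⟩⟩ := hb
  obtain ⟨x, hx, e1⟩ := exists_par b.l1 b.h1 _ a1 a2
  obtain ⟨y, hy, e2⟩ := exists_par b.l2 b.h2 _ b1 b2
  obtain ⟨z, hz, e3⟩ := exists_par b.l3 b.h3 _ c1 c2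
  exact hit_pos W b hq ps u v t x y z e1 e2 e3 xs h3 (h4 (x, y, z) ⟨hx, hy, hz⟩)

end Pool.Agent.BPK
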