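import Mathlib

/-!
Packing of a vector of small natural numbers (lanes of `W` bits) into one natural number,
and lane-wise operations with a constant number of arithmetic operations on big numbers.
-/

namespace Pool.Agent.BPK

/-- The packed number with lanes `x 0, x 1, ...` in base `2 ^ W`. -/
def pk (W : ℕ) (N : ℕ) (x : ℕ → ℕ) : ℕ := ∑ l ∈ Finset.range N, x l * (2 ^ W) ^ l

theorem pk_zero (W : ℕ) (x : ℕ → ℕ) : pk W 0 x = 0 := by
  simp [pk]

theorem pk_succ_last (W N : ℕ) (x : ℕ → ℕ) :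
    pk W (N + 1) x = pk W N x + x N * (2 ^ W) ^ N := by
  unfold pk
  rw [Finset.sum_range_succ]

theorem pk_succ (W N : ℕ) (x : ℕ → ℕ) :
    pk W (N + 1) x = 2 ^ W * pk W N (fun l => x (l + 1)) + x 0 := by
  unfold pk
  rw [Finset.sum_range_succ', Finset.mul_sum]
  simp only [pow_zero, mul_one]
  congr 1
  apply Finset.sum_congr rfl
  intro l _
  ring

theorem pk_add (W N : ℕ) (x y : ℕ → ℕ) :
    pk W N x + pk W N y = pk W N (fun l => x l + y l) := by
  unfold pk
  rw [← Finset.sum_add_distrib]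
  apply Finset.sum_congr rfl
  intro l _
  ring

theorem pk_congr (W N : ℕ) (x y : ℕ → ℕ) (h : ∀ l, l < N → x l = y l) :
    pk W N x = pk W N y := by
  unfold pk
  apply Finset.sum_congr rfl
  intro l hl
  rw [h l (Finset.mem_range.mp hl)]

theorem pk_lt (W N : ℕ) (x : ℕ → ℕ) (h : ∀ l, x l < 2 ^ W) : pk W N x < (2 ^ W) ^ N := by
  induction N with
  | zero => simp [pk]
  | succ n ih =>
    rw [pk_succ_last]
    have h1 : x n + 1 ≤ 2 ^ W := h n
    calc pk W n x + x n * (2 ^ W) ^ n < (2 ^ W) ^ n + x n * (2 ^ W) ^ n := by omega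
      _ = (x n + 1) * (2 ^ W) ^ n := by ring
      _ ≤ 2 ^ W * (2 ^ W) ^ n := Nat.mul_le_mul_right _ h1
      _ = (2 ^ W) ^ (n + 1) := by ring

/-- shift by one lane to the right -/
theorem pk_shr_one (W N : ℕ) (x : ℕ → ℕ) (h : ∀ l, x l < 2 ^ W) (h0 : ∀ l, N ≤ l → x l = 0) :
    pk W N x / 2 ^ W = pk W N (fun l => x (l + 1)) := by
  cases N with
  | zero => simp [pk]
  | succ n =>
    rw [pk_succ, Nat.mul_add_div (by positivity), Nat.div_eq_of_lt (h 0), add_zero, pk_succ_last]
    rw [h0 (n + 1) (by omega)]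
    ring

theorem pk_shr (W N s : ℕ) (x : ℕ → ℕ) (h : ∀ l, x l < 2 ^ W) (h0 : ∀ l, N ≤ l → x l = 0) :
    pk W N x / (2 ^ W) ^ s = pk W N (fun l => x (l + s)) := by
  induction s with
  | zero => simp
  | succ s ih =>
    rw [pow_succ, ← Nat.div_div_eq_div_mul, ih, pk_shr_one W N _ (fun l => h _)
      (fun l hl => h0 _ (by omega))]
    apply pk_congr
    intro l _
    congr 1
    omega

theorem land_split (W a A m M : ℕ) (ha : a < 2 ^ W) (hm : m < 2 ^ W) :
    Nat.land (2 ^ W * A + a) (2 ^ W * M + m) = 2 ^ W * Nat.land A M + Nat.land a m := by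
  change (2 ^ W * A + a) &&& (2 ^ W * M + m) = 2 ^ W * (A &&& M) + (a &&& m)
  apply Nat.eq_of_testBit_eq
  intro i
  have ham : (a &&& m) < 2 ^ W := lt_of_le_of_lt Nat.and_le_left ha
  rw [Nat.testBit_and, Nat.testBit_two_pow_mul_add A ha, Nat.testBit_two_pow_mul_add M hm,
    Nat.testBit_two_pow_mul_add (A &&& M) ham]
  by_cases hi : i < W
  · simp [hi]
  · simp [hi]

theorem pk_land (W N : ℕ) (x m : ℕ → ℕ) (hx : ∀ l, x l < 2 ^ W) (hm : ∀ l, m l < 2 ^ W) :
    Nat.land (pk W N x) (pk W N m) = pk W N (fun l => Nat.land (x l) (m l)) := by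
  induction N generalizing x m with
  | zero => simp [pk]
  | succ n ih =>
    rw [pk_succ, pk_succ, land_split W _ _ _ _ (hx 0) (hm 0), ih _ _ (fun l => hx _)
      (fun l => hm _), pk_succ]

theorem land_full (W a : ℕ) (ha : a < 2 ^ W) : Nat.land a (2 ^ W - 1) = a := by
  change a &&& (2 ^ W - 1) = a
  rw [Nat.and_two_pow_sub_one_eq_mod]
  exact Nat.mod_eq_of_lt ha

theorem land_zero' (a : ℕ) : Nat.land a 0 = 0 := by
  change a &&& 0 = 0
  simp

theorem land_one' (a : ℕ) : Nat.land a 1 = a % 2 := by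
  change a &&& 1 = a % 2
  simp [Nat.and_one_is_mod]

/-- the mask of a set of lanes -/
def msk (W N : ℕ) (S : ℕ → Bool) : ℕ := pk W N (fun l => if S l = true then 2 ^ W - 1 else 0)

theorem pk_msk (W N : ℕ) (x : ℕ → ℕ) (S : ℕ → Bool) (hx : ∀ l, x l < 2 ^ W) :
    Nat.land (pk W N x) (msk W N S) = pk W N (fun l => if S l = true then x l else 0) := by
  unfold msk
  rw [pk_land W N x _ hx]
  · apply pk_congr
    intro l _
    by_cases h : S l = true
    · simp only [h, if_true]
      exact land_full W _ (hx l)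
    · simp only [h]
      exact land_zero' _
  · intro l
    have : 0 < 2 ^ W := by positivity
    split_ifs
    · omega
    · omega

/-- halving of all lanes, rounding down -/
theorem pk_half (W N : ℕ) (x : ℕ → ℕ) (hW : 0 < W) (hx : ∀ l, x l < 2 ^ W) :
    (pk W N x - Nat.land (pk W N x) (pk W N (fun _ => 1))) / 2 = pk W N (fun l => x l / 2) := by
  have h1 : (1 : ℕ) < 2 ^ W := Nat.one_lt_two_pow (by omega)
  rw [pk_land W N x _ hx (fun _ => h1)]
  have e1 : pk W N (fun l => Nat.land (x l) 1) = pk W N (fun l => x l % 2) := by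
    apply pk_congr
    intro l _
    exact land_one' _
  rw [e1]
  have e2 : pk W N x = pk W N (fun l => x l / 2) + pk W N (fun l => x l / 2)
      + pk W N (fun l => x l % 2) := by
    rw [pk_add, pk_add]
    apply pk_congr
    intro l _
    omega
  have e3 : pk W N x - pk W N (fun l => x l % 2) = 2 * pk W N (fun l => x l / 2) := by
    omega
  rw [e3]
  omega

/-- shift to the left by `t` lanes -/
theorem pk_shl (W N t : ℕ) (x : ℕ → ℕ) (h : ∀ l, N ≤ l + t → x l = 0) :
    pk W N x * (2 ^ W) ^ t = pk W N (fun l => if t ≤ l then x (l - t) else 0) := by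
  by_cases ht : N ≤ t
  · have e1 : pk W N x = 0 := by
      unfold pk
      apply Finset.sum_eq_zero
      intro l hl
      rw [h l (by omega)]
      ring
    rw [e1, zero_mul]
    symm
    unfold pk
    apply Finset.sum_eq_zero
    intro l hl
    have : l < N := Finset.mem_range.mp hl
    have h2 : ¬ t ≤ l := by omega
    simp [h2]
  · push Not at ht
    obtain ⟨M, rfl⟩ : ∃ M, N = M + t := ⟨N - t, by omega⟩
    have e1 : pk W (M + t) x = pk W M x := by
      unfold pk
      rw [Finset.sum_range_add]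
      have : ∑ k ∈ Finset.range t, x (M + k) * (2 ^ W) ^ (M + k) = 0 := by
        apply Finset.sum_eq_zero
        intro k _
        rw [h (M + k) (by omega)]
        ring
      rw [this, add_zero]
    rw [e1]
    unfold pk
    rw [add_comm M t, Finset.sum_range_add, Finset.sum_mul]
    have e2 : ∑ l ∈ Finset.range t, (if t ≤ l then x (l - t) else 0) * (2 ^ W) ^ l = 0 := by
      apply Finset.sum_eq_zero
      intro l hl
      have : l < t := Finset.mem_range.mp hl
      have h2 : ¬ t ≤ l := by omega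
      simp [h2]
    rw [e2, zero_add]
    apply Finset.sum_congr rfl
    intro l _
    have h3 : t ≤ t + l := by omega
    simp only [h3, if_true]
    rw [Nat.add_sub_cancel_left]
    ring

/-- The lane-wise test. -/
theorem pk_test (W N c : ℕ) (x : ℕ → ℕ) (hx : ∀ l, x l + c < 2 ^ (W + 1))
    (h : Nat.land (pk (W + 1) N x + pk (W + 1) N (fun _ => c)) (pk (W + 1) N (fun _ => 2 ^ W))
      = pk (W + 1) N (fun _ => 2 ^ W)) (l : ℕ) (hl : l < N) : 2 ^ W ≤ x l + c := by
  have hW : 2 ^ W < 2 ^ (W + 1) := Nat.pow_lt_pow_right (by norm_num) (by omega)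
  rw [pk_add, pk_land (W + 1) N _ _ hx (fun _ => hW)] at h
  have h1 : Nat.land (x l + c) (2 ^ W) = 2 ^ W := by
    unfold pk at h
    have h2 : ∀ i ∈ Finset.range N, Nat.land (x i + c) (2 ^ W) * (2 ^ (W + 1)) ^ i
        ≤ 2 ^ W * (2 ^ (W + 1)) ^ i := by
      intro i _
      apply Nat.mul_le_mul_right
      exact Nat.and_le_right
    have h3 := (Finset.sum_eq_sum_iff_of_le h2).mp h l (Finset.mem_range.mpr hl)
    exact Nat.eq_of_mul_eq_mul_right (by positivity) h3
  have h4 : Nat.land (x l + c) (2 ^ W) ≤ x l + c := Nat.and_le_left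
  omega

end Pool.Agent.BPK
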