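import Pool.Agent.BPK.Main

/-!
Repacking with narrower lanes (less precision), and the final form of the check.
-/

namespace Pool.Agent.BPK

/-- the repacking loop -/
noncomputable def rpk (M0 W0 e s δ W1 H : ℕ) (k : ℕ → Bool) (m : ℕ) :
    ℕ → ℕ → ℕ → Bool :=
  Nat.rec (motive := fun _ => ℕ → ℕ → ℕ → Bool)
    (fun _ Y _ => fcB Y k)
    (fun _ ih X Y pos =>
      fcB (Nat.shiftRight (Nat.shiftLeft (Nat.land X M0) e) s) (fun z =>
        andb (Nat.ble δ z) (fcB (Nat.sub z δ) (fun y => andb (Nat.ble (Nat.succ y) H)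
          (fcB (Nat.shiftRight X W0) (fun X' =>
            fcB (Nat.add Y (Nat.shiftLeft y pos)) (fun Y' =>
              fcB (Nat.add pos W1) (fun p => ih X' Y' p))))))))
    m

theorem rpk_spec (W0 e s δ W1 H : ℕ) (k : ℕ → Bool) (x : ℕ → ℕ) (hx : ∀ l, x l < 2 ^ W0)
    (m : ℕ) : ∀ j : ℕ,
    rpk (2 ^ W0 - 1) W0 e s δ W1 H k m (pk W0 m (fun l => x (j + l)))
      (pk W1 j (fun l => x l * 2 ^ e / 2 ^ s - δ)) (W1 * j) = true →
    (∀ l, j ≤ l → l < j + m → δ ≤ x l * 2 ^ e / 2 ^ s ∧ x l * 2 ^ e / 2 ^ s - δ < H) ∧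
      k (pk W1 (j + m) (fun l => x l * 2 ^ e / 2 ^ s - δ)) = true := by
  induction m with
  | zero =>
    intro j h
    have h1 : fcB (pk W1 j (fun l => x l * 2 ^ e / 2 ^ s - δ)) k = true := h
    rw [fcB_eq] at h1
    refine ⟨?_, h1⟩
    intro l h2 h3
    omega
  | succ m ih =>
    intro j h
    have h1 : fcB (Nat.shiftRight (Nat.shiftLeft (Nat.land (pk W0 (m + 1)
        (fun l => x (j + l))) (2 ^ W0 - 1)) e) s) (fun z => andb (Nat.ble δ z) (fcB (Nat.sub z δ) (fun y => andb (Nat.ble (Nat.succ y) H)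
          (fcB (Nat.shiftRight (pk W0 (m + 1) (fun l => x (j + l))) W0) (fun X' =>
            fcB (Nat.add (pk W1 j (fun l => x l * 2 ^ e / 2 ^ s - δ)) (Nat.shiftLeft y (W1 * j)))
              (fun Y' => fcB (Nat.add (W1 * j) W1)
                (fun p => rpk (2 ^ W0 - 1) W0 e s δ W1 H k m X' Y' p)))))))
        = true := h
    simp only [fcB_eq] at h1
    have e0 : pk W0 (m + 1) (fun l => x (j + l))
        = 2 ^ W0 * pk W0 m (fun l => x (j + 1 + l)) + x j := by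
      rw [pk_succ]
      congr 2
      apply pk_congr
      intro l _
      congr 1
      ring
    have e1 : Nat.land (pk W0 (m + 1) (fun l => x (j + l))) (2 ^ W0 - 1) = x j := by
      rw [e0]
      change (2 ^ W0 * pk W0 m (fun l => x (j + 1 + l)) + x j) &&& (2 ^ W0 - 1) = x j
      rw [Nat.and_two_pow_sub_one_eq_mod, Nat.mul_add_mod]
      exact Nat.mod_eq_of_lt (hx j)
    have e2 : Nat.shiftRight (pk W0 (m + 1) (fun l => x (j + l))) W0
        = pk W0 m (fun l => x (j + 1 + l)) := by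
      rw [e0]
      change (2 ^ W0 * pk W0 m (fun l => x (j + 1 + l)) + x j) >>> W0 = _
      rw [Nat.shiftRight_eq_div_pow, Nat.mul_add_div (by positivity),
        Nat.div_eq_of_lt (hx j), add_zero]
    have e3 : Nat.shiftRight (Nat.shiftLeft (x j) e) s = x j * 2 ^ e / 2 ^ s := by
      change (x j <<< e) >>> s = _
      rw [Nat.shiftRight_eq_div_pow, Nat.shiftLeft_eq]
    rw [e1, e2, e3] at h1
    obtain ⟨h2, h3⟩ := andb_true h1
    obtain ⟨h4, h5⟩ := andb_true h3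
    have h2' : δ ≤ x j * 2 ^ e / 2 ^ s := Nat.le_of_ble_eq_true h2
    have h4' : x j * 2 ^ e / 2 ^ s - δ + 1 ≤ H := Nat.le_of_ble_eq_true h4
    have e4 : Nat.add (pk W1 j (fun l => x l * 2 ^ e / 2 ^ s - δ))
        (Nat.shiftLeft (Nat.sub (x j * 2 ^ e / 2 ^ s) δ) (W1 * j))
        = pk W1 (j + 1) (fun l => x l * 2 ^ e / 2 ^ s - δ) := by
      rw [pk_succ_last]
      have : Nat.shiftLeft (Nat.sub (x j * 2 ^ e / 2 ^ s) δ) (W1 * j)
          = (x j * 2 ^ e / 2 ^ s - δ) * (2 ^ W1) ^ j := by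
        change (x j * 2 ^ e / 2 ^ s - δ) <<< (W1 * j) = _
        rw [Nat.shiftLeft_eq, pow_mul]
      rw [this]
      rfl
    have e5 : Nat.add (W1 * j) W1 = W1 * (j + 1) := by
      change W1 * j + W1 = _
      ring
    rw [e4, e5] at h5
    obtain ⟨h6, h7⟩ := ih (j + 1) h5
    have e6 : j + (m + 1) = j + 1 + m := by ring
    rw [e6]
    refine ⟨?_, h7⟩
    intro l hl1 hl2
    by_cases hl : l = j
    · rw [hl]
      exact ⟨h2', by omega⟩
    · exact h6 l (by omega) hl2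

/-- initial data with narrow lanes -/
noncomputable def initR (W0 W1 e : ℕ) (b : Box) (p : Poly) (s : ℕ) (k : KC → ℕ → Bool) :
    Bool :=
  initP W0 b p (fun _ X => kcF W1 p.n1 p.n2 p.n3 (fun K1 =>
    fcB (Nat.sub (Nat.pow 2 W0) 1) (fun M0 =>
    fcB (Nat.sub (Nat.pow 2 (Nat.sub (Nat.add (Nat.sub W0 2) e) s)) (Nat.pow 2 (Nat.sub W1 2)))
    (fun δ =>
    fcB (Nat.pow 2 (Nat.sub W1 1)) (fun H =>
    fcB (Nat.mul (Nat.mul (Nat.succ p.n1) (Nat.succ p.n2)) (Nat.succ p.n3)) (fun N =>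
      andb (Nat.ble (Nat.add s W1) (Nat.add W0 e))
        (rpk M0 W0 e s δ W1 H (fun Y => k K1 Y) N X 0 0)))))))

theorem V_scale (n1 n2 n3 : ℕ) (a d : ℝ) (b : ℕ → ℝ) (x y z : ℝ) :
    V n1 n2 n3 (fun l => b l * a - d) x y z = V n1 n2 n3 b x y z * a - d := by
  have h1 : V n1 n2 n3 (fun l => 0 + (fun l => b l * a) l - (fun _ => d) l) x y z
      = 0 + V n1 n2 n3 (fun l => b l * a) x y z - V n1 n2 n3 (fun _ => d) x y z :=
    V_lin n1 n2 n3 0 _ _ x y z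
  rw [V_const] at h1
  have h2 : V n1 n2 n3 (fun l => b l * a) x y z = V n1 n2 n3 b x y z * a := by
    unfold V
    rw [Finset.sum_mul]
    apply Finset.sum_congr rfl
    intro k _
    rw [Finset.sum_mul]
    apply Finset.sum_congr rfl
    intro j _
    rw [Finset.sum_mul]
    apply Finset.sum_congr rfl
    intro i _
    ring
  rw [h2] at h1
  simp only [zero_add] at h1
  exact h1

theorem initR_spec (W0 W1 e : ℕ) (hW0 : 2 ≤ W0) (hW1 : 2 ≤ W1) (b : Box) (p : Poly) (s : ℕ)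
    (k : KC → ℕ → Bool) (h : initR W0 W1 e b p s k = true) :
    Shape3 (p.n1 + 1) (p.n2 + 1) (p.n3 + 1) p.C ∧
    ∃ y : ℕ → ℕ, k (kc W1 p.n1 p.n2 p.n3) (pk W1 (NN p.n1 p.n2 p.n3) y) = true
      ∧ (∀ l, y l < 2 ^ (W1 - 1)) ∧ (∀ l, NN p.n1 p.n2 p.n3 ≤ l → y l = 0)
      ∧ (∀ q : ℝ × ℝ × ℝ, Cube q → ((2 ^ (W1 - 2) + 1 : ℕ) : ℝ) ≤ VN p.n1 p.n2 p.n3 y q →
        ((2 ^ (W0 - 2) : ℕ) : ℝ) < ((2 ^ (W0 - 2) : ℕ) : ℝ)
        + V p.n1 p.n2 p.n3 (fun l => (lanes p.n1 p.n2 p.n3 ipos p.C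
            (rows b.q1 b.l1 b.h1 (p.n1 + 1) 0) (rows b.q2 b.l2 b.h2 (p.n2 + 1) 0)
            (rows b.q3 b.l3 b.h3 (p.n3 + 1) 0) l : ℝ)) q.1 q.2.1 q.2.2
        - V p.n1 p.n2 p.n3 (fun l => (lanes p.n1 p.n2 p.n3 ineg p.C
            (rows b.q1 b.l1 b.h1 (p.n1 + 1) 0) (rows b.q2 b.l2 b.h2 (p.n2 + 1) 0)
            (rows b.q3 b.l3 b.h3 (p.n3 + 1) 0) l : ℝ)) q.1 q.2.1 q.2.2) := by
  obtain ⟨hs, x, h1, h2, h3, h4⟩ := initP_spec W0 hW0 b p _ h
  refine ⟨hs, ?_⟩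
  simp only [fcB_eq, kcF_eq] at h1
  obtain ⟨h5, h6⟩ := andb_true h1
  have h5' : s + W1 ≤ W0 + e := Nat.le_of_ble_eq_true h5
  have hxx : ∀ l, x l < 2 ^ W0 := by
    intro l
    have h7 := h2 l
    have h8 : 2 ^ (W0 - 1) ≤ 2 ^ W0 := Nat.pow_le_pow_right (by norm_num) (by omega)
    omega
  set N := NN p.n1 p.n2 p.n3 with hN
  set δ := 2 ^ (W0 - 2 + e - s) - 2 ^ (W1 - 2) with hδ
  have h6' : rpk (2 ^ W0 - 1) W0 e s δ W1 (2 ^ (W1 - 1)) (fun Y => k (kc W1 p.n1 p.n2 p.n3) Y) N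
      (pk W0 N x) 0 0 = true := h6
  have e0 : pk W0 N x = pk W0 N (fun l => x (0 + l)) := by
    apply pk_congr
    intro l _
    rw [zero_add]
  have e1 : pk W1 0 (fun l => x l * 2 ^ e / 2 ^ s - δ) = 0 := pk_zero _ _
  have h7 := rpk_spec W0 e s δ W1 (2 ^ (W1 - 1)) (fun Y => k (kc W1 p.n1 p.n2 p.n3) Y) x hxx N 0
  rw [← e0, e1, mul_zero] at h7
  obtain ⟨h8, h9⟩ := h7 h6'
  rw [zero_add] at h9
  have hH : 0 < 2 ^ (W1 - 1) := by positivity
  refine ⟨fun l => if l < N then x l * 2 ^ e / 2 ^ s - δ else 0, ?_, ?_, ?_, ?_⟩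
  · have e2 : pk W1 N (fun l => if l < N then x l * 2 ^ e / 2 ^ s - δ else 0)
        = pk W1 N (fun l => x l * 2 ^ e / 2 ^ s - δ) := by
      apply pk_congr
      intro l hl
      rw [if_pos hl]
    rw [e2]
    exact h9
  · intro l
    by_cases hl : l < N
    · simp only [if_pos hl]
      exact (h8 l (Nat.zero_le _) (by omega)).2
    · simp only [if_neg hl]
      exact hH
  · intro l hl
    have : ¬ l < N := by omega
    simp only [if_neg this]
  · intro q hq h10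
    have h11 : VN p.n1 p.n2 p.n3 (fun l => if l < N then x l * 2 ^ e / 2 ^ s - δ else 0) q
        ≤ VN p.n1 p.n2 p.n3 x q * (2 ^ e / 2 ^ s) - δ := by
      unfold VN
      rw [← V_scale]
      apply V_mono _ _ _ _ _ _ _ _ hq.1 hq.2.1 hq.2.2
      intro l hl
      have hl' : l < N := hl
      simp only [if_pos hl']
      have h12 := (h8 l (Nat.zero_le _) (by omega)).1
      rw [Nat.cast_sub h12]
      have h13 : ((x l * 2 ^ e / 2 ^ s : ℕ) : ℝ) ≤ ((x l * 2 ^ e : ℕ) : ℝ) / ((2 ^ s : ℕ) : ℝ) :=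
        Nat.cast_div_le
      push_cast at h13
      have h14 : (x l : ℝ) * (2 ^ e / 2 ^ s) = (x l : ℝ) * 2 ^ e / 2 ^ s := by ring
      linarith
    rw [← h4 q]
    have hδ' : (δ : ℝ) = 2 ^ (W0 - 2 + e - s) - 2 ^ (W1 - 2) := by
      have h15 : 2 ^ (W1 - 2) ≤ 2 ^ (W0 - 2 + e - s) :=
        Nat.pow_le_pow_right (by norm_num) (by omega)
      rw [hδ, Nat.cast_sub h15]
      push_cast
      ring
    have h16 : (2 : ℝ) ^ (W0 - 2) * 2 ^ e = 2 ^ (W0 - 2 + e - s) * 2 ^ s := by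
      rw [← pow_add, ← pow_add]
      congr 1
      omega
    have h17 : (0 : ℝ) < 2 ^ s := by positivity
    have h18 : (2 : ℝ) ^ (W0 - 2 + e - s) + 1 ≤ VN p.n1 p.n2 p.n3 x q * (2 ^ e / 2 ^ s) := by
      push_cast at h10
      linarith
    have h19 : ((2 : ℝ) ^ (W0 - 2 + e - s) + 1) * 2 ^ s ≤ VN p.n1 p.n2 p.n3 x q * 2 ^ e := by
      have h20 := mul_le_mul_of_nonneg_right h18 (show (0 : ℝ) ≤ 2 ^ s by positivity)
      have h21 : VN p.n1 p.n2 p.n3 x q * (2 ^ e / 2 ^ s) * 2 ^ s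
          = VN p.n1 p.n2 p.n3 x q * 2 ^ e := by
        field_simp
      linarith
    push_cast
    have h22 : (2 : ℝ) ^ (W0 - 2) * 2 ^ e < VN p.n1 p.n2 p.n3 x q * 2 ^ e := by
      rw [h16]
      linarith
    exact lt_of_mul_lt_mul_right h22 (by positivity)

/-- initial data of all polynomials -/
noncomputable def initAllR (W0 W1 e : ℕ) (b : Box) (ps : List Poly) :
    List ℕ → (List KC → List ℕ → Bool) → Bool :=
  List.rec (motive := fun _ => List ℕ → (List KC → List ℕ → Bool) → Bool) (fun _ k => k [] [])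
    (fun p _ ih ss k => List.rec (motive := fun _ => Bool) false
      (fun s ss' _ => initR W0 W1 e b p s (fun K X => ih ss' (fun Ks L => k (K :: Ks) (X :: L))))
      ss) ps

/-- The check, with `W0` bits for the initial array and `W1` bits in the subdivision. -/
noncomputable def checkR (W0 W1 e fuel : ℕ) (b : Box) (ps : List Poly) (ss : List ℕ)
    (cert : ℕ) : Bool :=
  initAllR W0 W1 e b ps ss (fun Ks L => go Ks fuel L cert (fun _ => true))

/-- The meaning of the items. -/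
def SemR (W0 W1 : ℕ) (b : Box) : List Poly → List (ℕ → ℕ) → Prop
  | [], [] => True
  | p :: ps, y :: ys => (Shape3 (p.n1 + 1) (p.n2 + 1) (p.n3 + 1) p.C ∧
      ∀ q : ℝ × ℝ × ℝ, Cube q → ((2 ^ (W1 - 2) + 1 : ℕ) : ℝ) ≤ VN p.n1 p.n2 p.n3 y q →
        ((2 ^ (W0 - 2) : ℕ) : ℝ) < ((2 ^ (W0 - 2) : ℕ) : ℝ)
        + V p.n1 p.n2 p.n3 (fun l => (lanes p.n1 p.n2 p.n3 ipos p.C
            (rows b.q1 b.l1 b.h1 (p.n1 + 1) 0) (rows b.q2 b.l2 b.h2 (p.n2 + 1) 0)
            (rows b.q3 b.l3 b.h3 (p.n3 + 1) 0) l : ℝ)) q.1 q.2.1 q.2.2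
        - V p.n1 p.n2 p.n3 (fun l => (lanes p.n1 p.n2 p.n3 ineg p.C
            (rows b.q1 b.l1 b.h1 (p.n1 + 1) 0) (rows b.q2 b.l2 b.h2 (p.n2 + 1) 0)
            (rows b.q3 b.l3 b.h3 (p.n3 + 1) 0) l : ℝ)) q.1 q.2.1 q.2.2) ∧ SemR W0 W1 b ps ys
  | _, _ => False

theorem initAllR_spec (W0 W1 e : ℕ) (hW0 : 2 ≤ W0) (hW1 : 2 ≤ W1) (b : Box) (ps : List Poly) :
    ∀ (ss : List ℕ) (k : List KC → List ℕ → Bool), initAllR W0 W1 e b ps ss k = true →
    ∃ Ks L ys, k Ks L = true ∧ Rel W1 (ps.map (fun p => (p.n1, p.n2, p.n3))) Ks L ys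
      ∧ SemR W0 W1 b ps ys := by
  induction ps with
  | nil =>
    intro ss k h
    exact ⟨[], [], [], h, trivial, trivial⟩
  | cons p ps ih =>
    intro ss k h
    match ss, h with
    | [], h =>
      have h0 : false = true := h
      exact absurd h0 (by simp)
    | s :: ss, h =>
      have h1 : initR W0 W1 e b p s (fun K X => initAllR W0 W1 e b ps ss
          (fun Ks L => k (K :: Ks) (X :: L))) = true := h
      obtain ⟨hs, y, h2, h3, h4, h5⟩ := initR_spec W0 W1 e hW0 hW1 b p s _ h1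
      obtain ⟨Ks, L, ys, h6, h7, h8⟩ := ih ss _ h2
      exact ⟨_ :: Ks, _ :: L, y :: ys, h6, ⟨kc_ok W1 _ _ _ (by omega), rfl, h3, h4, h7⟩,
        ⟨hs, h5⟩, h8⟩

/-- Transfer of hits to the wide lanes. -/
theorem hitR_pos (W0 W1 : ℕ) (b : Box) (hq : 0 < b.q1 ∧ 0 < b.q2 ∧ 0 < b.q3)
    (ps : List Poly) (u v t x y z : ℝ) (hc : Cube (x, y, z))
    (e1 : (b.l1 : ℝ) * (1 - x) + b.h1 * x = b.q1 * u)
    (e2 : (b.l2 : ℝ) * (1 - y) + b.h2 * y = b.q2 * v)
    (e3 : (b.l3 : ℝ) * (1 - z) + b.h3 * z = b.q3 * t) :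
    ∀ ys, SemR W0 W1 b ps ys → Hit ((2 ^ (W1 - 2) + 1 : ℕ) : ℝ)
      (ps.map (fun p => (p.n1, p.n2, p.n3))) ys (x, y, z) → ∃ p ∈ ps, 0 < p.ev u v t := by
  induction ps with
  | nil =>
    intro xs _ h
    cases xs with
    | nil => exact absurd h (by simp [Hit])
    | cons a xs => exact absurd h (by simp [Hit])
  | cons p ps ih =>
    intro ys hS hH
    match ys, hS with
    | w :: ys, hS =>
      obtain ⟨⟨hsh, h1⟩, h2⟩ := hS
      rcases hH with hH | hH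
      · refine ⟨p, List.mem_cons_self, ?_⟩
        have hH' := h1 (x, y, z) hc hH
        rw [V_lanes, V_lanes] at hH'
        have vp := val3 ipos _ _ b.q3 b.l3 b.h3 p.n3 p.n1 p.n2 x y z u v t _ _ e3 b.q1 b.l1 b.h1
          b.q2 b.l2 b.h2 rfl rfl rfl rfl e1 e2 p.C (p.n3 + 1) 0 rfl hsh
        have vn := val3 ineg _ _ b.q3 b.l3 b.h3 p.n3 p.n1 p.n2 x y z u v t _ _ e3 b.q1 b.l1 b.h1
          b.q2 b.l2 b.h2 rfl rfl rfl rfl e1 e2 p.C (p.n3 + 1) 0 rfl hsh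
        unfold Poly.ev
        rw [ev3_sub (fun z => (z : ℝ)) (fun z => (ipos z : ℝ)) (fun z => (ineg z : ℝ))
          ipos_sub_ineg]
        simp only at hH'
        set A := ∑ k ∈ Finset.range (p.n3 + 1), ∑ j ∈ Finset.range (p.n2 + 1),
          ∑ i ∈ Finset.range (p.n1 + 1), bern p.n3 k z * (bern p.n2 j y * (bern p.n1 i x
            * (lane3 ipos (rows b.q1 b.l1 b.h1 (p.n1 + 1) 0) (rows b.q2 b.l2 b.h2 (p.n2 + 1) 0)
              p.C (rows b.q3 b.l3 b.h3 (p.n3 + 1) 0) i j k : ℝ))) with hA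
        set A' := ∑ k ∈ Finset.range (p.n3 + 1), ∑ j ∈ Finset.range (p.n2 + 1),
          ∑ i ∈ Finset.range (p.n1 + 1), bern p.n3 k z * (bern p.n2 j y * (bern p.n1 i x
            * (lane3 ineg (rows b.q1 b.l1 b.h1 (p.n1 + 1) 0) (rows b.q2 b.l2 b.h2 (p.n2 + 1) 0)
              p.C (rows b.q3 b.l3 b.h3 (p.n3 + 1) 0) i j k : ℝ))) with hA'
        have hAA : (0 : ℝ) < A - A' := by
          linarith
        obtain ⟨q1, q2, q3⟩ := hq
        have q1' : (0 : ℝ) < b.q1 := by exact_mod_cast q1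
        have q2' : (0 : ℝ) < b.q2 := by exact_mod_cast q2
        have q3' : (0 : ℝ) < b.q3 := by exact_mod_cast q3
        have f1 : (0 : ℝ) < (p.n1.factorial : ℝ) := by exact_mod_cast Nat.factorial_pos _
        have f2 : (0 : ℝ) < (p.n2.factorial : ℝ) := by exact_mod_cast Nat.factorial_pos _
        have f3 : (0 : ℝ) < (p.n3.factorial : ℝ) := by exact_mod_cast Nat.factorial_pos _
        have hL : 0 < (A - A') * b.q1 * b.q2 * b.q3 := by
          positivity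
        have hR : (A - A') * b.q1 * b.q2 * b.q3
            = (p.n1.factorial : ℝ) * (b.q1 : ℝ) ^ (p.n1 + 1)
              * ((p.n2.factorial : ℝ) * (b.q2 : ℝ) ^ (p.n2 + 1))
              * ((p.n3.factorial : ℝ) * (b.q3 : ℝ) ^ (p.n3 + 1))
              * (ev3 (fun z => (ipos z : ℝ)) u v t p.C
                - ev3 (fun z => (ineg z : ℝ)) u v t p.C) := by
          have : (A - A') * b.q1 * b.q2 * b.q3
              = A * b.q1 * b.q2 * b.q3 - A' * b.q1 * b.q2 * b.q3 := by ring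
          rw [this, vp, vn]
          ring
        rw [hR] at hL
        exact (pos_iff_pos_of_mul_pos hL).mp (by positivity)
      · obtain ⟨p', hp', h3⟩ := ih ys h2 hH
        exact ⟨p', List.mem_cons_of_mem _ hp', h3⟩

/-- The certificate number from blocks of 80 hexadecimal digits, lowest block first. -/
noncomputable def joinC (L : List ℕ) : ℕ :=
  List.rec (motive := fun _ => ℕ) 0 (fun c _ ih => Nat.add c (Nat.shiftLeft ih 320)) L

/-- Main theorem: a successful check shows that at every point of the box one of the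
polynomials is positive. -/
theorem checkR_spec (W0 W1 e fuel : ℕ) (b : Box) (ps : List Poly) (ss : List ℕ) (cert : ℕ)
    (hW0 : 2 ≤ W0) (hW1 : 2 ≤ W1) (hq : 0 < b.q1 ∧ 0 < b.q2 ∧ 0 < b.q3)
    (h : checkR W0 W1 e fuel b ps ss cert = true)
    (u v t : ℝ) (hb : b.In u v t) : ∃ p ∈ ps, 0 < p.ev u v t := by
  obtain ⟨Ks, L, ys, h1, h2, h3⟩ := initAllR_spec W0 W1 e hW0 hW1 b ps ss _ h
  obtain ⟨h4, _⟩ := go_spec W1 hW1 _ Ks fuel L ys cert _ h2 h1
  obtain ⟨⟨a1, a2⟩, ⟨b1, b2⟩, ⟨c1, c2⟩⟩ := hb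
  obtain ⟨x, hx, e1⟩ := exists_par b.l1 b.h1 _ a1 a2
  obtain ⟨y, hy, e2⟩ := exists_par b.l2 b.h2 _ b1 b2
  obtain ⟨z, hz, e3⟩ := exists_par b.l3 b.h3 _ c1 c2
  exact hitR_pos W0 W1 b hq ps u v t x y z ⟨hx, hy, hz⟩ e1 e2 e3 ys h3
    (h4 (x, y, z) ⟨hx, hy, hz⟩)

end Pool.Agent.BPK
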