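import Pool.Agent.BPK.Tree

/-!
Bernstein tables of the powers of an affine function, constants in the kernel.
-/

namespace Pool.Agent.BPK

/-- the constants, computed -/
def kc (W n1 n2 n3 : ℕ) : KC :=
  let B := 2 ^ W
  let N := (n1 + 1) * (n2 + 1) * (n3 + 1)
  { s1 := W * 1
    s2 := W * (n1 + 1)
    s3 := W * ((n1 + 1) * (n2 + 1))
    m1 := n1 + 1
    m2 := n2 + 1
    m3 := n3 + 1
    E1 := (B ^ 1 - 1) * ((B ^ N - 1) / (B ^ (n1 + 1) - 1))
    E2 := (B ^ (n1 + 1) - 1) * ((B ^ N - 1) / (B ^ ((n1 + 1) * (n2 + 1)) - 1))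
    E3 := (B ^ ((n1 + 1) * (n2 + 1)) - 1) * ((B ^ N - 1) / (B ^ N - 1))
    O := (B ^ N - 1) / (B - 1)
    C := (2 ^ (W - 2) - 1) * ((B ^ N - 1) / (B - 1))
    T := 2 ^ (W - 1) * ((B ^ N - 1) / (B - 1)) }

theorem kc_ok (W n1 n2 n3 : ℕ) (hW : 0 < W) : KCok W n1 n2 n3 (kc W n1 n2 n3) where
  s1 := rfl
  s2 := rfl
  s3 := rfl
  m1 := rfl
  m2 := rfl
  m3 := rfl
  E1 := by
    have h := msk_eq W 1 n1 ((n2 + 1) * (n3 + 1)) (by norm_num) hW
    have e : 1 * (n1 + 1) * ((n2 + 1) * (n3 + 1)) = NN n1 n2 n3 := by unfold NN; ring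
    rw [e, one_mul] at h
    rw [h]
    rfl
  E2 := by
    have h := msk_eq W (n1 + 1) n2 (n3 + 1) (by positivity) hW
    have e : (n1 + 1) * (n2 + 1) * (n3 + 1) = NN n1 n2 n3 := rfl
    rw [e] at h
    rw [h]
    rfl
  E3 := by
    have h := msk_eq W ((n1 + 1) * (n2 + 1)) n3 1 (by positivity) hW
    rw [mul_one] at h
    have e : (n1 + 1) * (n2 + 1) * (n3 + 1) = NN n1 n2 n3 := rfl
    rw [e] at h
    rw [h]
    rfl
  O := by
    rw [pk_const W _ _ hW, one_mul]
    rfl
  C := by
    rw [pk_const W _ _ hW]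
    rfl
  T := by
    rw [pk_const W _ _ hW]
    rfl

/-- the constants, computed in the kernel -/
noncomputable def kcF (W n1 n2 n3 : ℕ) (k : KC → Bool) : Bool :=
  fcB (Nat.pow 2 W) (fun B => fcB (Nat.succ n1) (fun a1 => fcB (Nat.succ n2) (fun a2 =>
  fcB (Nat.succ n3) (fun a3 => fcB (Nat.mul a1 a2) (fun a12 => fcB (Nat.mul a12 a3) (fun N =>
  fcB (Nat.sub (Nat.pow B N) 1) (fun F => fcB (Nat.div F (Nat.sub B 1)) (fun O =>
  fcB (Nat.sub (Nat.pow B a1) 1) (fun B1 => fcB (Nat.sub (Nat.pow B a12) 1) (fun B2 =>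
  fcB (Nat.mul (Nat.sub (Nat.pow B 1) 1) (Nat.div F B1)) (fun E1 =>
  fcB (Nat.mul B1 (Nat.div F B2)) (fun E2 =>
  fcB (Nat.mul B2 (Nat.div F F)) (fun E3 =>
  fcB (Nat.mul (Nat.sub (Nat.pow 2 (Nat.sub W 2)) 1) O) (fun C =>
  fcB (Nat.mul (Nat.pow 2 (Nat.sub W 1)) O) (fun T =>
  fcB (Nat.mul W 1) (fun s1 => fcB (Nat.mul W a1) (fun s2 => fcB (Nat.mul W a12) (fun s3 =>
    k ⟨s1, s2, s3, a1, a2, a3, E1, E2, E3, O, C, T⟩))))))))))))))))))

theorem kcF_eq (W n1 n2 n3 : ℕ) (k : KC → Bool) : kcF W n1 n2 n3 k = k (kc W n1 n2 n3) := by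
  unfold kcF
  simp only [fcB_eq]
  rfl

/-- force a list -/
noncomputable def forceL (L : List ℕ) (k : List ℕ → Bool) : Bool :=
  List.rec (motive := fun _ => (List ℕ → Bool) → Bool) (fun k => k [])
    (fun a _ ih k => fcB a (fun a' => ih (fun r => k (a' :: r)))) L k

theorem forceL_eq (L : List ℕ) : ∀ k : List ℕ → Bool, forceL L k = k L := by
  induction L with
  | nil => intro k; rfl
  | cons a L ih =>
    intro k
    change fcB a (fun a' => forceL L (fun r => k (a' :: r))) = k (a :: L)
    rw [fcB_eq, ih]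

/-- multiplication of a homogeneous list by `l * y + h * x` with carry `p` -/
noncomputable def mulLin (l h : ℕ) (L : List ℕ) : ℕ → List ℕ :=
  List.rec (motive := fun _ => ℕ → List ℕ) (fun p => [Nat.mul h p])
    (fun s _ ih p => Nat.add (Nat.mul l s) (Nat.mul h p) :: ih s) L

/-- value of a homogeneous list -/
noncomputable def hom (x y : ℝ) : List ℕ → ℝ
  | [] => 0
  | s :: t => (s : ℝ) * y ^ t.length + x * hom x y t

theorem mulLin_length (l h : ℕ) (L : List ℕ) : ∀ p, (mulLin l h L p).length = L.length + 1 := by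
  induction L with
  | nil => intro p; rfl
  | cons s t ih =>
    intro p
    change (mulLin l h t s).length + 1 = t.length + 1 + 1
    rw [ih]

theorem mulLin_hom (l h : ℕ) (x y : ℝ) (L : List ℕ) : ∀ p, hom x y (mulLin l h L p)
    = ((l : ℝ) * y + h * x) * hom x y L + h * p * y ^ L.length := by
  induction L with
  | nil =>
    intro p
    change (((h * p : ℕ) : ℝ)) * y ^ 0 + x * 0 = _
    simp only [hom, List.length_nil]
    push_cast
    ring
  | cons s t ih =>
    intro p
    change (((l * s + h * p : ℕ) : ℝ)) * y ^ (mulLin l h t s).length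
      + x * hom x y (mulLin l h t s) = _
    rw [ih, mulLin_length]
    simp only [hom, List.length_cons]
    push_cast
    ring

/-- iterate with forcing -/
noncomputable def itF (f : List ℕ → List ℕ) (m : ℕ) (L : List ℕ) (k : List ℕ → Bool) : Bool :=
  Nat.rec (motive := fun _ => List ℕ → (List ℕ → Bool) → Bool) (fun L k => k L)
    (fun _ ih L k => forceL (f L) (fun L' => ih L' k)) m L k

theorem itF_eq (f : List ℕ → List ℕ) (m : ℕ) : ∀ (L : List ℕ) (k : List ℕ → Bool),
    itF f m L k = k (f^[m] L) := by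
  induction m with
  | zero => intro L k; rfl
  | succ m ih =>
    intro L k
    change forceL (f L) (fun L' => itF f m L' k) = _
    rw [forceL_eq, ih]
    rfl

/-- the row of the power `a` -/
noncomputable def row (q l h m a : ℕ) : List ℕ :=
  (fun L => mulLin l h L 0)^[a] ((fun L => mulLin q q L 0)^[m] [1])

theorem it_length (l h m : ℕ) : ∀ L : List ℕ,
    ((fun L => mulLin l h L 0)^[m] L).length = L.length + m := by
  induction m with
  | zero => intro L; rfl
  | succ m ih =>
    intro L
    rw [Function.iterate_succ_apply, ih, mulLin_length]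
    ring

theorem it_hom (l h m : ℕ) (x y : ℝ) : ∀ L : List ℕ,
    hom x y ((fun L => mulLin l h L 0)^[m] L) = ((l : ℝ) * y + h * x) ^ m * hom x y L := by
  induction m with
  | zero => intro L; simp
  | succ m ih =>
    intro L
    rw [Function.iterate_succ_apply, ih, mulLin_hom]
    push_cast
    ring

theorem row_length (q l h m a : ℕ) : (row q l h m a).length = m + a + 1 := by
  unfold row
  rw [it_length, it_length]
  simp only [List.length_cons, List.length_nil]
  ring

theorem row_hom (q l h m a : ℕ) (x : ℝ) : hom x (1 - x) (row q l h m a)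
    = ((l : ℝ) * (1 - x) + h * x) ^ a * (q : ℝ) ^ m := by
  unfold row
  rw [it_hom, it_hom]
  have e : (q : ℝ) * (1 - x) + q * x = q := by ring
  have e2 : hom x (1 - x) [1] = 1 := by simp [hom]
  rw [e, e2]
  ring

/-- factorial -/
noncomputable def fct (n : ℕ) : ℕ :=
  Nat.rec (motive := fun _ => ℕ) 1 (fun m ih => Nat.mul (Nat.succ m) ih) n

theorem fct_eq (n : ℕ) : fct n = n.factorial := by
  induction n with
  | zero => rfl
  | succ n ih =>
    change (n + 1) * fct n = _
    rw [ih]
    rfl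

/-- length, by recursion -/
noncomputable def len (L : List ℕ) : ℕ :=
  List.rec (motive := fun _ => ℕ) 0 (fun _ _ ih => Nat.succ ih) L

theorem len_eq (L : List ℕ) : len L = L.length := by
  induction L with
  | nil => rfl
  | cons a L ih =>
    change len L + 1 = _
    rw [ih]
    rfl

/-- weighted packing of a row -/
noncomputable def pvw (s : ℕ) (L : List ℕ) : ℕ → ℕ :=
  List.rec (motive := fun _ => ℕ → ℕ) (fun _ => 0)
    (fun r t ih i => Nat.add (Nat.mul (Nat.mul (fct i) (fct (len t))) r)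
      (Nat.mul s (ih (Nat.succ i)))) L

/-- the lanes of a row -/
def tau (L : List ℕ) (i : ℕ) : ℕ := i.factorial * (L.length - 1 - i).factorial * L.getD i 0

theorem pvw_eq' (s : ℕ) (L : List ℕ) : ∀ i0, pvw s L i0 = ∑ j ∈ Finset.range L.length,
    (i0 + j).factorial * (L.length - 1 - j).factorial * L.getD j 0 * s ^ j := by
  induction L with
  | nil => intro i0; rfl
  | cons r t ih =>
    intro i0
    change fct i0 * fct (len t) * r + s * pvw s t (i0 + 1) = _
    rw [fct_eq, len_eq, fct_eq, ih, List.length_cons, Finset.sum_range_succ', Finset.mul_sum,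
      add_comm]
    congr 1
    · apply Finset.sum_congr rfl
      intro j hj
      have e1 : i0 + 1 + j = i0 + (j + 1) := by ring
      have e2 : t.length + 1 - 1 - (j + 1) = t.length - 1 - j := by omega
      rw [e1, e2, List.getD_cons_succ, pow_succ]
      ring
    · simp

theorem pvw_eq (s : ℕ) (L : List ℕ) : pvw s L 0 = ∑ j ∈ Finset.range L.length,
    tau L j * s ^ j := by
  rw [pvw_eq']
  apply Finset.sum_congr rfl
  intro j _
  unfold tau
  rw [zero_add]

theorem hom_sum (x y : ℝ) (L : List ℕ) : hom x y L = ∑ j ∈ Finset.range L.length,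
    (L.getD j 0 : ℝ) * (x ^ j * y ^ (L.length - 1 - j)) := by
  induction L with
  | nil => simp [hom]
  | cons r t ih =>
    simp only [hom]
    rw [ih, List.length_cons, Finset.sum_range_succ', Finset.mul_sum, add_comm]
    congr 1
    · apply Finset.sum_congr rfl
      intro j hj
      have e2 : t.length + 1 - 1 - (j + 1) = t.length - 1 - j := by omega
      rw [e2, List.getD_cons_succ, pow_succ]
      ring
    · simp

theorem tau_bern (n : ℕ) (L : List ℕ) (hL : L.length = n + 1) (x : ℝ) :
    ∑ i ∈ Finset.range (n + 1), bern n i x * (tau L i : ℝ)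
      = (n.factorial : ℝ) * hom x (1 - x) L := by
  rw [hom_sum, hL, Finset.mul_sum]
  apply Finset.sum_congr rfl
  intro i hi
  have h1 : i ≤ n := by
    have := Finset.mem_range.mp hi
    omega
  unfold tau bern
  rw [hL]
  have e : n + 1 - 1 - i = n - i := by omega
  rw [e]
  have h2 := Nat.choose_mul_factorial_mul_factorial h1
  have h3 : ((n.choose i : ℕ) : ℝ) * (i.factorial : ℝ) * ((n - i).factorial : ℝ)
      = (n.factorial : ℝ) := by exact_mod_cast h2
  rw [← h3]
  push_cast
  ring

/-- The rows, as a list. -/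
noncomputable def rows (q l h : ℕ) : ℕ → ℕ → List (List ℕ)
  | 0, _ => []
  | m + 1, a => row q l h m a :: rows q l h m (a + 1)

/-- the packed rows -/
noncomputable def mkP (q l h s m a : ℕ) (k : List ℕ → Bool) : Bool :=
  Nat.rec (motive := fun _ => ℕ → (List ℕ → Bool) → Bool) (fun _ k => k [])
    (fun m ih a k => itF (fun L => mulLin q q L 0) m [1] (fun L0 =>
      itF (fun L => mulLin l h L 0) a L0 (fun L1 =>
        fcB (pvw s L1 0) (fun v => ih (Nat.succ a) (fun P => k (v :: P)))))) m a k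

theorem mkP_eq (q l h s m : ℕ) : ∀ (a : ℕ) (k : List ℕ → Bool),
    mkP q l h s m a k = k ((rows q l h m a).map (fun r => pvw s r 0)) := by
  induction m with
  | zero => intro a k; rfl
  | succ m ih =>
    intro a k
    change itF (fun L => mulLin q q L 0) m [1] (fun L0 =>
      itF (fun L => mulLin l h L 0) a L0 (fun L1 =>
        fcB (pvw s L1 0) (fun v => mkP q l h s m (a + 1) (fun P => k (v :: P))))) = _
    rw [itF_eq, itF_eq, fcB_eq, ih]
    rfl

end Pool.Agent.BPK
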