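import Pool.Agent.BPK.Pack
import Pool.Agent.BPK.Bern

/-!
The subdivision of a packed Bernstein array in one direction.
-/

namespace Pool.Agent.BPK

/-- averages with stride, rounding down -/
def avN (s : ℕ) (x : ℕ → ℕ) : ℕ → ℕ := fun l => (x l + x (l + s)) / 2

/-- left half -/
def lfN (s n N : ℕ) (x : ℕ → ℕ) : ℕ → ℕ := fun l =>
  if l < N then ((avN s)^[co s n l] x) (l - s * co s n l) else 0

/-- right half -/
def rgN (s n N : ℕ) (x : ℕ → ℕ) : ℕ → ℕ := fun l =>
  if l < N then ((avN s)^[n - co s n l] x) l else 0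

theorem avN_lt (s : ℕ) (x : ℕ → ℕ) (M : ℕ) (h : ∀ l, x l < M) (l : ℕ) : avN s x l < M := by
  unfold avN
  have h1 := h l
  have h2 := h (l + s)
  omega

theorem avN_zero (s N : ℕ) (x : ℕ → ℕ) (h : ∀ l, N ≤ l → x l = 0) (l : ℕ) (hl : N ≤ l) :
    avN s x l = 0 := by
  unfold avN
  rw [h l hl, h (l + s) (by omega)]

theorem it_lt (s : ℕ) (x : ℕ → ℕ) (M : ℕ) (h : ∀ l, x l < M) (r : ℕ) :
    ∀ l, ((avN s)^[r] x) l < M := by
  induction r with
  | zero => exact h
  | succ r ih =>
    intro l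
    rw [Function.iterate_succ_apply']
    exact avN_lt s _ M ih l

theorem it_zero (s N : ℕ) (x : ℕ → ℕ) (h : ∀ l, N ≤ l → x l = 0) (r : ℕ) :
    ∀ l, N ≤ l → ((avN s)^[r] x) l = 0 := by
  induction r with
  | zero => exact h
  | succ r ih =>
    intro l hl
    rw [Function.iterate_succ_apply']
    exact avN_zero s N _ ih l hl

theorem it_le (s : ℕ) (x : ℕ → ℕ) (b : ℕ → ℝ) (h : ∀ l, (x l : ℝ) ≤ b l) (r : ℕ) :
    ∀ l, ((((avN s)^[r] x) l : ℕ) : ℝ) ≤ ((avR s)^[r] b) l := by
  induction r with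
  | zero => exact h
  | succ r ih =>
    intro l
    rw [Function.iterate_succ_apply', Function.iterate_succ_apply']
    have e1 : avN s ((avN s)^[r] x) l = (((avN s)^[r] x) l + ((avN s)^[r] x) (l + s)) / 2 := rfl
    have e2 : avR s ((avR s)^[r] b) l = (((avR s)^[r] b) l + ((avR s)^[r] b) (l + s)) / 2 := rfl
    rw [e1, e2]
    have h1 := ih l
    have h2 := ih (l + s)
    have h3 : (((((avN s)^[r] x) l + ((avN s)^[r] x) (l + s)) / 2 : ℕ) : ℝ)
        ≤ ((((avN s)^[r] x) l + ((avN s)^[r] x) (l + s) : ℕ) : ℝ) / 2 := by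
      have := @Nat.cast_div_le ℝ _ _ _ (((avN s)^[r] x) l + ((avN s)^[r] x) (l + s)) 2
      simpa using this
    push_cast at h3
    linarith

theorem lfN_le (s n N : ℕ) (x : ℕ → ℕ) (b : ℕ → ℝ) (h : ∀ l, (x l : ℝ) ≤ b l) (l : ℕ) :
    ((lfN s n N x l : ℕ) : ℝ) ≤ lfR s n N b l := by
  unfold lfN lfR
  by_cases hl : l < N
  · rw [if_pos hl, if_pos hl]
    exact it_le s x b h _ _
  · rw [if_neg hl, if_neg hl]
    simp

theorem rgN_le (s n N : ℕ) (x : ℕ → ℕ) (b : ℕ → ℝ) (h : ∀ l, (x l : ℝ) ≤ b l) (l : ℕ) :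
    ((rgN s n N x l : ℕ) : ℝ) ≤ rgR s n N b l := by
  unfold rgN rgR
  by_cases hl : l < N
  · rw [if_pos hl, if_pos hl]
    exact it_le s x b h _ _
  · rw [if_neg hl, if_neg hl]
    simp

theorem lfN_lt (s n N : ℕ) (x : ℕ → ℕ) (M : ℕ) (hM : 0 < M) (h : ∀ l, x l < M) (l : ℕ) :
    lfN s n N x l < M := by
  unfold lfN
  split_ifs
  · exact it_lt s x M h _ _
  · exact hM

theorem rgN_lt (s n N : ℕ) (x : ℕ → ℕ) (M : ℕ) (hM : 0 < M) (h : ∀ l, x l < M) (l : ℕ) :
    rgN s n N x l < M := by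
  unfold rgN
  split_ifs
  · exact it_lt s x M h _ _
  · exact hM

theorem lfN_zero (s n N : ℕ) (x : ℕ → ℕ) (l : ℕ) (hl : N ≤ l) : lfN s n N x l = 0 := by
  unfold lfN
  rw [if_neg (by omega)]

theorem rgN_zero (s n N : ℕ) (x : ℕ → ℕ) (l : ℕ) (hl : N ≤ l) : rgN s n N x l = 0 := by
  unfold rgN
  rw [if_neg (by omega)]

/-- lanes with coordinate zero -/
def c0 (s n N : ℕ) (l : ℕ) : Bool := decide (l < N) && decide (co s n l = 0)

/-- shifting a lane with coordinate zero stays below `N` -/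
theorem c0_lt (s n N q l m : ℕ) (hN : N = s * (n + 1) * q) (hs : 0 < s) (hm : m ≤ n)
    (h : c0 s n N l = true) : l + s * m < N := by
  unfold c0 at h
  simp only [Bool.and_eq_true, decide_eq_true_eq] at h
  obtain ⟨h1, h2⟩ := h
  unfold co at h2
  obtain ⟨a, ha⟩ := Nat.dvd_of_mod_eq_zero h2
  have h3 : l < s * (l / s) + s := by
    have := Nat.lt_mul_div_succ l hs
    rw [mul_add, mul_one] at this
    exact this
  rw [ha] at h3
  have h4 : s * ((n + 1) * a) ≤ l := by
    rw [← ha]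
    exact Nat.mul_div_le l s
  have h5 : a < q := by
    by_contra h6
    push Not at h6
    have h7 : s * (n + 1) * q ≤ s * ((n + 1) * a) := by
      rw [mul_assoc]
      exact Nat.mul_le_mul_left _ (Nat.mul_le_mul_left _ h6)
    omega
  have h8 : s * (n + 1) * (a + 1) ≤ N := by
    rw [hN]
    exact Nat.mul_le_mul_left _ h5
  have h9 : s * m ≤ s * n := Nat.mul_le_mul_left _ hm
  have h10 : s * (n + 1) * (a + 1) = s * ((n + 1) * a) + s + s * n := by ring
  omega

theorem c0_shift (s n N q l m : ℕ) (hN : N = s * (n + 1) * q) (hs : 0 < s) (hm : m ≤ n)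
    (hl : l < N) : (s * m ≤ l ∧ c0 s n N (l - s * m) = true) ↔ co s n l = m := by
  constructor
  · rintro ⟨h1, h2⟩
    unfold c0 at h2
    simp only [Bool.and_eq_true, decide_eq_true_eq] at h2
    obtain ⟨_, h3⟩ := h2
    unfold co at h3 ⊢
    have h4 : (l - s * m) / s = l / s - m := by
      rw [Nat.sub_mul_div]
    rw [h4] at h3
    have h5 : m ≤ l / s := by
      rw [Nat.le_div_iff_mul_le hs, mul_comm]
      exact h1
    obtain ⟨a, ha⟩ := Nat.dvd_of_mod_eq_zero h3
    have h6 : l / s = m + (n + 1) * a := by omega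
    rw [h6, Nat.add_mul_mod_self_left]
    exact Nat.mod_eq_of_lt (by omega)
  · intro h
    unfold co at h
    have h5 : m ≤ l / s := by
      rw [← h]
      exact Nat.mod_le _ _
    have h1 : s * m ≤ l := by
      calc s * m ≤ s * (l / s) := Nat.mul_le_mul_left _ h5
        _ ≤ l := Nat.mul_div_le l s
    refine ⟨h1, ?_⟩
    unfold c0
    simp only [Bool.and_eq_true, decide_eq_true_eq]
    refine ⟨by omega, ?_⟩
    unfold co
    have h4 : (l - s * m) / s = l / s - m := by
      rw [Nat.sub_mul_div]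
    rw [h4]
    have h6 := Nat.div_add_mod (l / s) (n + 1)
    rw [h] at h6
    have h7 : l / s - m = (n + 1) * ((l / s) / (n + 1)) := by omega
    rw [h7]
    exact Nat.mul_mod_right _ _

/-- force a big number and continue -/
noncomputable def fcB {β : Type} (a : ℕ) (k : ℕ → β) : β :=
  Nat.rec (k 0) (fun m _ => k (Nat.succ m)) a

theorem fcB_eq {β : Type} (a : ℕ) (k : ℕ → β) : fcB a k = k a := by
  cases a with
  | zero => rfl
  | succ m => rfl

/-- The loop. `Ws = W * s` is the lane shift in bits, `E` the mask of the lanes with coordinate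
zero, `O` the vector of ones. -/
noncomputable def loop {β : Type} (Ws E O : ℕ) (k : ℕ → ℕ → β) (m : ℕ) :
    ℕ → ℕ → ℕ → ℕ → β :=
  Nat.rec (motive := fun _ => ℕ → ℕ → ℕ → ℕ → β)
    (fun _ _ aL aR => fcB aL (fun a => fcB aR (fun b => k a b)))
    (fun m ih r X aL aR =>
      fcB (Nat.add X (Nat.shiftRight X Ws)) (fun Z =>
        fcB (Nat.shiftRight (Nat.sub Z (Nat.land Z O)) 1) (fun X' =>
          ih (Nat.succ r) X'
            (Nat.add aL (Nat.shiftLeft (Nat.land X E) (Nat.mul Ws r)))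
            (Nat.add aR (Nat.land X (Nat.shiftLeft E (Nat.mul Ws m)))))))
    m

theorem loop_succ {β : Type} (Ws E O : ℕ) (k : ℕ → ℕ → β) (m r X aL aR : ℕ) :
    loop Ws E O k (m + 1) r X aL aR
      = fcB (Nat.add X (Nat.shiftRight X Ws)) (fun Z =>
        fcB (Nat.shiftRight (Nat.sub Z (Nat.land Z O)) 1) (fun X' =>
          loop Ws E O k m (Nat.succ r) X'
            (Nat.add aL (Nat.shiftLeft (Nat.land X E) (Nat.mul Ws r)))
            (Nat.add aR (Nat.land X (Nat.shiftLeft E (Nat.mul Ws m)))))) := rfl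

/-- left result after `r` steps -/
def pL (s n N : ℕ) (x : ℕ → ℕ) (r : ℕ) : ℕ → ℕ := fun l =>
  if l < N ∧ co s n l < r then ((avN s)^[co s n l] x) (l - s * co s n l) else 0

/-- right result after `r` steps -/
def pR (s n N : ℕ) (x : ℕ → ℕ) (r : ℕ) : ℕ → ℕ := fun l =>
  if l < N ∧ n < co s n l + r then ((avN s)^[n - co s n l] x) l else 0

theorem co_le (s n l : ℕ) : co s n l ≤ n := by
  unfold co
  have := Nat.mod_lt (l / s) (show 0 < n + 1 by omega)
  omega

theorem stepL (W s n N q r : ℕ) (x : ℕ → ℕ) (hN : N = s * (n + 1) * q) (hs : 0 < s) (hr : r ≤ n)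
    (hx : ∀ l, x l < 2 ^ W) :
    pk W N (pL s n N x r) + Nat.shiftLeft (Nat.land (pk W N ((avN s)^[r] x))
      (msk W N (c0 s n N))) (Nat.mul (W * s) r) = pk W N (pL s n N x (r + 1)) := by
  have hb := it_lt s x (2 ^ W) hx r
  rw [pk_msk W N _ _ hb]
  have e1 : Nat.shiftLeft (pk W N (fun l => if c0 s n N l = true then ((avN s)^[r] x) l else 0))
      (Nat.mul (W * s) r)
      = pk W N (fun l => if c0 s n N l = true then ((avN s)^[r] x) l else 0) * (2 ^ W) ^ (s * r) := by
    change _ <<< ((W * s) * r) = _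
    rw [Nat.shiftLeft_eq, ← pow_mul, mul_assoc]
  rw [e1, pk_shl, pk_add]
  · apply pk_congr
    intro l hl
    have h1 := c0_shift s n N q l r hN hs hr hl
    unfold pL
    by_cases hc : co s n l = r
    · obtain ⟨h2, h3⟩ := h1.mpr hc
      rw [if_neg (by omega), if_pos h2, if_pos h3, if_pos (by omega), hc, zero_add]
    · have h4 : (if s * r ≤ l then (if c0 s n N (l - s * r) = true then
          ((avN s)^[r] x) (l - s * r) else 0) else 0) = 0 := by
        by_cases h5 : s * r ≤ l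
        · rw [if_pos h5]
          by_cases h6 : c0 s n N (l - s * r) = true
          · exact absurd (h1.mp ⟨h5, h6⟩) hc
          · rw [if_neg h6]
        · rw [if_neg h5]
      rw [h4, add_zero]
      by_cases h7 : co s n l < r
      · rw [if_pos ⟨hl, h7⟩, if_pos ⟨hl, by omega⟩]
      · rw [if_neg (by omega), if_neg (by omega)]
  · intro l hl
    by_cases h6 : c0 s n N l = true
    · have := c0_lt s n N q l r hN hs hr h6
      omega
    · rw [if_neg h6]

theorem maskR (W s n N q m : ℕ) (hN : N = s * (n + 1) * q) (hs : 0 < s) (hm : m ≤ n) :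
    Nat.shiftLeft (msk W N (c0 s n N)) (Nat.mul (W * s) m)
      = msk W N (fun l => decide (co s n l = m)) := by
  unfold msk
  have e1 : Nat.shiftLeft (pk W N (fun l => if c0 s n N l = true then 2 ^ W - 1 else 0))
      (Nat.mul (W * s) m)
      = pk W N (fun l => if c0 s n N l = true then 2 ^ W - 1 else 0) * (2 ^ W) ^ (s * m) := by
    change _ <<< ((W * s) * m) = _
    rw [Nat.shiftLeft_eq, ← pow_mul, mul_assoc]
  rw [e1, pk_shl]
  · apply pk_congr
    intro l hl
    have h1 := c0_shift s n N q l m hN hs hm hl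
    by_cases hc : co s n l = m
    · obtain ⟨h2, h3⟩ := h1.mpr hc
      rw [if_pos h2, if_pos h3]
      simp [hc]
    · simp only [hc, decide_false]
      by_cases h5 : s * m ≤ l
      · rw [if_pos h5]
        by_cases h6 : c0 s n N (l - s * m) = true
        · exact absurd (h1.mp ⟨h5, h6⟩) hc
        · rw [if_neg h6]
          simp
      · rw [if_neg h5]
        simp
  · intro l hl
    by_cases h6 : c0 s n N l = true
    · have := c0_lt s n N q l m hN hs hm h6
      omega
    · rw [if_neg h6]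

theorem stepR (W s n N q r m : ℕ) (x : ℕ → ℕ) (hN : N = s * (n + 1) * q) (hs : 0 < s)
    (hr : r + m = n) (hx : ∀ l, x l < 2 ^ W) :
    pk W N (pR s n N x r) + Nat.land (pk W N ((avN s)^[r] x))
      (Nat.shiftLeft (msk W N (c0 s n N)) (Nat.mul (W * s) m)) = pk W N (pR s n N x (r + 1)) := by
  have hb := it_lt s x (2 ^ W) hx r
  rw [maskR W s n N q m hN hs (by omega), pk_msk W N _ _ hb, pk_add]
  apply pk_congr
  intro l hl
  unfold pR
  have hcl := co_le s n l
  by_cases hc : co s n l = m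
  · have e : n - m = r := by omega
    simp only [hc, decide_true, if_true]
    rw [if_neg (by omega), if_pos ⟨hl, by omega⟩, e, zero_add]
  · have hd : (decide (co s n l = m)) = false := by simp [hc]
    rw [hd]
    simp only [Bool.false_eq_true, if_false, add_zero]
    by_cases h7 : n < co s n l + r
    · rw [if_pos ⟨hl, h7⟩, if_pos ⟨hl, by omega⟩]
    · rw [if_neg (by omega), if_neg (by omega)]

theorem stepX (W s N r : ℕ) (x : ℕ → ℕ) (hW : 0 < W) (hx : ∀ l, x l + x l < 2 ^ W)
    (h0 : ∀ l, N ≤ l → x l = 0) (hxx : ∀ l, ((avN s)^[r] x) l + ((avN s)^[r] x) (l + s) < 2 ^ W) :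
    Nat.shiftRight (Nat.sub (Nat.add (pk W N ((avN s)^[r] x))
      (Nat.shiftRight (pk W N ((avN s)^[r] x)) (W * s)))
      (Nat.land (Nat.add (pk W N ((avN s)^[r] x))
      (Nat.shiftRight (pk W N ((avN s)^[r] x)) (W * s))) (pk W N (fun _ => 1)))) 1
      = pk W N ((avN s)^[r + 1] x) := by
  have hb : ∀ l, ((avN s)^[r] x) l < 2 ^ W := by
    apply it_lt
    intro l
    have := hx l
    omega
  have hz := it_zero s N x h0 r
  have e1 : Nat.shiftRight (pk W N ((avN s)^[r] x)) (W * s)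
      = pk W N (fun l => ((avN s)^[r] x) (l + s)) := by
    change _ >>> (W * s) = _
    rw [Nat.shiftRight_eq_div_pow, pow_mul]
    exact pk_shr W N s _ hb hz
  rw [e1]
  have e2 : Nat.add (pk W N ((avN s)^[r] x)) (pk W N (fun l => ((avN s)^[r] x) (l + s)))
      = pk W N (fun l => ((avN s)^[r] x) l + ((avN s)^[r] x) (l + s)) := pk_add W N _ _
  rw [e2]
  have e3 := pk_half W N (fun l => ((avN s)^[r] x) l + ((avN s)^[r] x) (l + s)) hW hxx
  change (_ - _) >>> 1 = _
  rw [Nat.shiftRight_eq_div_pow, pow_one, e3]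
  apply pk_congr
  intro l _
  rw [Function.iterate_succ_apply']
  rfl

theorem loop_spec {β : Type} (W s n N q : ℕ) (x : ℕ → ℕ) (k : ℕ → ℕ → β) (hW : 0 < W)
    (hN : N = s * (n + 1) * q) (hs : 0 < s) (hx : ∀ l, x l < 2 ^ (W - 1))
    (h0 : ∀ l, N ≤ l → x l = 0) (m : ℕ) : ∀ r, r + m = n + 1 →
    loop (W * s) (msk W N (c0 s n N)) (pk W N (fun _ => 1)) k m r (pk W N ((avN s)^[r] x))
      (pk W N (pL s n N x r)) (pk W N (pR s n N x r))
      = k (pk W N (lfN s n N x)) (pk W N (rgN s n N x)) := by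
  have h2 : 2 ^ (W - 1) + 2 ^ (W - 1) = 2 ^ W := by
    obtain ⟨V, rfl⟩ : ∃ V, W = V + 1 := ⟨W - 1, by omega⟩
    simp only [Nat.add_sub_cancel]
    ring
  have hx2 : ∀ l, x l < 2 ^ W := by
    intro l
    have := hx l
    omega
  induction m with
  | zero =>
    intro r hr
    have e : r = n + 1 := by omega
    subst e
    have e1 : pk W N (pL s n N x (n + 1)) = pk W N (lfN s n N x) := by
      apply pk_congr
      intro l hl
      unfold pL lfN
      have := co_le s n l
      rw [if_pos ⟨hl, by omega⟩, if_pos hl]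
    have e2 : pk W N (pR s n N x (n + 1)) = pk W N (rgN s n N x) := by
      apply pk_congr
      intro l hl
      unfold pR rgN
      rw [if_pos ⟨hl, by omega⟩, if_pos hl]
    change fcB _ (fun a => fcB _ (fun b => k a b)) = _
    rw [fcB_eq, fcB_eq, e1, e2]
  | succ m ih =>
    intro r hr
    have hb := it_lt s x _ hx r
    rw [loop_succ, fcB_eq, fcB_eq]
    rw [stepX W s N r x hW (fun l => by have := hx l; omega) h0
      (fun l => by have h3 := hb l; have h4 := hb (l + s); omega)]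
    have eL := stepL W s n N q r x hN hs (by omega) hx2
    have eR := stepR W s n N q r m x hN hs (by omega) hx2
    have eL' : Nat.add (pk W N (pL s n N x r)) (Nat.shiftLeft (Nat.land
        (pk W N ((avN s)^[r] x)) (msk W N (c0 s n N))) (Nat.mul (W * s) r))
        = pk W N (pL s n N x (r + 1)) := eL
    have eR' : Nat.add (pk W N (pR s n N x r)) (Nat.land (pk W N ((avN s)^[r] x))
        (Nat.shiftLeft (msk W N (c0 s n N)) (Nat.mul (W * s) m)))
        = pk W N (pR s n N x (r + 1)) := eR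
    rw [eL', eR']
    exact ih (r + 1) (by omega)

/-- The split. -/
noncomputable def split {β : Type} (Ws n1 E O X : ℕ) (k : ℕ → ℕ → β) : β :=
  loop Ws E O k n1 0 X 0 0

theorem split_spec {β : Type} (W s n N q : ℕ) (x : ℕ → ℕ) (k : ℕ → ℕ → β) (hW : 0 < W)
    (hN : N = s * (n + 1) * q) (hs : 0 < s) (hx : ∀ l, x l < 2 ^ (W - 1))
    (h0 : ∀ l, N ≤ l → x l = 0) :
    split (W * s) (n + 1) (msk W N (c0 s n N)) (pk W N (fun _ => 1)) (pk W N x) k
      = k (pk W N (lfN s n N x)) (pk W N (rgN s n N x)) := by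
  have h := loop_spec W s n N q x k hW hN hs hx h0 (n + 1) 0 (by omega)
  have e1 : pk W N (pL s n N x 0) = 0 := by
    unfold pk
    apply Finset.sum_eq_zero
    intro l _
    unfold pL
    rw [if_neg (by omega), zero_mul]
  have e2 : pk W N (pR s n N x 0) = 0 := by
    unfold pk
    apply Finset.sum_eq_zero
    intro l _
    unfold pR
    have := co_le s n l
    rw [if_neg (by omega), zero_mul]
  rw [e1, e2] at h
  exact h

end Pool.Agent.BPK
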