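import Pool.Agent.BPK.Const

/-!
The checker: a subdivision tree, driven by a certificate, on a list of packed polynomials.
-/

namespace Pool.Agent.BPK

/-- Constants of one packed polynomial, as seen by the kernel. -/
structure KC where
  s1 : ℕ
  s2 : ℕ
  s3 : ℕ
  m1 : ℕ
  m2 : ℕ
  m3 : ℕ
  E1 : ℕ
  E2 : ℕ
  E3 : ℕ
  O : ℕ
  C : ℕ
  T : ℕ

/-- The meaning of the constants. -/
structure KCok (W n1 n2 n3 : ℕ) (K : KC) : Prop where
  s1 : K.s1 = W * 1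
  s2 : K.s2 = W * (n1 + 1)
  s3 : K.s3 = W * ((n1 + 1) * (n2 + 1))
  m1 : K.m1 = n1 + 1
  m2 : K.m2 = n2 + 1
  m3 : K.m3 = n3 + 1
  E1 : K.E1 = msk W (NN n1 n2 n3) (c0 1 n1 (NN n1 n2 n3))
  E2 : K.E2 = msk W (NN n1 n2 n3) (c0 (n1 + 1) n2 (NN n1 n2 n3))
  E3 : K.E3 = msk W (NN n1 n2 n3) (c0 ((n1 + 1) * (n2 + 1)) n3 (NN n1 n2 n3))
  O : K.O = pk W (NN n1 n2 n3) (fun _ => 1)
  C : K.C = pk W (NN n1 n2 n3) (fun _ => 2 ^ (W - 2) - 1)
  T : K.T = pk W (NN n1 n2 n3) (fun _ => 2 ^ (W - 1))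

/-- split in direction `d` -/
noncomputable def spl (d : ℕ) (K : KC) (X : ℕ) (k : ℕ → ℕ → Bool) : Bool :=
  Nat.rec (motive := fun _ => Bool) (split K.s1 K.m1 K.E1 K.O X k)
    (fun d' _ => Nat.rec (motive := fun _ => Bool) (split K.s2 K.m2 K.E2 K.O X k)
      (fun _ _ => split K.s3 K.m3 K.E3 K.O X k) d') d

/-- split all polynomials -/
noncomputable def splitAll (d : ℕ) (Ks : List KC) :
    List ℕ → (List ℕ → List ℕ → Bool) → Bool :=
  List.rec (motive := fun _ => List ℕ → (List ℕ → List ℕ → Bool) → Bool)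
    (fun _ k => k [] [])
    (fun K _ ih L k => List.rec (motive := fun _ => Bool) false
      (fun X L' _ => spl d K X (fun a b => ih L' (fun A B => k (a :: A) (b :: B)))) L)
    Ks

/-- the test of one packed polynomial -/
def leafT (K : KC) (X : ℕ) : Bool := Nat.beq (Nat.land (Nat.add X K.C) K.T) K.T

/-- the test of the polynomial number `j` -/
noncomputable def leafAt (Ks : List KC) : ℕ → List ℕ → Bool :=
  List.rec (motive := fun _ => ℕ → List ℕ → Bool)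
    (fun _ _ => false)
    (fun K _ ih j L => List.rec (motive := fun _ => Bool) false
      (fun X L' _ => Nat.rec (motive := fun _ => Bool) (leafT K X) (fun j' _ => ih j' L') j) L)
    Ks

/-- the checker -/
noncomputable def go (Ks : List KC) (fuel : ℕ) : List ℕ → ℕ → (ℕ → Bool) → Bool :=
  Nat.rec (motive := fun _ => List ℕ → ℕ → (ℕ → Bool) → Bool)
    (fun _ _ _ => false)
    (fun _ ih L c k => fcB (Nat.mod c 16) (fun d => fcB (Nat.div c 16) (fun c' =>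
      Bool.rec (motive := fun _ => Bool)
        (splitAll d Ks L (fun A B => ih A c' (fun c'' => ih B c'' k)))
        (Bool.rec (motive := fun _ => Bool) false (k c') (leafAt Ks (Nat.sub d 3) L))
        (Nat.ble 3 d))))
    fuel

/-- left half in direction `d` -/
def lfD (d n1 n2 n3 : ℕ) (x : ℕ → ℕ) : ℕ → ℕ :=
  match d with
  | 0 => lfN 1 n1 (NN n1 n2 n3) x
  | 1 => lfN (n1 + 1) n2 (NN n1 n2 n3) x
  | _ => lfN ((n1 + 1) * (n2 + 1)) n3 (NN n1 n2 n3) x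

/-- right half in direction `d` -/
def rgD (d n1 n2 n3 : ℕ) (x : ℕ → ℕ) : ℕ → ℕ :=
  match d with
  | 0 => rgN 1 n1 (NN n1 n2 n3) x
  | 1 => rgN (n1 + 1) n2 (NN n1 n2 n3) x
  | _ => rgN ((n1 + 1) * (n2 + 1)) n3 (NN n1 n2 n3) x

/-- the point of the left half -/
noncomputable def hL (d : ℕ) (p : ℝ × ℝ × ℝ) : ℝ × ℝ × ℝ :=
  match d with
  | 0 => (p.1 / 2, p.2.1, p.2.2)
  | 1 => (p.1, p.2.1 / 2, p.2.2)
  | _ => (p.1, p.2.1, p.2.2 / 2)

/-- the point of the right half -/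
noncomputable def hR (d : ℕ) (p : ℝ × ℝ × ℝ) : ℝ × ℝ × ℝ :=
  match d with
  | 0 => ((1 + p.1) / 2, p.2.1, p.2.2)
  | 1 => (p.1, (1 + p.2.1) / 2, p.2.2)
  | _ => (p.1, p.2.1, (1 + p.2.2) / 2)

/-- The unit cube. -/
def Cube (p : ℝ × ℝ × ℝ) : Prop :=
  (0 ≤ p.1 ∧ p.1 ≤ 1) ∧ (0 ≤ p.2.1 ∧ p.2.1 ≤ 1) ∧ (0 ≤ p.2.2 ∧ p.2.2 ≤ 1)

/-- value of integer lanes -/
noncomputable def VN (n1 n2 n3 : ℕ) (x : ℕ → ℕ) (p : ℝ × ℝ × ℝ) : ℝ :=
  V n1 n2 n3 (fun l => (x l : ℝ)) p.1 p.2.1 p.2.2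

theorem VN_left (d n1 n2 n3 : ℕ) (x : ℕ → ℕ) (p : ℝ × ℝ × ℝ) (hp : Cube p) :
    VN n1 n2 n3 (lfD d n1 n2 n3 x) p ≤ VN n1 n2 n3 x (hL d p) := by
  obtain ⟨h1, h2, h3⟩ := hp
  unfold VN
  match d with
  | 0 =>
    simp only [lfD, hL]
    rw [← V_left1]
    exact V_mono _ _ _ _ _ _ _ _ h1 h2 h3 (fun l _ => lfN_le _ _ _ _ _ (fun _ => le_refl _) l)
  | 1 =>
    simp only [lfD, hL]
    rw [← V_left2]
    exact V_mono _ _ _ _ _ _ _ _ h1 h2 h3 (fun l _ => lfN_le _ _ _ _ _ (fun _ => le_refl _) l)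
  | d + 2 =>
    simp only [lfD, hL]
    rw [← V_left3]
    exact V_mono _ _ _ _ _ _ _ _ h1 h2 h3 (fun l _ => lfN_le _ _ _ _ _ (fun _ => le_refl _) l)

theorem VN_right (d n1 n2 n3 : ℕ) (x : ℕ → ℕ) (p : ℝ × ℝ × ℝ) (hp : Cube p) :
    VN n1 n2 n3 (rgD d n1 n2 n3 x) p ≤ VN n1 n2 n3 x (hR d p) := by
  obtain ⟨h1, h2, h3⟩ := hp
  unfold VN
  match d with
  | 0 =>
    simp only [rgD, hR]
    rw [← V_right1]
    exact V_mono _ _ _ _ _ _ _ _ h1 h2 h3 (fun l _ => rgN_le _ _ _ _ _ (fun _ => le_refl _) l)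
  | 1 =>
    simp only [rgD, hR]
    rw [← V_right2]
    exact V_mono _ _ _ _ _ _ _ _ h1 h2 h3 (fun l _ => rgN_le _ _ _ _ _ (fun _ => le_refl _) l)
  | d + 2 =>
    simp only [rgD, hR]
    rw [← V_right3]
    exact V_mono _ _ _ _ _ _ _ _ h1 h2 h3 (fun l _ => rgN_le _ _ _ _ _ (fun _ => le_refl _) l)

theorem spl_spec (W d n1 n2 n3 : ℕ) (K : KC) (x : ℕ → ℕ) (k : ℕ → ℕ → Bool) (hW : 0 < W)
    (hK : KCok W n1 n2 n3 K) (hx : ∀ l, x l < 2 ^ (W - 1))
    (h0 : ∀ l, NN n1 n2 n3 ≤ l → x l = 0) :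
    spl d K (pk W (NN n1 n2 n3) x) k
      = k (pk W (NN n1 n2 n3) (lfD d n1 n2 n3 x)) (pk W (NN n1 n2 n3) (rgD d n1 n2 n3 x)) := by
  match d with
  | 0 =>
    change split K.s1 K.m1 K.E1 K.O _ k = _
    rw [hK.s1, hK.m1, hK.E1, hK.O]
    exact split_spec W 1 n1 _ ((n2 + 1) * (n3 + 1)) x k hW (by unfold NN; ring) (by norm_num)
      hx h0
  | 1 =>
    change split K.s2 K.m2 K.E2 K.O _ k = _
    rw [hK.s2, hK.m2, hK.E2, hK.O]
    exact split_spec W (n1 + 1) n2 _ (n3 + 1) x k hW (by unfold NN; ring) (by positivity)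
      hx h0
  | d + 2 =>
    change split K.s3 K.m3 K.E3 K.O _ k = _
    rw [hK.s3, hK.m3, hK.E3, hK.O]
    exact split_spec W ((n1 + 1) * (n2 + 1)) n3 _ 1 x k hW (by unfold NN; ring) (by positivity)
      hx h0

theorem lfD_lt (d n1 n2 n3 : ℕ) (x : ℕ → ℕ) (M : ℕ) (hM : 0 < M) (h : ∀ l, x l < M) (l : ℕ) :
    lfD d n1 n2 n3 x l < M := by
  match d with
  | 0 => exact lfN_lt _ _ _ _ _ hM h l
  | 1 => exact lfN_lt _ _ _ _ _ hM h l
  | d + 2 => exact lfN_lt _ _ _ _ _ hM h l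

theorem rgD_lt (d n1 n2 n3 : ℕ) (x : ℕ → ℕ) (M : ℕ) (hM : 0 < M) (h : ∀ l, x l < M) (l : ℕ) :
    rgD d n1 n2 n3 x l < M := by
  match d with
  | 0 => exact rgN_lt _ _ _ _ _ hM h l
  | 1 => exact rgN_lt _ _ _ _ _ hM h l
  | d + 2 => exact rgN_lt _ _ _ _ _ hM h l

theorem lfD_zero (d n1 n2 n3 : ℕ) (x : ℕ → ℕ) (l : ℕ) (hl : NN n1 n2 n3 ≤ l) :
    lfD d n1 n2 n3 x l = 0 := by
  match d with
  | 0 => exact lfN_zero _ _ _ _ l hl
  | 1 => exact lfN_zero _ _ _ _ l hl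
  | d + 2 => exact lfN_zero _ _ _ _ l hl

theorem rgD_zero (d n1 n2 n3 : ℕ) (x : ℕ → ℕ) (l : ℕ) (hl : NN n1 n2 n3 ≤ l) :
    rgD d n1 n2 n3 x l = 0 := by
  match d with
  | 0 => exact rgN_zero _ _ _ _ l hl
  | 1 => exact rgN_zero _ _ _ _ l hl
  | d + 2 => exact rgN_zero _ _ _ _ l hl

/-- The relation between the packed numbers and lane functions. -/
def Rel (W : ℕ) : List (ℕ × ℕ × ℕ) → List KC → List ℕ → List (ℕ → ℕ) → Prop
  | [], [], [], [] => True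
  | d :: D, K :: Ks, X :: L, x :: xs =>
    KCok W d.1 d.2.1 d.2.2 K ∧ X = pk W (NN d.1 d.2.1 d.2.2) x ∧ (∀ l, x l < 2 ^ (W - 1))
      ∧ (∀ l, NN d.1 d.2.1 d.2.2 ≤ l → x l = 0) ∧ Rel W D Ks L xs
  | _, _, _, _ => False

/-- Some polynomial of the list is large at the point. -/
def Hit (M : ℝ) : List (ℕ × ℕ × ℕ) → List (ℕ → ℕ) → ℝ × ℝ × ℝ → Prop
  | d :: D, x :: xs, p => M ≤ VN d.1 d.2.1 d.2.2 x p ∨ Hit M D xs p
  | _, _, _ => False

theorem splitAll_spec (W : ℕ) (hW : 0 < W) (M : ℝ) (e : ℕ) (D : List (ℕ × ℕ × ℕ)) :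
    ∀ (Ks : List KC) (L : List ℕ) (xs : List (ℕ → ℕ)) (k : List ℕ → List ℕ → Bool),
      Rel W D Ks L xs → splitAll e Ks L k = true →
      ∃ A B xA xB, k A B = true ∧ Rel W D Ks A xA ∧ Rel W D Ks B xB
        ∧ (∀ p, Cube p → Hit M D xA p → Hit M D xs (hL e p))
        ∧ (∀ p, Cube p → Hit M D xB p → Hit M D xs (hR e p)) := by
  induction D with
  | nil =>
    intro Ks L xs k h1 h2
    match Ks, L, xs, h1 with
    | [], [], [], _ =>
      exact ⟨[], [], [], [], h2, trivial, trivial, fun p _ h => h, fun p _ h => h⟩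
  | cons d D ih =>
    intro Ks L xs k h1 h2
    match Ks, L, xs, h1 with
    | K :: Ks, X :: L, x :: xs, h1 =>
      obtain ⟨hK, hX, hx, h0, hr⟩ := h1
      have h3 : spl e K X (fun a b => splitAll e Ks L (fun A B => k (a :: A) (b :: B)))
          = true := h2
      rw [hX, spl_spec W e _ _ _ K x _ hW hK hx h0] at h3
      obtain ⟨A, B, xA, xB, h4, h5, h6, h7, h8⟩ := ih Ks L xs _ hr h3
      have hpos : 0 < 2 ^ (W - 1) := by positivity
      refine ⟨_ :: A, _ :: B, lfD e d.1 d.2.1 d.2.2 x :: xA, rgD e d.1 d.2.1 d.2.2 x :: xB,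
        h4, ?_, ?_, ?_, ?_⟩
      · exact ⟨hK, rfl, lfD_lt _ _ _ _ _ _ hpos hx, lfD_zero _ _ _ _ _, h5⟩
      · exact ⟨hK, rfl, rgD_lt _ _ _ _ _ _ hpos hx, rgD_zero _ _ _ _ _, h6⟩
      · intro p hp h
        rcases h with h | h
        · exact Or.inl (le_trans h (VN_left e _ _ _ x p hp))
        · exact Or.inr (h7 p hp h)
      · intro p hp h
        rcases h with h | h
        · exact Or.inl (le_trans h (VN_right e _ _ _ x p hp))
        · exact Or.inr (h8 p hp h)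

theorem leafT_spec (W n1 n2 n3 : ℕ) (hW : 2 ≤ W) (K : KC) (hK : KCok W n1 n2 n3 K) (x : ℕ → ℕ)
    (hx : ∀ l, x l < 2 ^ (W - 1)) (h : leafT K (pk W (NN n1 n2 n3) x) = true)
    (p : ℝ × ℝ × ℝ) (hp : Cube p) : ((2 ^ (W - 2) + 1 : ℕ) : ℝ) ≤ VN n1 n2 n3 x p := by
  obtain ⟨W', rfl⟩ : ∃ W', W = W' + 2 := ⟨W - 2, by omega⟩
  have h1 : Nat.land (Nat.add (pk (W' + 2) (NN n1 n2 n3) x) K.C) K.T = K.T :=
    Nat.eq_of_beq_eq_true h
  rw [hK.C, hK.T] at h1
  have e1 : W' + 2 - 2 = W' := by omega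
  have e2 : W' + 2 - 1 = W' + 1 := by omega
  rw [e1, e2] at h1
  rw [e2] at hx
  rw [e1]
  have h2 : 2 ^ (W' + 1) = 2 * 2 ^ W' := by ring
  have h3 : 2 ^ (W' + 1 + 1) = 4 * 2 ^ W' := by ring
  have h4 : 0 < 2 ^ W' := by positivity
  have h5 := pk_test (W' + 1) (NN n1 n2 n3) (2 ^ W' - 1) x (fun l => by
    have := hx l
    omega) h1
  unfold VN
  rw [← V_const n1 n2 n3 ((2 ^ W' + 1 : ℕ) : ℝ) p.1 p.2.1 p.2.2]
  apply V_mono _ _ _ _ _ _ _ _ hp.1 hp.2.1 hp.2.2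
  intro l hl
  have h6 := h5 l hl
  have h7 : 2 ^ W' + 1 ≤ x l := by omega
  exact_mod_cast h7

theorem leafAt_spec (W : ℕ) (hW : 2 ≤ W) (D : List (ℕ × ℕ × ℕ)) :
    ∀ (Ks : List KC) (j : ℕ) (L : List ℕ) (xs : List (ℕ → ℕ)), Rel W D Ks L xs →
      leafAt Ks j L = true → ∀ p, Cube p → Hit ((2 ^ (W - 2) + 1 : ℕ) : ℝ) D xs p := by
  induction D with
  | nil =>
    intro Ks j L xs h1 h2
    match Ks, L, xs, h1 with
    | [], [], [], _ =>
      have h3 : false = true := h2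
      exact absurd h3 (by simp)
  | cons d D ih =>
    intro Ks j L xs h1 h2 p hp
    match Ks, L, xs, h1 with
    | K :: Ks, X :: L, x :: xs, h1 =>
      obtain ⟨hK, hX, hx, h0, hr⟩ := h1
      match j with
      | 0 =>
        have h3 : leafT K X = true := h2
        rw [hX] at h3
        exact Or.inl (leafT_spec W _ _ _ hW K hK x hx h3 p hp)
      | j + 1 =>
        have h3 : leafAt Ks j L = true := h2
        exact Or.inr (ih Ks j L xs hr h3 p hp)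

theorem cube_split (e : ℕ) (P : ℝ × ℝ × ℝ → Prop) (h1 : ∀ p, Cube p → P (hL e p))
    (h2 : ∀ p, Cube p → P (hR e p)) (p : ℝ × ℝ × ℝ) (hp : Cube p) : P p := by
  obtain ⟨⟨a1, a2⟩, ⟨b1, b2⟩, ⟨c1, c2⟩⟩ := hp
  obtain ⟨x, y, z⟩ := p
  simp only at a1 a2 b1 b2 c1 c2
  match e with
  | 0 =>
    by_cases h : x ≤ 1 / 2
    · have := h1 (2 * x, y, z) ⟨⟨by simp only; linarith, by simp only; linarith⟩,
        ⟨b1, b2⟩, ⟨c1, c2⟩⟩
      simp only [hL] at this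
      have e : 2 * x / 2 = x := by ring
      rw [e] at this
      exact this
    · have := h2 (2 * x - 1, y, z) ⟨⟨by simp only; linarith, by simp only; linarith⟩,
        ⟨b1, b2⟩, ⟨c1, c2⟩⟩
      simp only [hR] at this
      have e : (1 + (2 * x - 1)) / 2 = x := by ring
      rw [e] at this
      exact this
  | 1 =>
    by_cases h : y ≤ 1 / 2
    · have := h1 (x, 2 * y, z) ⟨⟨a1, a2⟩, ⟨by simp only; linarith, by simp only; linarith⟩,
        ⟨c1, c2⟩⟩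
      simp only [hL] at this
      have e : 2 * y / 2 = y := by ring
      rw [e] at this
      exact this
    · have := h2 (x, 2 * y - 1, z) ⟨⟨a1, a2⟩, ⟨by simp only; linarith, by simp only; linarith⟩,
        ⟨c1, c2⟩⟩
      simp only [hR] at this
      have e : (1 + (2 * y - 1)) / 2 = y := by ring
      rw [e] at this
      exact this
  | e + 2 =>
    by_cases h : z ≤ 1 / 2
    · have := h1 (x, y, 2 * z) ⟨⟨a1, a2⟩, ⟨b1, b2⟩,
        ⟨by simp only; linarith, by simp only; linarith⟩⟩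
      simp only [hL] at this
      have e : 2 * z / 2 = z := by ring
      rw [e] at this
      exact this
    · have := h2 (x, y, 2 * z - 1) ⟨⟨a1, a2⟩, ⟨b1, b2⟩,
        ⟨by simp only; linarith, by simp only; linarith⟩⟩
      simp only [hR] at this
      have e : (1 + (2 * z - 1)) / 2 = z := by ring
      rw [e] at this
      exact this

theorem go_spec (W : ℕ) (hW : 2 ≤ W) (D : List (ℕ × ℕ × ℕ)) (Ks : List KC) (fuel : ℕ) :
    ∀ (L : List ℕ) (xs : List (ℕ → ℕ)) (c : ℕ) (k : ℕ → Bool), Rel W D Ks L xs →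
      go Ks fuel L c k = true →
      (∀ p, Cube p → Hit ((2 ^ (W - 2) + 1 : ℕ) : ℝ) D xs p) ∧ ∃ c', k c' = true := by
  induction fuel with
  | zero =>
    intro L xs c k h1 h2
    have h3 : false = true := h2
    exact absurd h3 (by simp)
  | succ n ih =>
    intro L xs c k h1 h2
    have h3 : fcB (Nat.mod c 16) (fun d => fcB (Nat.div c 16) (fun c' =>
      Bool.rec (motive := fun _ => Bool)
        (splitAll d Ks L (fun A B => go Ks n A c' (fun c'' => go Ks n B c'' k)))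
        (Bool.rec (motive := fun _ => Bool) false (k c') (leafAt Ks (Nat.sub d 3) L))
        (Nat.ble 3 d))) = true := h2
    rw [fcB_eq, fcB_eq] at h3
    generalize hd : Nat.mod c 16 = d at h3
    generalize hc : Nat.div c 16 = c' at h3
    cases hb : Nat.ble 3 d with
    | true =>
      rw [hb] at h3
      have h4 : Bool.rec (motive := fun _ => Bool) false (k c') (leafAt Ks (Nat.sub d 3) L)
          = true := h3
      cases hl : leafAt Ks (Nat.sub d 3) L with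
      | false =>
        rw [hl] at h4
        exact absurd h4 (by simp)
      | true =>
        rw [hl] at h4
        exact ⟨leafAt_spec W hW D Ks _ L xs h1 hl, c', h4⟩
    | false =>
      rw [hb] at h3
      have h4 : splitAll d Ks L (fun A B => go Ks n A c' (fun c'' => go Ks n B c'' k)) = true := h3
      obtain ⟨A, B, xA, xB, h5, h6, h7, h8, h9⟩ := splitAll_spec W (by omega)
        ((2 ^ (W - 2) + 1 : ℕ) : ℝ) d D Ks L xs _ h1 h4
      obtain ⟨g1, c1, g2⟩ := ih A xA c' _ h6 h5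
      obtain ⟨g3, c2, g4⟩ := ih B xB c1 _ h7 g2
      refine ⟨?_, c2, g4⟩
      exact cube_split d _ (fun p hp => h8 p hp (g1 p hp)) (fun p hp => h9 p hp (g3 p hp))

end Pool.Agent.BPK
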