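import Pool.Agent.BPK.Step

/-!
Values of tensor Bernstein arrays in three variables, splitting in the three directions.
-/

namespace Pool.Agent.BPK

/-- The value of a lane array. -/
noncomputable def V (n1 n2 n3 : ℕ) (b : ℕ → ℝ) (x y z : ℝ) : ℝ :=
  ∑ k ∈ Finset.range (n3 + 1), ∑ j ∈ Finset.range (n2 + 1), ∑ i ∈ Finset.range (n1 + 1),
    bern n3 k z * (bern n2 j y * (bern n1 i x
      * b (i + (n1 + 1) * j + (n1 + 1) * (n2 + 1) * k)))

theorem V_mono (n1 n2 n3 : ℕ) (b c : ℕ → ℝ) (x y z : ℝ) (hx : 0 ≤ x ∧ x ≤ 1)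
    (hy : 0 ≤ y ∧ y ≤ 1) (hz : 0 ≤ z ∧ z ≤ 1)
    (h : ∀ l, l < (n1 + 1) * (n2 + 1) * (n3 + 1) → b l ≤ c l) :
    V n1 n2 n3 b x y z ≤ V n1 n2 n3 c x y z := by
  unfold V
  apply Finset.sum_le_sum
  intro k hk
  apply Finset.sum_le_sum
  intro j hj
  apply Finset.sum_le_sum
  intro i hi
  have b1 := bern_nonneg n1 i x hx.1 hx.2
  have b2 := bern_nonneg n2 j y hy.1 hy.2
  have b3 := bern_nonneg n3 k z hz.1 hz.2
  apply mul_le_mul_of_nonneg_left _ b3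
  apply mul_le_mul_of_nonneg_left _ b2
  apply mul_le_mul_of_nonneg_left _ b1
  apply h
  have h1 : i < n1 + 1 := Finset.mem_range.mp hi
  have h2 : j < n2 + 1 := Finset.mem_range.mp hj
  have h3 : k < n3 + 1 := Finset.mem_range.mp hk
  have h4 : (n1 + 1) * (j + 1) ≤ (n1 + 1) * (n2 + 1) := Nat.mul_le_mul_left _ h2
  have h5 : (n1 + 1) * (n2 + 1) * (k + 1) ≤ (n1 + 1) * (n2 + 1) * (n3 + 1) :=
    Nat.mul_le_mul_left _ h3
  have h6 : (n1 + 1) * (j + 1) = (n1 + 1) * j + (n1 + 1) := by ring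
  have h7 : (n1 + 1) * (n2 + 1) * (k + 1) = (n1 + 1) * (n2 + 1) * k + (n1 + 1) * (n2 + 1) := by
    ring
  omega

theorem V_const (n1 n2 n3 : ℕ) (c x y z : ℝ) : V n1 n2 n3 (fun _ => c) x y z = c := by
  unfold V
  have h1 := bern_sum n1 x
  have h2 := bern_sum n2 y
  have h3 := bern_sum n3 z
  have e : ∀ k ∈ Finset.range (n3 + 1), ∑ j ∈ Finset.range (n2 + 1),
      ∑ i ∈ Finset.range (n1 + 1), bern n3 k z * (bern n2 j y * (bern n1 i x * c))
      = bern n3 k z * c := by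
    intro k _
    have e2 : ∀ j ∈ Finset.range (n2 + 1), ∑ i ∈ Finset.range (n1 + 1),
        bern n3 k z * (bern n2 j y * (bern n1 i x * c)) = bern n3 k z * c * bern n2 j y := by
      intro j _
      rw [← Finset.mul_sum, ← Finset.mul_sum, ← Finset.sum_mul, h1]
      ring
    rw [Finset.sum_congr rfl e2, ← Finset.mul_sum, h2, mul_one]
  rw [Finset.sum_congr rfl e, ← Finset.sum_mul, h3, one_mul]

/-- the number of lanes -/
def NN (n1 n2 n3 : ℕ) : ℕ := (n1 + 1) * (n2 + 1) * (n3 + 1)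

theorem idx_lt (n1 n2 n3 i j k : ℕ) (h1 : i < n1 + 1) (h2 : j < n2 + 1) (h3 : k < n3 + 1) :
    i + (n1 + 1) * j + (n1 + 1) * (n2 + 1) * k < NN n1 n2 n3 := by
  unfold NN
  have h4 : (n1 + 1) * (j + 1) ≤ (n1 + 1) * (n2 + 1) := Nat.mul_le_mul_left _ h2
  have h5 : (n1 + 1) * (n2 + 1) * (k + 1) ≤ (n1 + 1) * (n2 + 1) * (n3 + 1) :=
    Nat.mul_le_mul_left _ h3
  have h6 : (n1 + 1) * (j + 1) = (n1 + 1) * j + (n1 + 1) := by ring
  have h7 : (n1 + 1) * (n2 + 1) * (k + 1) = (n1 + 1) * (n2 + 1) * k + (n1 + 1) * (n2 + 1) := by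
    ring
  omega

theorem co1 (n1 n2 i j k : ℕ) (h1 : i < n1 + 1) :
    co 1 n1 (i + (n1 + 1) * j + (n1 + 1) * (n2 + 1) * k) = i := by
  unfold co
  rw [Nat.div_one]
  have : i + (n1 + 1) * j + (n1 + 1) * (n2 + 1) * k = i + (n1 + 1) * (j + (n2 + 1) * k) := by ring
  rw [this, Nat.add_mul_mod_self_left]
  exact Nat.mod_eq_of_lt h1

theorem co2 (n1 n2 i j k : ℕ) (h1 : i < n1 + 1) (h2 : j < n2 + 1) :
    co (n1 + 1) n2 (i + (n1 + 1) * j + (n1 + 1) * (n2 + 1) * k) = j := by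
  unfold co
  have : i + (n1 + 1) * j + (n1 + 1) * (n2 + 1) * k = i + (n1 + 1) * (j + (n2 + 1) * k) := by ring
  rw [this, Nat.add_mul_div_left _ _ (by omega), Nat.div_eq_of_lt h1, zero_add,
    Nat.add_mul_mod_self_left]
  exact Nat.mod_eq_of_lt h2

theorem co3 (n1 n2 n3 i j k : ℕ) (h1 : i < n1 + 1) (h2 : j < n2 + 1) (h3 : k < n3 + 1) :
    co ((n1 + 1) * (n2 + 1)) n3 (i + (n1 + 1) * j + (n1 + 1) * (n2 + 1) * k) = k := by
  unfold co
  have h4 : (n1 + 1) * (j + 1) ≤ (n1 + 1) * (n2 + 1) := Nat.mul_le_mul_left _ h2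
  have h6 : (n1 + 1) * (j + 1) = (n1 + 1) * j + (n1 + 1) := by ring
  have h5 : i + (n1 + 1) * j < (n1 + 1) * (n2 + 1) := by omega
  rw [Nat.add_mul_div_left _ _ (by positivity), Nat.div_eq_of_lt h5, zero_add]
  exact Nat.mod_eq_of_lt h3

theorem V_left1 (n1 n2 n3 : ℕ) (b : ℕ → ℝ) (x y z : ℝ) :
    V n1 n2 n3 (lfR 1 n1 (NN n1 n2 n3) b) x y z = V n1 n2 n3 b (x / 2) y z := by
  unfold V
  apply Finset.sum_congr rfl
  intro k hk
  apply Finset.sum_congr rfl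
  intro j hj
  rw [← Finset.mul_sum, ← Finset.mul_sum, ← Finset.mul_sum, ← Finset.mul_sum]
  congr 2
  have h := left_eq n1 x (fun i => b ((n1 + 1) * j + (n1 + 1) * (n2 + 1) * k + 1 * i))
  have h2 : j < n2 + 1 := Finset.mem_range.mp hj
  have h3 : k < n3 + 1 := Finset.mem_range.mp hk
  have e1 : ∑ i ∈ Finset.range (n1 + 1), bern n1 i x * lfR 1 n1 (NN n1 n2 n3) b
      (i + (n1 + 1) * j + (n1 + 1) * (n2 + 1) * k)
      = ∑ i ∈ Finset.range (n1 + 1), bern n1 i x * ((H ^ i) (fun i => b ((n1 + 1) * j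
        + (n1 + 1) * (n2 + 1) * k + 1 * i))) 0 := by
    apply Finset.sum_congr rfl
    intro i hi
    have h1 : i < n1 + 1 := Finset.mem_range.mp hi
    have e : i + (n1 + 1) * j + (n1 + 1) * (n2 + 1) * k
        = (n1 + 1) * j + (n1 + 1) * (n2 + 1) * k + 1 * i := by ring
    have h4 := idx_lt n1 n2 n3 i j k h1 h2 h3
    have h5 := co1 n1 n2 i j k h1
    rw [e] at h4 h5
    rw [e, lfR_line 1 n1 _ _ i b h4 h5]
  rw [e1, h]
  apply Finset.sum_congr rfl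
  intro i _
  have e : i + (n1 + 1) * j + (n1 + 1) * (n2 + 1) * k
        = (n1 + 1) * j + (n1 + 1) * (n2 + 1) * k + 1 * i := by ring
  rw [e]

theorem V_right1 (n1 n2 n3 : ℕ) (b : ℕ → ℝ) (x y z : ℝ) :
    V n1 n2 n3 (rgR 1 n1 (NN n1 n2 n3) b) x y z = V n1 n2 n3 b ((1 + x) / 2) y z := by
  unfold V
  apply Finset.sum_congr rfl
  intro k hk
  apply Finset.sum_congr rfl
  intro j hj
  rw [← Finset.mul_sum, ← Finset.mul_sum, ← Finset.mul_sum, ← Finset.mul_sum]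
  congr 2
  have h := right_eq n1 x (fun i => b ((n1 + 1) * j + (n1 + 1) * (n2 + 1) * k + 1 * i))
  have h2 : j < n2 + 1 := Finset.mem_range.mp hj
  have h3 : k < n3 + 1 := Finset.mem_range.mp hk
  have e1 : ∑ i ∈ Finset.range (n1 + 1), bern n1 i x * rgR 1 n1 (NN n1 n2 n3) b
      (i + (n1 + 1) * j + (n1 + 1) * (n2 + 1) * k)
      = ∑ i ∈ Finset.range (n1 + 1), bern n1 i x * ((H ^ (n1 - i)) (fun i => b ((n1 + 1) * j
        + (n1 + 1) * (n2 + 1) * k + 1 * i))) i := by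
    apply Finset.sum_congr rfl
    intro i hi
    have h1 : i < n1 + 1 := Finset.mem_range.mp hi
    have e : i + (n1 + 1) * j + (n1 + 1) * (n2 + 1) * k
        = (n1 + 1) * j + (n1 + 1) * (n2 + 1) * k + 1 * i := by ring
    have h4 := idx_lt n1 n2 n3 i j k h1 h2 h3
    have h5 := co1 n1 n2 i j k h1
    rw [e] at h4 h5
    rw [e, rgR_line 1 n1 _ _ i b h4 h5]
  rw [e1, h]
  apply Finset.sum_congr rfl
  intro i _
  have e : i + (n1 + 1) * j + (n1 + 1) * (n2 + 1) * k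
        = (n1 + 1) * j + (n1 + 1) * (n2 + 1) * k + 1 * i := by ring
  rw [e]

/-- the order of summation with the `y` direction innermost -/
theorem V_comm2 (n1 n2 n3 : ℕ) (b : ℕ → ℝ) (x y z : ℝ) : V n1 n2 n3 b x y z
    = ∑ k ∈ Finset.range (n3 + 1), ∑ i ∈ Finset.range (n1 + 1), bern n3 k z * (bern n1 i x
      * ∑ j ∈ Finset.range (n2 + 1), bern n2 j y
        * b (i + (n1 + 1) * (n2 + 1) * k + (n1 + 1) * j)) := by
  unfold V
  apply Finset.sum_congr rfl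
  intro k _
  rw [Finset.sum_comm]
  apply Finset.sum_congr rfl
  intro i _
  rw [Finset.mul_sum, Finset.mul_sum]
  apply Finset.sum_congr rfl
  intro j _
  have e : i + (n1 + 1) * j + (n1 + 1) * (n2 + 1) * k
      = i + (n1 + 1) * (n2 + 1) * k + (n1 + 1) * j := by ring
  rw [e]
  ring

theorem V_left2 (n1 n2 n3 : ℕ) (b : ℕ → ℝ) (x y z : ℝ) :
    V n1 n2 n3 (lfR (n1 + 1) n2 (NN n1 n2 n3) b) x y z = V n1 n2 n3 b x (y / 2) z := by
  rw [V_comm2, V_comm2]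
  apply Finset.sum_congr rfl
  intro k hk
  apply Finset.sum_congr rfl
  intro i hi
  congr 2
  have h := left_eq n2 y (fun j => b (i + (n1 + 1) * (n2 + 1) * k + (n1 + 1) * j))
  have h1 : i < n1 + 1 := Finset.mem_range.mp hi
  have h3 : k < n3 + 1 := Finset.mem_range.mp hk
  rw [← h]
  apply Finset.sum_congr rfl
  intro j hj
  have h2 : j < n2 + 1 := Finset.mem_range.mp hj
  have e : i + (n1 + 1) * j + (n1 + 1) * (n2 + 1) * k
      = i + (n1 + 1) * (n2 + 1) * k + (n1 + 1) * j := by ring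
  have h4 := idx_lt n1 n2 n3 i j k h1 h2 h3
  have h5 := co2 n1 n2 i j k h1 h2
  rw [e] at h4 h5
  rw [lfR_line (n1 + 1) n2 _ _ j b h4 h5]

theorem V_right2 (n1 n2 n3 : ℕ) (b : ℕ → ℝ) (x y z : ℝ) :
    V n1 n2 n3 (rgR (n1 + 1) n2 (NN n1 n2 n3) b) x y z = V n1 n2 n3 b x ((1 + y) / 2) z := by
  rw [V_comm2, V_comm2]
  apply Finset.sum_congr rfl
  intro k hk
  apply Finset.sum_congr rfl
  intro i hi
  congr 2
  have h := right_eq n2 y (fun j => b (i + (n1 + 1) * (n2 + 1) * k + (n1 + 1) * j))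
  have h1 : i < n1 + 1 := Finset.mem_range.mp hi
  have h3 : k < n3 + 1 := Finset.mem_range.mp hk
  rw [← h]
  apply Finset.sum_congr rfl
  intro j hj
  have h2 : j < n2 + 1 := Finset.mem_range.mp hj
  have e : i + (n1 + 1) * j + (n1 + 1) * (n2 + 1) * k
      = i + (n1 + 1) * (n2 + 1) * k + (n1 + 1) * j := by ring
  have h4 := idx_lt n1 n2 n3 i j k h1 h2 h3
  have h5 := co2 n1 n2 i j k h1 h2
  rw [e] at h4 h5
  rw [rgR_line (n1 + 1) n2 _ _ j b h4 h5]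

/-- the order of summation with the `z` direction innermost -/
theorem V_comm3 (n1 n2 n3 : ℕ) (b : ℕ → ℝ) (x y z : ℝ) : V n1 n2 n3 b x y z
    = ∑ j ∈ Finset.range (n2 + 1), ∑ i ∈ Finset.range (n1 + 1), bern n2 j y * (bern n1 i x
      * ∑ k ∈ Finset.range (n3 + 1), bern n3 k z
        * b (i + (n1 + 1) * j + (n1 + 1) * (n2 + 1) * k)) := by
  unfold V
  rw [Finset.sum_comm]
  apply Finset.sum_congr rfl
  intro j _
  rw [Finset.sum_comm]
  apply Finset.sum_congr rfl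
  intro i _
  rw [Finset.mul_sum, Finset.mul_sum]
  apply Finset.sum_congr rfl
  intro k _
  ring

theorem V_left3 (n1 n2 n3 : ℕ) (b : ℕ → ℝ) (x y z : ℝ) :
    V n1 n2 n3 (lfR ((n1 + 1) * (n2 + 1)) n3 (NN n1 n2 n3) b) x y z
      = V n1 n2 n3 b x y (z / 2) := by
  rw [V_comm3, V_comm3]
  apply Finset.sum_congr rfl
  intro j hj
  apply Finset.sum_congr rfl
  intro i hi
  congr 2
  have h := left_eq n3 z (fun k => b (i + (n1 + 1) * j + (n1 + 1) * (n2 + 1) * k))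
  have h1 : i < n1 + 1 := Finset.mem_range.mp hi
  have h2 : j < n2 + 1 := Finset.mem_range.mp hj
  rw [← h]
  apply Finset.sum_congr rfl
  intro k hk
  have h3 : k < n3 + 1 := Finset.mem_range.mp hk
  have h4 := idx_lt n1 n2 n3 i j k h1 h2 h3
  have h5 := co3 n1 n2 n3 i j k h1 h2 h3
  rw [lfR_line ((n1 + 1) * (n2 + 1)) n3 _ _ k b h4 h5]

theorem V_right3 (n1 n2 n3 : ℕ) (b : ℕ → ℝ) (x y z : ℝ) :
    V n1 n2 n3 (rgR ((n1 + 1) * (n2 + 1)) n3 (NN n1 n2 n3) b) x y z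
      = V n1 n2 n3 b x y ((1 + z) / 2) := by
  rw [V_comm3, V_comm3]
  apply Finset.sum_congr rfl
  intro j hj
  apply Finset.sum_congr rfl
  intro i hi
  congr 2
  have h := right_eq n3 z (fun k => b (i + (n1 + 1) * j + (n1 + 1) * (n2 + 1) * k))
  have h1 : i < n1 + 1 := Finset.mem_range.mp hi
  have h2 : j < n2 + 1 := Finset.mem_range.mp hj
  rw [← h]
  apply Finset.sum_congr rfl
  intro k hk
  have h3 : k < n3 + 1 := Finset.mem_range.mp hk
  have h4 := idx_lt n1 n2 n3 i j k h1 h2 h3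
  have h5 := co3 n1 n2 n3 i j k h1 h2 h3
  rw [rgR_line ((n1 + 1) * (n2 + 1)) n3 _ _ k b h4 h5]

end Pool.Agent.BPK
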